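import Pool.Agent.Y712.AJ.Defs
import Pool.Agent.Y101.Aq.CanL
import Pool.Agent.Y101.Aq.VMain

/-!
# The kernels of Abel–Jacobi maps and the powers of the canonical classes
-/

open CategoryTheory AlgebraicGeometry Finset

universe u v w w' w'' x x'

namespace Pool.Agent.Y712.AJ

open Pool.Agent.H914 Pool.Agent.H914.VarClass Pool.Agent.H914.VarClass.Obj Pool.Agent.W492.BB
  Pool.Agent.TH133 Pool.Agent.Y101.Aq

variable {k : Type u} [Field k] {𝒱 : VarClass k} {C : TheoryData.{u, v, 0} 𝒱 ℚ}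
  {K : Type w} [Field K] {H : WeilTheoryData.{u, v, w} C K} {T : AJData.{u, v, w'} C}

lemma aj_zero (hT : IsLinearAJ H T) (X : 𝒱.Obj) (i : ℕ) : T.aj X i 0 = 0 := by
  have h := hT.smul X i 0 0 ⟨Submodule.zero_mem _, map_zero _⟩
  rwa [zero_smul, zero_smul] at h

lemma aj_sub (hT : IsLinearAJ H T) (X : 𝒱.Obj) (i : ℕ) {a b : C.A X} (ha : HomTrivial H i a)
    (hb : HomTrivial H i b) : T.aj X i (a - b) = T.aj X i a - T.aj X i b := by
  have hb' : HomTrivial H i (-b) := ⟨Submodule.neg_mem _ hb.1, by rw [map_neg, hb.2, neg_zero]⟩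
  have h := hT.smul X i (-1) b hb
  rw [neg_one_smul, neg_one_smul] at h
  rw [sub_eq_add_neg, hT.add X i a (-b) ha hb', h, ← sub_eq_add_neg]

/-- The kernel of the Abel–Jacobi map. -/
def ajFam (hT : IsLinearAJ H T) : Family C := fun X i =>
  { carrier := {a | AJTrivial H T i a}
    zero_mem' := ⟨⟨Submodule.zero_mem _, map_zero _⟩, aj_zero hT X i⟩
    add_mem' := by
      rintro a b ⟨h1, h2⟩ ⟨h3, h4⟩
      refine ⟨⟨Submodule.add_mem _ h1.1 h3.1, by rw [map_add, h1.2, h3.2, add_zero]⟩, ?_⟩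
      rw [hT.add X i a b h1 h3, h2, h4, add_zero]
    smul_mem' := by
      rintro q a ⟨h1, h2⟩
      refine ⟨(homFam H X i).smul_mem q h1, ?_⟩
      rw [hT.smul X i q a h1, h2, smul_zero] }

section

variable [hC : IsChowProj C]

include hC

lemma ajFam_adequate (hH : H.IsClassMap) (hT : IsAJ H T) : IsAdequate (ajFam hT.toIsLinearAJ) where
  le X i a ha := ha.1.1
  mul {X i j a b} ha hb := by
    obtain ⟨h1, h2⟩ := ha
    obtain ⟨φ, hφ⟩ := hT.mul (X := X) i j b hb
    refine ⟨(homFam_adequate hC hH).mul h1 hb, ?_⟩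
    rw [hφ a h1, h2, map_zero]
  pull {X Y} f {i a} ha := by
    obtain ⟨h1, h2⟩ := ha
    obtain ⟨φ, hφ⟩ := hT.pull f i
    refine ⟨(homFam_adequate hC hH).pull f h1, ?_⟩
    rw [hφ a h1, h2, map_zero]
  push {X Y} f {i j a} hij ha := by
    obtain ⟨h1, h2⟩ := ha
    obtain ⟨φ, hφ⟩ := hT.push f i j hij
    refine ⟨(homFam_adequate hC hH).push f hij h1, ?_⟩
    rw [hφ a h1, h2, map_zero]

omit hC in
lemma injectiveIn_iff (hT : IsLinearAJ H T) (X : 𝒱.Obj) (i : ℕ) :
    InjectiveIn H T X i ↔ ∀ a : C.A X, AJTrivial H T i a → a = 0 := by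
  constructor
  · rintro h a ⟨h1, h2⟩
    exact h a 0 h1 ⟨Submodule.zero_mem _, map_zero _⟩ (h2.trans (aj_zero hT X i).symm)
  · intro h a b ha hb hab
    rw [← sub_eq_zero]
    refine h (a - b) ⟨⟨Submodule.sub_mem _ ha.1 hb.1, ?_⟩, ?_⟩
    · rw [map_sub, ha.2, hb.2, sub_zero]
    · rw [aj_sub hT X i ha hb, hab, sub_self]

lemma implies_iff [hH : IsWeilProj H] (hT : IsLinearAJ H T) (X : 𝒱.Obj) :
    Injective H T X ↔ Implies (ajFam hT) (zeroFam C) X := by
  constructor
  · intro h i _ x hx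
    exact (injectiveIn_iff hT X i).1 (h i) x hx
  · intro h i
    rw [injectiveIn_iff hT]
    intro x hx
    rcases Nat.eq_zero_or_pos i with rfl | hi
    · exact zero_of_cl (H := H) le_rfl hx.1.1 hx.1.2
    · exact h i hi x hx

variable {D : BundleData.{u, v, w''} C} (hD : IsBundleTheory D)

include hD

/-- **The injectivity of the Abel–Jacobi maps of all varieties and the powers of the canonical classes of
the rational varieties.** -/
theorem aj_global [hH : IsWeilProj H] (hT : IsAJ H T) {can : ∀ X : 𝒱.Obj, C.A X}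
    (hcan : IsCanonical D can) {R : 𝒱.Obj → Prop} (hR : IsRationalClass D R) :
    GlobalReduction D can R H T := by
  have h := canonical_global (isBasic hC) hD hcan hR (ajFam_adequate hH.isClassMap hT)
    (zeroFam_adequate C)
  have e2 : ∀ X, MiddleInjective D H T X ↔
      ImpliesInMiddle D (ajFam hT.toIsLinearAJ) (zeroFam C) X := by
    intro X
    exact ⟨fun h v hv n hn hd hvn => h n hn hd v hv hvn,
      fun h n hn hd v hv hvn => h v hv n hn hd hvn⟩
  unfold GlobalReduction
  simp only [implies_iff hT.toIsLinearAJ, e2]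
  tfae_have 1 ↔ 2 := h.out 0 3
  tfae_have 1 ↔ 3 := h.out 0 2
  tfae_have 1 ↔ 4 := h.out 0 1
  tfae_finish

/-- **The injectivity of the Abel–Jacobi maps of one variety and the canonical classes of the projective
bundles.** -/
theorem aj_local [hH : IsWeilProj H] (hT : IsAJ H T) {can : ∀ X : 𝒱.Obj, C.A X}
    (hcan : IsCanonical D can) (X : 𝒱.Obj) : LocalReduction D can H T X := by
  intro h1
  have h01 : ∀ i ≤ 1, ∀ x ∈ ajFam hT.toIsLinearAJ X i, x ∈ zeroFam C X i := by
    intro i hi x hx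
    rcases Nat.eq_zero_or_pos i with rfl | hi0
    · exact zero_of_cl (H := H) le_rfl hx.1.1 hx.1.2
    · obtain rfl : i = 1 := by omega
      exact (injectiveIn_iff hT.toIsLinearAJ X 1).1 h1 x hx
  have h := canonical_local (isBasic hC) hD hcan (ajFam_adequate hH.isClassMap hT)
    (zeroFam_adequate C) X h01
  simp only [Injective, injectiveIn_iff hT.toIsLinearAJ]
  tfae_have 1 ↔ 2 := h.out 0 3
  tfae_have 1 ↔ 3 := h.out 0 1
  tfae_have 1 ↔ 4 := h.out 0 2
  tfae_finish

/-- **The kernels of two Abel–Jacobi maps and the powers of the canonical classes of the rational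
varieties.** -/
theorem aj_compare [hH : IsWeilProj H] (hT : IsAJ H T) {K' : Type x} [Field K']
    {H' : WeilTheoryData.{u, v, x} C K'} [hH' : IsWeilProj H'] {T' : AJData.{u, v, x'} C}
    (hT' : IsAJ H' T') {can : ∀ X : 𝒱.Obj, C.A X}
    (hcan : IsCanonical D can) {R : 𝒱.Obj → Prop} (hR : IsRationalClass D R) :
    KerLe H T H' T' ↔ CanKerLe can R H T H' T' := by
  have h := (canonical_global (isBasic hC) hD hcan hR (ajFam_adequate hH.isClassMap hT)
    (ajFam_adequate hH'.isClassMap hT')).out 0 3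
  constructor
  · intro h' X _ n _ hn
    exact h' X n _ hn
  · intro h' X i x hx
    rcases Nat.eq_zero_or_pos i with rfl | hi
    · have e : x = 0 := zero_of_cl (H := H) le_rfl hx.1.1 hx.1.2
      rw [e]
      exact (ajFam hT'.toIsLinearAJ X 0).zero_mem
    · exact h.2 h' X i hi x hx

end

end Pool.Agent.Y712.AJ
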