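import Pool.Agent.Y101.Aq.Rel

/-!
# Abel–Jacobi maps: definitions

An Abel–Jacobi theory consists of linear maps on the homologically trivial classes, compatible with
pull-backs, push-forwards and products with arbitrary classes. The `p`-adic étale Abel–Jacobi maps, with
values in the continuous Galois cohomology groups `H¹(K, H^{2i-1}(X)(i))`, and Griffiths's Abel–Jacobi
maps, with values in the intermediate Jacobians tensored with `ℚ`, have these properties.
-/

open CategoryTheory AlgebraicGeometry Finset

universe u v w w' w'' x x'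

namespace Pool.Agent.Y712.AJ

open Pool.Agent.H914 Pool.Agent.H914.VarClass Pool.Agent.H914.VarClass.Obj Pool.Agent.W492.BB
  Pool.Agent.TH133 Pool.Agent.Y101.Aq

variable {k : Type u} [Field k] {𝒱 : VarClass k} {C : TheoryData.{u, v, 0} 𝒱 ℚ}
  {K : Type w} [Field K]

/-- The class `a` on `X` is of codimension `i` and homologically trivial. -/
def HomTrivial (H : WeilTheoryData.{u, v, w} C K) {X : 𝒱.Obj} (i : ℕ) (a : C.A X) : Prop :=
  C.Deg i a ∧ H.cl a = 0

/-- The data of Abel–Jacobi maps: a rational vector space `J X i` and a map from the classes on `X` to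
it, for all `X` and `i`. Only its values on the homologically trivial classes of codimension `i` are
used. -/
structure AJData (C : TheoryData.{u, v, 0} 𝒱 ℚ) where
  /-- the target of the Abel–Jacobi map in codimension `i` -/
  J : 𝒱.Obj → ℕ → Type w'
  /-- it is an abelian group -/
  grp : ∀ X i, AddCommGroup (J X i)
  /-- it is a rational vector space -/
  mod : ∀ X i, Module ℚ (J X i)
  /-- the Abel–Jacobi map -/
  aj : ∀ X i, C.A X → J X i

attribute [instance] AJData.grp AJData.mod

/-- The Abel–Jacobi maps are linear on the homologically trivial classes. -/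
structure IsLinearAJ (H : WeilTheoryData.{u, v, w} C K) (T : AJData.{u, v, w'} C) : Prop where
  add : ∀ (X : 𝒱.Obj) (i : ℕ) (a b : C.A X), HomTrivial H i a → HomTrivial H i b →
    T.aj X i (a + b) = T.aj X i a + T.aj X i b
  smul : ∀ (X : 𝒱.Obj) (i : ℕ) (q : ℚ) (a : C.A X), HomTrivial H i a →
    T.aj X i (q • a) = q • T.aj X i a

/-- The Abel–Jacobi maps are linear on the homologically trivial classes and compatible with pull-backs,
with push-forwards and with products: the image of `f^* a` is a linear function of the image of `a`, and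
the same for `f_* a` and for the product `a b` of `a` with any class `b`. -/
structure IsAJ (H : WeilTheoryData.{u, v, w} C K) (T : AJData.{u, v, w'} C) : Prop extends
    IsLinearAJ H T where
  pull : ∀ {X Y : 𝒱.Obj} (f : X ⟶ Y) (i : ℕ), ∃ φ : T.J Y i →ₗ[ℚ] T.J X i,
    ∀ a : C.A Y, HomTrivial H i a → T.aj X i (C.up f a) = φ (T.aj Y i a)
  push : ∀ {X Y : 𝒱.Obj} (f : X ⟶ Y) (i j : ℕ), i + Y.dim = j + X.dim →
    ∃ φ : T.J X i →ₗ[ℚ] T.J Y j,
    ∀ a : C.A X, HomTrivial H i a → T.aj Y j (C.down f a) = φ (T.aj X i a)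
  mul : ∀ {X : 𝒱.Obj} (i j : ℕ) (b : C.A X), C.Deg j b → ∃ φ : T.J X i →ₗ[ℚ] T.J X (i + j),
    ∀ a : C.A X, HomTrivial H i a → T.aj X (i + j) (C.mul a b) = φ (T.aj X i a)

/-- The class `a` of codimension `i` on `X` is homologically trivial and its image under the
Abel–Jacobi map is zero. -/
def AJTrivial (H : WeilTheoryData.{u, v, w} C K) (T : AJData.{u, v, w'} C) {X : 𝒱.Obj} (i : ℕ)
    (a : C.A X) : Prop := HomTrivial H i a ∧ T.aj X i a = 0

/-- The Abel–Jacobi map of `X` in codimension `i` is injective on the homologically trivial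
classes. -/
def InjectiveIn (H : WeilTheoryData.{u, v, w} C K) (T : AJData.{u, v, w'} C) (X : 𝒱.Obj) (i : ℕ) :
    Prop :=
  ∀ a b : C.A X, HomTrivial H i a → HomTrivial H i b → T.aj X i a = T.aj X i b → a = b

/-- The Abel–Jacobi maps of `X` are injective, in all codimensions. -/
def Injective (H : WeilTheoryData.{u, v, w} C K) (T : AJData.{u, v, w'} C) (X : 𝒱.Obj) : Prop :=
  ∀ i : ℕ, InjectiveIn H T X i

/-- If a power `n ≥ 1` of the canonical class of `X` is homologically trivial and its image under the
Abel–Jacobi map is zero, then it is zero. -/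
def CanInjective (can : ∀ X : 𝒱.Obj, C.A X) (H : WeilTheoryData.{u, v, w} C K)
    (T : AJData.{u, v, w'} C) (X : 𝒱.Obj) : Prop :=
  ∀ n : ℕ, 1 ≤ n → AJTrivial H T n (can X ^ n) → can X ^ n = 0

/-- If `dim X = 2 n`, `n ≥ 1`, `v` is a divisor on `X` and `v ^ n` is homologically trivial and its image
under the Abel–Jacobi map is zero, then `v ^ n` is zero. -/
def MiddleInjective (D : BundleData.{u, v, w''} C) (H : WeilTheoryData.{u, v, w} C K)
    (T : AJData.{u, v, w'} C) (X : 𝒱.Obj) : Prop :=
  ∀ n : ℕ, 1 ≤ n → X.dim = 2 * n → ∀ v ∈ D.L X, AJTrivial H T n (v ^ n) → v ^ n = 0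

/-- If the Chern classes `c_i(E)`, `i ≥ 1`, of a vector bundle `E` on `X` are homologically trivial with
image zero under the Abel–Jacobi maps, then they are zero. -/
def BundleInjective (D : BundleData.{u, v, w''} C) (H : WeilTheoryData.{u, v, w} C K)
    (T : AJData.{u, v, w'} C) (X : 𝒱.Obj) : Prop :=
  ∀ E : D.B X, (∀ i : ℕ, 1 ≤ i → AJTrivial H T i (D.c E i)) → ∀ i : ℕ, 1 ≤ i → D.c E i = 0

/-- If `E` is a vector bundle of rank `r ≥ 1` on `X` with `c_1(E) = - can X`, and the `(r + 1)`-st power
of the canonical class of `P(E)` is homologically trivial with image zero under the Abel–Jacobi map, then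
it is zero. -/
def AnticanonicalInjective (D : BundleData.{u, v, w''} C) (can : ∀ X : 𝒱.Obj, C.A X)
    (H : WeilTheoryData.{u, v, w} C K) (T : AJData.{u, v, w'} C) (X : 𝒱.Obj) : Prop :=
  ∀ E : D.B X, 1 ≤ D.rk E → can X + D.c E 1 = 0 →
    AJTrivial H T (D.rk E + 1) (can (D.P E) ^ (D.rk E + 1)) → can (D.P E) ^ (D.rk E + 1) = 0

/-- These are equivalent:

* the Abel–Jacobi maps of all varieties are injective;
* `CanInjective` holds for all varieties in the class `R`;
* `MiddleInjective` holds for all varieties in `R`;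
* `BundleInjective` holds for all varieties in `R`. -/
def GlobalReduction (D : BundleData.{u, v, w''} C) (can : ∀ X : 𝒱.Obj, C.A X) (R : 𝒱.Obj → Prop)
    (H : WeilTheoryData.{u, v, w} C K) (T : AJData.{u, v, w'} C) : Prop :=
  List.TFAE [∀ X, Injective H T X, ∀ X, R X → CanInjective can H T X,
    ∀ X, R X → MiddleInjective D H T X, ∀ X, R X → BundleInjective D H T X]

/-- If the Abel–Jacobi map of `X` in codimension one is injective, then these are equivalent:

* the Abel–Jacobi maps of `X` are injective in all codimensions;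
* `AnticanonicalInjective` holds for `X`;
* `BundleInjective` holds for `X`;
* the Abel–Jacobi maps of `P(E)` are injective for all vector bundles `E` of rank at least one
  on `X`. -/
def LocalReduction (D : BundleData.{u, v, w''} C) (can : ∀ X : 𝒱.Obj, C.A X)
    (H : WeilTheoryData.{u, v, w} C K) (T : AJData.{u, v, w'} C) (X : 𝒱.Obj) : Prop :=
  InjectiveIn H T X 1 →
    List.TFAE [Injective H T X, AnticanonicalInjective D can H T X, BundleInjective D H T X,
      ∀ E : D.B X, 1 ≤ D.rk E → Injective H T (D.P E)]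

/-- The kernel of the first Abel–Jacobi map is contained in the kernel of the second one, for all
varieties and codimensions. -/
def KerLe (H : WeilTheoryData.{u, v, w} C K) (T : AJData.{u, v, w'} C)
    {K' : Type x} [Field K'] (H' : WeilTheoryData.{u, v, x} C K') (T' : AJData.{u, v, x'} C) :
    Prop :=
  ∀ (X : 𝒱.Obj) (i : ℕ) (a : C.A X), AJTrivial H T i a → AJTrivial H' T' i a

/-- The same for the powers `n ≥ 1` of the canonical classes of the varieties in `R`. -/
def CanKerLe (can : ∀ X : 𝒱.Obj, C.A X) (R : 𝒱.Obj → Prop) (H : WeilTheoryData.{u, v, w} C K)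
    (T : AJData.{u, v, w'} C) {K' : Type x} [Field K'] (H' : WeilTheoryData.{u, v, x} C K')
    (T' : AJData.{u, v, x'} C) : Prop :=
  ∀ X, R X → ∀ n : ℕ, 1 ≤ n → AJTrivial H T n (can X ^ n) → AJTrivial H' T' n (can X ^ n)

end Pool.Agent.Y712.AJ
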