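import Pool.Agent.Y712.AJ.Main

/-!
# Abel–Jacobi maps: reduction to cycles of dimension `i` on varieties of dimension `2 i + 2`

Let `z` be a cycle of dimension `i` on `X`. By resolution of singularities `z × point` is, on the
product `W` of `X` and of projective spaces, rationally equivalent to a combination of smooth and
pairwise disjoint subvarieties of dimension `i`; so it comes from a smooth complete intersection `S`
in `W` of any dimension greater than `2 i` (Bertini, Kleiman and Altman). If the dimension of `S` is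
`2 i + 2` then, by the weak Lefschetz theorem, the homology groups in the degrees `2 i` and `2 i + 1` of
`S` and `W` are the same, so that the cycle on `S` is homologically trivial if it is so on `W`, and its
image under the Abel–Jacobi map is zero if it is so on `W`.
-/

open CategoryTheory AlgebraicGeometry Finset

universe u v w w' w'' x x'

namespace Pool.Agent.Y712.AJ

open Pool.Agent.H914 Pool.Agent.H914.VarClass Pool.Agent.H914.VarClass.Obj Pool.Agent.W492.BB
  Pool.Agent.TH133 Pool.Agent.Y101.Aq

variable {k : Type u} [Field k] {𝒱 : VarClass k} {C : TheoryData.{u, v, 0} 𝒱 ℚ}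
  {K : Type w} [Field K]

/-- The weak Lefschetz theorem for `ι : S ⟶ W` and the cycles of dimension `i`, where `S` has dimension
`2 i + 2`: the push-forward is injective on `H^{2(i+2)}(S)` (that is, on the homology of degree `2 i`),
and on the images of the homologically trivial cycles of dimension `i` under the Abel–Jacobi map. -/
structure IsLefschetz (H : WeilTheoryData.{u, v, w} C K) (T : AJData.{u, v, w'} C) (i : ℕ)
    {S W : 𝒱.Obj} (ι : S ⟶ W) : Prop where
  dim_eq : S.dim = 2 * i + 2
  dim_le : S.dim ≤ W.dim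
  inj : ∀ a : H.A S, H.Deg (2 * ((i + 2 : ℕ) : ℤ)) a → H.down ι a = 0 → a = 0
  ajInj : ∀ a : C.A S, HomTrivial H (i + 2) a → T.aj W (W.dim - i) (C.down ι a) = 0 →
    T.aj S (i + 2) a = 0

/-- For each class `z` of a cycle of dimension `i` on `X` there are `s : X ⟶ W` and `q : W ⟶ X` with
`q ∘ s` the identity and `ι : S ⟶ W`, `dim S = 2 i + 2`, with the weak Lefschetz property, such that
`s_* z` is in the image of `ι_*`. -/
def HasSections (H : WeilTheoryData.{u, v, w} C K) (T : AJData.{u, v, w'} C) : Prop :=
  ∀ (X : 𝒱.Obj) (i : ℕ), i ≤ X.dim → ∀ z : C.A X, C.Deg ((X.dim - i : ℕ) : ℤ) z →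
    ∃ (S W : 𝒱.Obj) (s : X ⟶ W) (q : W ⟶ X) (ι : S ⟶ W) (y : C.A S),
      s ≫ q = 𝟙 X ∧ IsLefschetz H T i ι ∧ C.Deg ((i + 2 : ℕ) : ℤ) y ∧ C.down ι y = C.down s z

/-- The Abel–Jacobi maps are injective on the cycles of dimension `i` on all varieties if and only if
they are so on the varieties of dimension `2 i + 2`. -/
def DimensionReduction (H : WeilTheoryData.{u, v, w} C K) (T : AJData.{u, v, w'} C) (i : ℕ) :
    Prop :=
  (∀ X : 𝒱.Obj, i ≤ X.dim → InjectiveIn H T X (X.dim - i)) ↔
    ∀ X : 𝒱.Obj, X.dim = 2 * i + 2 → InjectiveIn H T X (i + 2)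

/-- The Abel–Jacobi maps of all varieties are injective in all codimensions if and only if, for all
`m ≥ 2`, the Abel–Jacobi maps of the varieties of dimension `2 m - 2` are injective in codimension
`m`. -/
def BelowMiddleReduction (H : WeilTheoryData.{u, v, w} C K) (T : AJData.{u, v, w'} C) : Prop :=
  (∀ X : 𝒱.Obj, Injective H T X) ↔
    ∀ m : ℕ, 2 ≤ m → ∀ X : 𝒱.Obj, X.dim = 2 * m - 2 → InjectiveIn H T X m

section

variable {H : WeilTheoryData.{u, v, w} C K} {T : AJData.{u, v, w'} C} [hC : IsChowProj C]

include hC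

theorem dim_reduction [hH : IsWeilProj H] (hT : IsAJ H T) (hS : HasSections H T) (i : ℕ) :
    DimensionReduction H T i := by
  constructor
  · intro h X hX
    have h1 := h X (by omega)
    rwa [show X.dim - i = i + 2 by omega] at h1
  · intro h X hi
    rw [injectiveIn_iff hT.toIsLinearAJ]
    rintro a ⟨⟨ha1, ha2⟩, ha3⟩
    obtain ⟨S, W, s, q, ι, y, hsq, hL, hy, hyz⟩ := hS X i hi a ha1
    have hdim := hL.dim_eq
    have hle := hL.dim_le
    have hcl := hH.isClassMap
    -- the image of `a` on `W`
    obtain ⟨φ, hφ⟩ := hT.push s (X.dim - i) (W.dim - i) (by omega)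
    have e1 : T.aj W (W.dim - i) (C.down s a) = 0 := by
      rw [hφ a ⟨ha1, ha2⟩, ha3, map_zero]
    have e2 : H.cl (C.down s a) = 0 := by
      rw [hcl.cl_push, ha2]
      exact map_zero _
    have e3 : H.cl y = 0 := by
      refine hL.inj _ (hcl.cl_mem hy) ?_
      rw [← hcl.cl_push, hyz, e2]
    have e4 : T.aj S (i + 2) y = 0 := by
      refine hL.ajInj y ⟨hy, e3⟩ ?_
      rw [hyz, e1]
    have e5 : y = 0 := (injectiveIn_iff hT.toIsLinearAJ S (i + 2)).1 (h S hdim) y ⟨⟨hy, e3⟩, e4⟩
    have e6 : C.down s a = 0 := by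
      rw [← hyz, e5]
      exact map_zero _
    have e7 : C.down q (C.down s a) = a := by
      rw [← hC.isTheory.isFunctor.push_comp, hsq, hC.isTheory.isFunctor.push_id]
    rw [← e7, e6]
    exact map_zero _

theorem below_middle [hH : IsWeilProj H] (hT : IsAJ H T) (hS : HasSections H T) :
    BelowMiddleReduction H T := by
  constructor
  · intro h m _ X _
    exact h X m
  · intro h X m
    by_cases hm : m ≤ X.dim
    · have h1 := (dim_reduction hT hS (X.dim - m)).2 (fun Y hY => ?_) X (Nat.sub_le _ _)
      · rwa [show X.dim - (X.dim - m) = m by omega] at h1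
      · exact h (X.dim - m + 2) (by omega) Y (by omega)
    · rw [injectiveIn_iff hT.toIsLinearAJ]
      intro a ha
      exact (isBasic hC).gr_top ha.1.1 (by omega)

end

end Pool.Agent.Y712.AJ
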