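import Mathlib

/-!
# Frobenius on the cohomology of complete varieties in characteristic `p`

`CVar p` are the complete varieties over the finite fields of characteristic `p`. `Data` is the raw
data of a cohomology theory for them with coefficients in a field `E`: cohomology groups with the
Frobenius endomorphism and a pairing. `IsCohomology` collects the standard properties of `ℓ`-adic
cohomology. `Perfect` says that two eigenspaces of Frobenius are in duality, `BadAt` that there is a
Jordan block of length at least two.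
-/

open CategoryTheory AlgebraicGeometry Polynomial

namespace Pool.Agent.Y712.Fs

/-- A complete variety over the finite field with `p ^ r` elements. -/
structure CVar (p : ℕ) [Fact p.Prime] where
  /-- the degree of the ground field over the prime field -/
  r : ℕ
  /-- it is positive -/
  pos : r ≠ 0
  /-- the underlying scheme -/
  X : Scheme.{0}
  /-- the structure morphism -/
  str : X ⟶ Spec (.of (GaloisField p r))
  /-- completeness -/
  proper : IsProper str

variable {p : ℕ} [Fact p.Prime] {E : Type} [Field E]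

/-- The variety as a scheme over the prime field. -/
noncomputable def CVar.abs (X : CVar p) : X.X ⟶ Spec (.of (ZMod p)) :=
  X.str ≫ Spec.map (CommRingCat.ofHom (algebraMap (ZMod p) (GaloisField p X.r)))

/-- `X` is a variety over the prime field, smooth of pure dimension `d`. -/
def CVar.IsSmooth (X : CVar p) (d : ℕ) : Prop :=
  X.r = 1 ∧ SmoothOfRelativeDimension d X.abs

/-- `Z` is the product of `X` and `Y` over the prime field. -/
def CVar.IsProd (X Y Z : CVar p) : Prop :=
  ∃ (f : Z.X ⟶ X.X) (g : Z.X ⟶ Y.X), IsPullback f g X.abs Y.abs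

/-- `Y` is the variety `X`, considered as a variety over the prime field. -/
def CVar.IsAbs (X Y : CVar p) : Prop :=
  Y.r = 1 ∧ ∃ e : Y.X ≅ X.X, e.hom ≫ X.abs = Y.abs

/-- Raw data: cohomology groups with Frobenius and the cup product pairing, and two classes of
smooth varieties. -/
structure Data (p : ℕ) [Fact p.Prime] (E : Type) [Field E] where
  /-- `Sm X d`: `X` is smooth and projective, of pure dimension `d`, over the prime field -/
  Sm : CVar p → ℕ → Prop
  /-- `BlowUp B n`: `B` is the blow-up of the projective space of dimension `n` over the prime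
  field in a smooth centre -/
  BlowUp : CVar p → ℕ → Prop
  /-- the cohomology groups -/
  H : CVar p → ℕ → Type
  /-- they are abelian groups -/
  [grp : ∀ X i, AddCommGroup (H X i)]
  /-- they are vector spaces over `E` -/
  [mod : ∀ X i, Module E (H X i)]
  /-- they have finite dimension -/
  [fin : ∀ X i, FiniteDimensional E (H X i)]
  /-- the Frobenius endomorphism -/
  F : ∀ X i, Module.End E (H X i)
  /-- the cup product pairing -/
  pair : ∀ X i j, H X i →ₗ[E] H X j →ₗ[E] E

attribute [instance] Data.grp Data.mod Data.fin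

section Defs

variable (D : Data p E) {X Y Z : CVar p} {i j k : ℕ}

/-- `F x`, for a class `x`. -/
def Data.act (x : D.H X i) : D.H X i := D.F X i x

/-- `c x`, for a number `c` and a class `x`. -/
def Data.scale (c : E) (x : D.H X i) : D.H X i := c • x

/-- `F x - c x`. -/
def Data.dev (c : E) (x : D.H X i) : D.H X i := D.F X i x - c • x

/-- `F x = c x`. -/
def Data.Eig (c : E) (x : D.H X i) : Prop := D.F X i x = c • x

/-- `x = 0`. -/
def Data.IsZero (x : D.H X i) : Prop := x = 0

/-- the value of the pairing -/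
def Data.val (x : D.H X i) (y : D.H X j) : E := D.pair X i j x y

/-- `f` is a linear map. -/
def Data.Lin (f : D.H X i → D.H Y j) : Prop := IsLinearMap E f

/-- the power `p ^ n` in `E` -/
def ppow (p : ℕ) (E : Type) [Field E] (n : ℕ) : E := (p : E) ^ n

/-- The Frobenius endomorphism of `H^i(X)` is semisimple. -/
def Data.Semisimple (X : CVar p) (i : ℕ) : Prop := (D.F X i).IsSemisimple

/-- The Frobenius on `H^n(X)` has a Jordan block of length at least two for the eigenvalue `c`:
there is a class `y` with `F y ≠ c y` and `(F - c)(F - c) y = 0`. -/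
def BadAt (X : CVar p) (n : ℕ) (c : E) : Prop :=
  ∃ y : D.H X n, ¬ D.Eig c y ∧ D.Eig c (D.dev c y)

/-- The pairing between the eigenspaces of Frobenius on `H^n(B)` for `a` and `b` is left
nondegenerate. -/
def Perfect (B : CVar p) (n : ℕ) (a b : E) : Prop :=
  ∀ x : D.H B n, D.Eig a x → (∀ y : D.H B n, D.Eig b y → D.val x y = 0) → D.IsZero x

/-- the subspaces of `H^i(X)` -/
def Data.Sub (X : CVar p) (i : ℕ) : Type := Submodule E (D.H X i)

/-- the linear correspondences between `H^j(Y)` and `H^i(X)`: subspaces of the product -/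
def Data.Corr (Y : CVar p) (j : ℕ) (X : CVar p) (i : ℕ) : Type :=
  Submodule E (D.H Y j × D.H X i)

variable {D}

/-- the class `x` is in the subspace `W` -/
def Data.Sub.Has (W : D.Sub X i) (x : D.H X i) : Prop :=
  (show Submodule E (D.H X i) from W).carrier x

/-- the correspondence `G` relates `a` to `c` -/
def Data.Corr.Rel (G : D.Corr Y j X i) (a : D.H Y j) (c : D.H X i) : Prop :=
  (show Submodule E (D.H Y j × D.H X i) from G).carrier (a, c)

/-- `V / W` is a subquotient of `H^j(Y)` with its Frobenius; the subquotient is given by a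
correspondence `G`. -/
def Data.Sub.IsSubquotient (V W : D.Sub X i) (Y : CVar p) (j : ℕ) : Prop :=
  ∃ G : D.Corr Y j X i, (∀ a c, G.Rel a c → G.Rel (D.act a) (D.act c)) ∧
    (∀ c, V.Has c → ∃ a, G.Rel a c) ∧ ∀ a c, D.IsZero a → G.Rel a c → W.Has c

variable (D)

/-- `H^i(X)` has a filtration `W` whose `j`-th graded piece `W (j + 1) / W j` is a subquotient of
`H^j(Y)` with its Frobenius, for a smooth projective variety `Y`. -/
def HasWeights (X : CVar p) (i : ℕ) : Prop :=
  ∃ W : ℕ → D.Sub X i, (∀ x, (W 0).Has x → D.IsZero x) ∧ (∀ x, (W (i + 1)).Has x) ∧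
    ∀ j ≤ i, ∃ (Y : CVar p) (d : ℕ), D.Sm Y d ∧ (W (j + 1)).IsSubquotient (W j) Y j

/-- The bilinear map `m` is compatible with Frobenius, and nonzero for nonzero factors. -/
def IsExt (m : D.H X i → D.H Y j → D.H Z k) : Prop :=
  (∀ y, D.Lin fun x => m x y) ∧ (∀ x, D.Lin (m x)) ∧
    (∀ x y, D.act (m x y) = m (D.act x) (D.act y)) ∧
    ∀ x y, D.IsZero (m x y) → D.IsZero x ∨ D.IsZero y

/-- The cohomology of `X` and `Y` has exterior products in the cohomology of `Z`, compatible with
Frobenius, and nonzero for nonzero factors. -/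
def HasExt (X Y Z : CVar p) : Prop :=
  ∀ i j, ∃ m : D.H X i → D.H Y j → D.H Z (i + j), IsExt D m

/-- `H^d(Z)` is contained in `H^n(B)`, with the Frobenius multiplied by `p ^ j`. -/
def Embeds (Z : CVar p) (d : ℕ) (B : CVar p) (n j : ℕ) : Prop :=
  ∃ f : D.H Z d → D.H B n, D.Lin f ∧ Function.Injective f ∧
    ∀ x, D.act (f x) = D.scale (ppow p E j) (f (D.act x))

/-- Products of smooth projective varieties, and the Künneth formula. -/
def HasProducts : Prop :=
  ∀ X Y d e, D.Sm X d → D.Sm Y e → ∃ Z, X.IsProd Y Z ∧ D.Sm Z (d + e) ∧ HasExt D X Y Z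

/-- The blow-ups of the projective spaces of large dimension along `Z`. -/
def HasBlowUps : Prop :=
  ∀ Z d, D.Sm Z d → ∃ j₀, ∀ j ≥ j₀, ∃ B, D.BlowUp B (d + 2 * j) ∧
    Embeds D Z d B (d + 2 * j) j

/-- `H^i(X)` is contained in `H^i(Y)`, the `r`-th power of Frobenius inducing Frobenius. -/
def Restricts (X Y : CVar p) (i : ℕ) : Prop :=
  ∃ f : D.H X i → D.H Y i, D.Lin f ∧ Function.Injective f ∧
    ∀ x, D.act^[X.r] (f x) = f (D.act x)

/-- Frobenius is semisimple on `H^i(X)` for all complete varieties `X` and all `i`. -/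
def AllSemisimple : Prop := ∀ (X : CVar p) (i : ℕ), D.Semisimple X i

/-- For `m` in `M` and the blow-ups `B` of dimension `2 m`, the eigenvalue `p ^ m` is semisimple on
the middle cohomology. -/
def EvenNoJordan (M : Set ℕ) : Prop :=
  ∀ m ∈ M, ∀ B, D.BlowUp B (2 * m) → ¬ BadAt D B (2 * m) (ppow p E m)

/-- For `m` in `M` and the blow-ups `B` of dimension `2 m`, the intersection form is nondegenerate on
the eigenspace for `p ^ m` in the middle cohomology. -/
def EvenPerfect (M : Set ℕ) : Prop :=
  ∀ m ∈ M, ∀ B, D.BlowUp B (2 * m) → Perfect D B (2 * m) (ppow p E m) (ppow p E m)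

/-- For `m` in `M` and the blow-ups `B` of dimension `2 m + 1`, the eigenvalue `p ^ m α` is
semisimple on the middle cohomology. -/
def OddNoJordan (M : Set ℕ) (α : E) : Prop :=
  ∀ m ∈ M, ∀ B, D.BlowUp B (2 * m + 1) → ¬ BadAt D B (2 * m + 1) (ppow p E m * α)

/-- For `m` in `M` and the blow-ups `B` of dimension `2 m + 1`, the eigenspaces for `p ^ m α` and
`p ^ (m + 1) / α` in the middle cohomology are in duality. -/
def OddPerfect (M : Set ℕ) (α : E) : Prop :=
  ∀ m ∈ M, ∀ B, D.BlowUp B (2 * m + 1) →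
    Perfect D B (2 * m + 1) (ppow p E m * α) (ppow p E (m + 1) / α)

/-- Poincaré duality in degrees `i` and `j`, for the variety `X` of dimension `d`. -/
def Duality (X : CVar p) (d i j : ℕ) : Prop :=
  (∀ (x : D.H X i) (y : D.H X j), D.val (D.act x) (D.act y) = ppow p E d * D.val x y) ∧
    ∀ x : D.H X i, (∀ y : D.H X j, D.val x y = 0) → D.IsZero x

/-- The eigenvalues of Frobenius on `H^i(X)` have absolute value `p ^ (i / 2)`. -/
def Pure (ι : E →+* ℂ) (X : CVar p) (i : ℕ) : Prop :=
  ∀ (a : E) (x : D.H X i), ¬ D.IsZero x → D.Eig a x → ‖ι a‖ ^ 2 = (p : ℝ) ^ i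

end Defs

/-- The standard properties of `ℓ`-adic cohomology of complete varieties. -/
structure IsCohomology (ι : E →+* ℂ) (D : Data p E) : Prop where
  /-- the varieties in `Sm` are smooth over the prime field -/
  smooth : ∀ X d, D.Sm X d → X.IsSmooth d
  /-- Deligne's theorem -/
  pure : ∀ X d i, D.Sm X d → Pure D ι X i
  /-- vanishing above twice the dimension -/
  vanish : ∀ X d i, D.Sm X d → 2 * d < i → ∀ x : D.H X i, D.IsZero x
  /-- Poincaré duality -/
  duality : ∀ X d i j, D.Sm X d → i + j = 2 * d → Duality D X d i j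
  /-- products and the Künneth formula -/
  prod : HasProducts D
  /-- a blow-up of a projective space is smooth and projective -/
  sm_blowUp : ∀ B n, D.BlowUp B n → D.Sm B n
  /-- blow-ups of projective spaces of large dimension along `Z` -/
  blowUp : HasBlowUps D
  /-- a variety over a finite field as a variety over the prime field -/
  restrict : ∀ X i, ∃ Y, X.IsAbs Y ∧ Restricts D X Y i
  /-- weight filtration -/
  weight : ∀ X i, X.r = 1 → HasWeights D X i

/-! ### Linear algebra -/

section LinearAlgebra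

omit [Fact p.Prime]

variable {U : Type} [AddCommGroup U] [Module E U] [FiniteDimensional E U]

/-- No Jordan blocks of length two. -/
def NoJordan (T : Module.End E U) : Prop :=
  ∀ (a : E) (y : U), T (T y - a • y) = a • (T y - a • y) → T y = a • y

theorem isSemisimple_of_noJordan [IsAlgClosed E] {T : Module.End E U} (h : NoJordan T) :
    T.IsSemisimple := by
  refine Module.End.isSemisimple_of_squarefree_aeval_eq_zero (p := minpoly E T) ?_
    (minpoly.aeval E T)
  have hm : (minpoly E T).Monic := minpoly.monic (Algebra.IsIntegral.isIntegral T)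
  rw [squarefree_iff_irreducible_sq_not_dvd_of_ne_zero hm.ne_zero]
  intro q hq hdvd
  have hdeg : q.degree = 1 := IsAlgClosed.degree_eq_one_of_irreducible E hq
  obtain ⟨a, ha⟩ := Polynomial.exists_root_of_degree_eq_one hdeg
  have hqa : (X - C a) ∣ q := Polynomial.dvd_iff_isRoot.mpr ha
  obtain ⟨g, hg⟩ := (mul_dvd_mul hqa hqa).trans hdvd
  have hzero : aeval T ((X - C a) * g) = 0 := by
    ext v
    have h1 : (aeval T (minpoly E T)) v = 0 := by rw [minpoly.aeval]; rfl
    rw [hg] at h1
    have h2 := h a (aeval T g v) ?_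
    · simp only [map_mul, map_sub, aeval_X, aeval_C, Module.End.mul_apply, LinearMap.sub_apply,
        Module.algebraMap_end_apply, LinearMap.zero_apply]
      rw [h2, sub_self]
    · simp only [map_mul, map_sub, aeval_X, aeval_C, Module.End.mul_apply, LinearMap.sub_apply,
        Module.algebraMap_end_apply] at h1
      simp only [map_sub, map_smul] at h1 ⊢
      rw [sub_eq_zero] at h1
      rw [h1, smul_sub]
  have hg0 : g ≠ 0 := by
    rintro rfl
    rw [mul_zero] at hg
    exact hm.ne_zero hg
  have hle := minpoly.min E T (p := (X - C a) * g)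
  have hdv := minpoly.dvd E T hzero
  have hne : (X - C a) * g ≠ 0 := mul_ne_zero (Polynomial.X_sub_C_ne_zero a) hg0
  have h3 := Polynomial.natDegree_le_of_dvd hdv hne
  rw [hg, Polynomial.natDegree_mul (mul_ne_zero (Polynomial.X_sub_C_ne_zero a)
    (Polynomial.X_sub_C_ne_zero a)) hg0, Polynomial.natDegree_mul (Polynomial.X_sub_C_ne_zero a)
    (Polynomial.X_sub_C_ne_zero a), Polynomial.natDegree_mul (Polynomial.X_sub_C_ne_zero a) hg0,
    Polynomial.natDegree_X_sub_C] at h3
  omega

theorem eq_zero_of_eigen [IsAlgClosed E] {T : Module.End E U} (h : T.IsSemisimple)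
    (f : U →ₗ[E] E) (hf : ∀ (b : E) (y : U), T y = b • y → f y = 0) : f = 0 := by
  have h1 : ⨆ b, T.eigenspace b = ⊤ := by
    have h2 := Module.End.iSup_maxGenEigenspace_eq_top T
    rw [← h2]
    refine iSup_congr fun b => ?_
    exact (Module.End.IsFinitelySemisimple.maxGenEigenspace_eq_eigenspace
      h.isFinitelySemisimple b).symm
  have h3 : (⊤ : Submodule E U) ≤ LinearMap.ker f := by
    rw [← h1]
    refine iSup_le fun b y hy => ?_
    rw [Module.End.mem_eigenspace_iff] at hy
    exact hf b y hy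
  exact LinearMap.ker_eq_top.mp (top_le_iff.mp h3)

end LinearAlgebra

variable {ι : E →+* ℂ} {D : Data p E}

theorem badAt_iff {X : CVar p} {n : ℕ} {c : E} : BadAt D X n c ↔
    ∃ y : D.H X n, D.F X n y - c • y ≠ 0 ∧
      D.F X n (D.F X n y - c • y) = c • (D.F X n y - c • y) := by
  unfold BadAt Data.Eig Data.dev
  simp only [ne_eq, sub_eq_zero]

theorem noJordan_iff {X : CVar p} {n : ℕ} : NoJordan (D.F X n) ↔ ∀ c, ¬ BadAt D X n c := by
  simp only [badAt_iff]
  constructor
  · rintro hn c ⟨y, h1, h2⟩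
    exact h1 (sub_eq_zero.mpr (hn c y h2))
  · intro hn c y hy
    by_contra hne
    exact hn c ⟨y, sub_ne_zero.mpr hne, hy⟩

theorem prime : p.Prime := Fact.out

theorem p_ne_zero [CharZero E] : (p : E) ≠ 0 := by
  exact_mod_cast (prime (p := p)).ne_zero

namespace IsCohomology

variable (h : IsCohomology ι D)
include h

theorem weight_eq {X : CVar p} {d : ℕ} (hX : D.Sm X d) {i : ℕ} {a : E}
    (ha : (D.F X i).HasEigenvalue a) : ‖ι a‖ ^ 2 = (p : ℝ) ^ i := by
  obtain ⟨x, hx⟩ := ha.exists_hasEigenvector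
  exact h.pure X d i hX a x hx.2 (Module.End.mem_eigenspace_iff.mp hx.1)

theorem ne_zero {X : CVar p} {d : ℕ} (hX : D.Sm X d) {i : ℕ} {a : E}
    (ha : (D.F X i).HasEigenvalue a) : a ≠ 0 := by
  rintro rfl
  have h1 := h.weight_eq hX ha
  rw [map_zero, norm_zero, zero_pow two_ne_zero] at h1
  have h2 : (0 : ℝ) < (p : ℝ) ^ i := pow_pos (by exact_mod_cast (prime (p := p)).pos) i
  exact absurd h1 h2.ne

/-- If `a` is an eigenvalue in degree `i`, then `p ^ d / a` is one in degree `2 d - i`. -/
theorem exists_dual {X : CVar p} {d : ℕ} (hX : D.Sm X d) {i j : ℕ}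
    (hij : i + j = 2 * d) {a : E} {x : D.H X i} (hx : D.F X i x = a • x) (hx0 : x ≠ 0) :
    ∃ z : D.H X j, z ≠ 0 ∧ D.F X j z = ((p : E) ^ d / a) • z := by
  have hev : (D.F X i).HasEigenvalue a :=
    Module.End.hasEigenvalue_of_hasEigenvector ⟨Module.End.mem_eigenspace_iff.mpr hx, hx0⟩
  have ha := h.ne_zero hX hev
  by_contra hcon
  push Not at hcon
  set b : E := (p : E) ^ d / a with hb
  have hinj : Function.Injective (D.F X j - b • (1 : Module.End E (D.H X j))) := by
    rw [injective_iff_map_eq_zero]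
    intro z hz
    by_contra hz0
    refine hcon z hz0 ?_
    rw [LinearMap.sub_apply, LinearMap.smul_apply, Module.End.one_apply, sub_eq_zero] at hz
    exact hz
  have hsurj := LinearMap.surjective_of_injective hinj
  obtain ⟨hF, hnd⟩ := h.duality X d i j hX hij
  unfold Data.val Data.act ppow at hF
  refine hx0 (hnd x fun y => ?_)
  unfold Data.val
  obtain ⟨w, rfl⟩ := hsurj y
  have h1 := hF x w
  rw [hx, map_smul, LinearMap.smul_apply, smul_eq_mul] at h1
  rw [LinearMap.sub_apply, LinearMap.smul_apply, Module.End.one_apply, map_sub, map_smul,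
    smul_eq_mul, sub_eq_zero, hb]
  field_simp
  rw [mul_comm, h1]

/-- If the eigenspaces for `a` and `b` are in duality, `F` is semisimple at `a`. -/
theorem not_bad_of_perfect [CharZero E] {B : CVar p} {n : ℕ} (hB : D.Sm B n) {a b : E}
    (hab : a * b = (p : E) ^ n) (hd : Perfect D B n a b) : ¬ BadAt D B n a := by
  rw [badAt_iff]
  rintro ⟨y, hy0, hy⟩
  refine hy0 (hd _ hy fun z hz => ?_)
  have h1 := (h.duality B n n n hB (by ring)).1 y z
  unfold Data.Eig at hz
  unfold Data.val Data.act ppow at h1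
  unfold Data.val
  have hb : b ≠ 0 := by
    rintro rfl
    rw [mul_zero] at hab
    exact pow_ne_zero _ p_ne_zero hab.symm
  rw [hz, map_smul, smul_eq_mul, ← hab, mul_comm a b, mul_assoc] at h1
  have h2 := mul_left_cancel₀ hb h1
  rw [map_sub, map_smul, LinearMap.sub_apply, LinearMap.smul_apply, smul_eq_mul, h2, sub_self]

/-- Conversely, duality holds if `F` is semisimple. -/
theorem perfect_of_isSemisimple [IsAlgClosed E] [CharZero E] {B : CVar p} {n : ℕ}
    (hB : D.Sm B n) {a b : E} (hab : a * b = (p : E) ^ n)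
    (hs : (D.F B n).IsSemisimple) : Perfect D B n a b := by
  intro x hx hxy
  obtain ⟨hF, hnd⟩ := h.duality B n n n hB (by ring)
  unfold Data.Eig at hx hxy
  unfold Data.val Data.act ppow at hF
  refine hnd x fun y => ?_
  unfold Data.val at hxy ⊢
  have h0 : D.pair B n n x = 0 := by
    refine eq_zero_of_eigen hs _ fun c z hz => ?_
    by_cases hc : c = b
    · exact hxy z (hc ▸ hz)
    · have h1 := hF x z
      rw [hx, hz, map_smul, map_smul, LinearMap.smul_apply, smul_eq_mul, smul_eq_mul, ← hab,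
        ← mul_assoc] at h1
      have ha : a ≠ 0 := by
        rintro rfl
        rw [zero_mul] at hab
        exact pow_ne_zero _ p_ne_zero hab.symm
      by_contra hne
      have h2 := mul_right_cancel₀ hne h1
      rw [mul_comm a b] at h2
      exact hc (mul_right_cancel₀ ha h2)
  rw [h0]
  rfl

omit h in
theorem bad_ext {X Y Z : CVar p} {i j : ℕ} {a b : E} (hm : HasExt D X Y Z)
    (hb : b ≠ 0) (hbad : BadAt D X i a) {z : D.H Y j} (hz : z ≠ 0) (hFz : D.F Y j z = b • z) :
    BadAt D Z (i + j) (a * b) := by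
  obtain ⟨m, hm1, hm2, hmF, hm0⟩ := hm i j
  rw [badAt_iff] at hbad ⊢
  obtain ⟨y, h1, h2⟩ := hbad
  unfold Data.act at hmF
  refine ⟨m y z, ?_⟩
  have h3 : D.F _ _ (m y z) - (a * b) • m y z = b • m (D.F X i y - a • y) z := by
    have e1 := (hm1 z).map_sub (D.F X i y) (a • y)
    have e2 := (hm1 z).map_smul a y
    have e3 := (hm2 (D.F X i y)).map_smul b z
    rw [hmF, hFz, e1, e2, e3, smul_sub, smul_smul, mul_comm b a]
  rw [h3]
  refine ⟨smul_ne_zero hb fun h0 => ?_, ?_⟩
  · rcases hm0 _ _ h0 with h4 | h4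
    · exact h1 h4
    · exact hz h4
  · have e2 := (hm1 z).map_smul a (D.F X i y - a • y)
    have e3 := (hm2 (a • (D.F X i y - a • y))).map_smul b z
    rw [map_smul, hmF, hFz, h2, e3, e2, smul_smul, smul_smul, smul_smul]
    congr 1
    ring

omit h in
theorem bad_embeds [CharZero E] {Z B : CVar p} {d n j : ℕ} {c : E} (he : Embeds D Z d B n j)
    (hbad : BadAt D Z d c) : BadAt D B n ((p : E) ^ j * c) := by
  rw [badAt_iff] at hbad ⊢
  obtain ⟨y, h1, h2⟩ := hbad
  obtain ⟨f, hl, hf, hF⟩ := he
  unfold Data.act Data.scale ppow at hF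
  refine ⟨f y, ?_⟩
  have hpj : (p : E) ^ j ≠ 0 := pow_ne_zero _ p_ne_zero
  have h3 : D.F B _ (f y) - ((p : E) ^ j * c) • f y = (p : E) ^ j • f (D.F Z _ y - c • y) := by
    rw [hF, hl.map_sub, hl.map_smul, smul_sub, smul_smul]
  rw [h3]
  refine ⟨smul_ne_zero hpj fun h0 => h1 (hf (by rw [h0, hl.map_zero])), ?_⟩
  rw [map_smul, hF, h2, hl.map_smul, smul_smul, smul_smul, smul_smul]
  congr 1
  ring

/-- A Jordan block gives one for the eigenvalue `p ^ d` in the middle degree of `X × X`. -/
theorem bad_square {X : CVar p} {d : ℕ} (hX : D.Sm X d) {i : ℕ} {a : E}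
    (hbad : BadAt D X i a) : ∃ Z, D.Sm Z (d + d) ∧ BadAt D Z (d + d) ((p : E) ^ d) := by
  rw [badAt_iff] at hbad
  obtain ⟨y, h1, h2⟩ := hbad
  by_cases hi : 2 * d < i
  · exact absurd (h.vanish X d i hX hi _) h1
  · obtain ⟨j, hj⟩ := Nat.exists_eq_add_of_le (Nat.le_of_not_lt hi)
    have hev : (D.F X i).HasEigenvalue a :=
      Module.End.hasEigenvalue_of_hasEigenvector ⟨Module.End.mem_eigenspace_iff.mpr h2, h1⟩
    have ha := h.ne_zero hX hev
    obtain ⟨z, hz, hFz⟩ := h.exists_dual hX hj.symm h2 h1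
    have hev' : (D.F X j).HasEigenvalue ((p : E) ^ d / a) :=
      Module.End.hasEigenvalue_of_hasEigenvector ⟨Module.End.mem_eigenspace_iff.mpr hFz, hz⟩
    have hb := h.ne_zero hX hev'
    obtain ⟨Z, -, hZ, hext⟩ := h.prod X X d d hX hX
    have h3 := bad_ext hext hb (badAt_iff.mpr ⟨y, h1, h2⟩) hz hFz
    rw [mul_div_cancel₀ _ ha, ← hj, two_mul] at h3
    exact ⟨Z, hZ, h3⟩

/-- Reduction to even dimension. -/
theorem noJordan_of_even [CharZero E] {M : Set ℕ} (hM : M.Infinite)
    (hd : ∀ m ∈ M, ∀ B, D.BlowUp B (2 * m) → ¬ BadAt D B (2 * m) ((p : E) ^ m))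
    {X : CVar p} {d : ℕ} (hX : D.Sm X d) (i : ℕ) : NoJordan (D.F X i) := by
  rw [noJordan_iff]
  intro a hbad
  obtain ⟨Z, hZ, h1⟩ := h.bad_square hX hbad
  obtain ⟨j₀, hj⟩ := h.blowUp Z _ hZ
  obtain ⟨m, hm, hlt⟩ := hM.exists_gt (d + j₀)
  obtain ⟨B, hB, he⟩ := hj (m - d) (by omega)
  have h2 := bad_embeds he h1
  have e1 : d + d + 2 * (m - d) = 2 * m := by omega
  have e2 : (p : E) ^ (m - d) * (p : E) ^ d = (p : E) ^ m := by
    rw [← pow_add]
    congr 1
    omega
  rw [e1, e2] at h2
  rw [e1] at hB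
  exact hd m hm B hB h2

/-- Reduction to odd dimension. -/
theorem noJordan_of_odd [CharZero E] {M : Set ℕ} (hM : M.Infinite)
    {C : CVar p} (hC : D.Sm C 1) {α : E} (hα : (D.F C 1).HasEigenvalue α)
    (hd : ∀ m ∈ M, ∀ B, D.BlowUp B (2 * m + 1) → ¬ BadAt D B (2 * m + 1) ((p : E) ^ m * α))
    {X : CVar p} {d : ℕ} (hX : D.Sm X d) (i : ℕ) : NoJordan (D.F X i) := by
  rw [noJordan_iff]
  intro a hbad
  obtain ⟨Z, hZ, h1⟩ := h.bad_square hX hbad
  obtain ⟨e, he⟩ := hα.exists_hasEigenvector
  obtain ⟨Z', -, hZ', hext⟩ := h.prod Z C _ 1 hZ hC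
  have h2 := bad_ext hext (h.ne_zero hC hα) h1 he.2 (Module.End.mem_eigenspace_iff.mp he.1)
  obtain ⟨j₀, hj⟩ := h.blowUp Z' _ hZ'
  obtain ⟨m, hm, hlt⟩ := hM.exists_gt (d + j₀)
  obtain ⟨B, hB, he'⟩ := hj (m - d) (by omega)
  have h3 := bad_embeds he' h2
  have e1 : d + d + 1 + 2 * (m - d) = 2 * m + 1 := by omega
  have e2 : (p : E) ^ (m - d) * ((p : E) ^ d * α) = (p : E) ^ m * α := by
    rw [← mul_assoc, ← pow_add]
    congr 2
    omega
  rw [e1, e2] at h3
  rw [e1] at hB
  exact hd m hm B hB h3

end IsCohomology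

/-! ### Complete varieties -/

theorem pow_mem {X Y : CVar p} {i j : ℕ} {G : Submodule E (D.H Y j × D.H X i)}
    (hG : ∀ a c, (a, c) ∈ G → (D.F Y j a, D.F X i c) ∈ G) (n : ℕ) (a : D.H Y j) (c : D.H X i)
    (hac : (a, c) ∈ G) : ((D.F Y j ^ n) a, (D.F X i ^ n) c) ∈ G := by
  induction n with
  | zero => simpa using hac
  | succ n ih =>
    rw [pow_succ', pow_succ', Module.End.mul_apply, Module.End.mul_apply]
    exact hG _ _ ih

theorem aeval_mem {X Y : CVar p} {i j : ℕ} {G : Submodule E (D.H Y j × D.H X i)}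
    (hG : ∀ a c, (a, c) ∈ G → (D.F Y j a, D.F X i c) ∈ G) (P : E[X]) (a : D.H Y j) (c : D.H X i)
    (hac : (a, c) ∈ G) : (aeval (D.F Y j) P a, aeval (D.F X i) P c) ∈ G := by
  induction P using Polynomial.induction_on' with
  | add P Q hP hQ =>
    rw [map_add, map_add, LinearMap.add_apply, LinearMap.add_apply]
    exact G.add_mem hP hQ
  | monomial n b =>
    rw [aeval_monomial, aeval_monomial, Module.End.mul_apply, Module.End.mul_apply,
      Module.algebraMap_end_apply, Module.algebraMap_end_apply]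
    exact G.smul_mem b (pow_mem hG n a c hac)

theorem subquotient_killed {X Y : CVar p} {i j : ℕ} {V W : D.Sub X i}
    (hVW : V.IsSubquotient W Y j) (c : D.H X i) (hc : V.Has c) :
    W.Has (aeval (D.F X i) (minpoly E (D.F Y j)) c) := by
  obtain ⟨G, hG, hG1, hG2⟩ := hVW
  obtain ⟨a, ha⟩ := hG1 c hc
  have h1 := aeval_mem (D := D) (G := (show Submodule E (D.H Y j × D.H X i) from G)) hG
    (minpoly E (D.F Y j)) a c ha
  rw [minpoly.aeval, LinearMap.zero_apply] at h1
  exact hG2 0 _ rfl h1

namespace IsCohomology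

variable (h : IsCohomology ι D)
include h

theorem complete_isSemisimple [IsAlgClosed E]
    (hs : ∀ X d, D.Sm X d → ∀ i, (D.F X i).IsSemisimple) {X : CVar p} (hX : X.r = 1) (i : ℕ) :
    (D.F X i).IsSemisimple := by
  classical
  obtain ⟨W, hW0, hW1, hW⟩ := h.weight X i hX
  have hex : ∀ j, ∃ P : E[X], j ≤ i → Squarefree P ∧
      (∀ a, P.IsRoot a → ‖ι a‖ ^ 2 = (p : ℝ) ^ j) ∧
      ∀ c, (W (j + 1)).Has c → (W j).Has (aeval (D.F X i) P c) := by
    intro j
    by_cases hj : j ≤ i
    · obtain ⟨Y, d, hY, hsub⟩ := hW j hj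
      exact ⟨minpoly E (D.F Y j), fun _ => ⟨(hs Y d hY j).minpoly_squarefree, fun a ha =>
        h.weight_eq hY (Module.End.hasEigenvalue_of_isRoot ha), fun c hc =>
          subquotient_killed hsub c hc⟩⟩
    · exact ⟨0, fun hj' => absurd hj' hj⟩
  choose P hP using hex
  have hkill : ∀ k ≤ i + 1, ∀ c, (W k).Has c →
      aeval (D.F X i) (∏ j ∈ Finset.range k, P j) c = 0 := by
    intro k
    induction k with
    | zero =>
      intro _ c hc
      rw [show c = 0 from hW0 c hc, map_zero]
    | succ k ih =>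
      intro hk c hc
      rw [Finset.prod_range_succ, map_mul, Module.End.mul_apply]
      exact ih (by omega) _ ((hP k (by omega)).2.2 c hc)
  refine Module.End.isSemisimple_of_squarefree_aeval_eq_zero
    (p := ∏ j ∈ Finset.range (i + 1), P j) ?_ ?_
  · refine Finset.squarefree_prod_of_pairwise_isCoprime ?_ ?_
    · intro j hj k hk hjk
      rw [Finset.coe_range, Set.mem_Iio] at hj hk
      refine IsCoprime.isRelPrime ?_
      rw [Polynomial.isCoprime_iff_aeval_ne_zero_of_isAlgClosed E E]
      intro a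
      by_contra hcon
      push Not at hcon
      obtain ⟨h1, h2⟩ := hcon
      have w1 := (hP j (by omega)).2.1 a (by simpa using h1)
      have w2 := (hP k (by omega)).2.1 a (by simpa using h2)
      rw [w1] at w2
      have hp1 : (1 : ℝ) < p := by exact_mod_cast (prime (p := p)).one_lt
      exact hjk (pow_right_injective₀ (by positivity) hp1.ne' w2)
    · intro j hj
      rw [Finset.mem_range] at hj
      exact (hP j (by omega)).1
  · ext c
    exact hkill (i + 1) le_rfl c (hW1 c)

/-- A variety over a finite field as a variety over the prime field. -/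
theorem isSemisimple_of_restrict [PerfectField E]
    (hs : ∀ X : CVar p, X.r = 1 → ∀ i, (D.F X i).IsSemisimple) (X : CVar p) (i : ℕ) :
    (D.F X i).IsSemisimple := by
  obtain ⟨Y, ⟨hY, -⟩, f, hl, hf, hF⟩ := h.restrict X i
  have hF' : ∀ x, (D.F Y i ^ X.r) (f x) = f (D.F X i x) := by
    intro x
    rw [Module.End.pow_apply]
    exact hF x
  have h1 : (D.F Y i ^ X.r).IsSemisimple := (hs Y hY i).pow _
  refine Module.End.isSemisimple_of_squarefree_aeval_eq_zero h1.minpoly_squarefree ?_
  ext x
  apply hf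
  have key : ∀ Q : E[X], f (aeval (D.F X i) Q x) = aeval (D.F Y i ^ X.r) Q (f x) := by
    intro Q
    induction Q using Polynomial.induction_on' with
    | add P Q hP hQ =>
      rw [map_add, map_add, LinearMap.add_apply, LinearMap.add_apply, hl.map_add, hP, hQ]
    | monomial n b =>
      rw [aeval_monomial, aeval_monomial, Module.End.mul_apply, Module.End.mul_apply,
        Module.algebraMap_end_apply, Module.algebraMap_end_apply, hl.map_smul]
      congr 1
      induction n with
      | zero => simp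
      | succ n ih =>
        rw [pow_succ', pow_succ', Module.End.mul_apply, Module.End.mul_apply, ← ih, hF']
  rw [key, minpoly.aeval, LinearMap.zero_apply, LinearMap.zero_apply, hl.map_zero]

/-- The theorem. -/
theorem main [CharZero E] [IsAlgClosed E] {M : Set ℕ} (hM : M.Infinite)
    {C : CVar p} (hC : D.Sm C 1) {α : E} {x : D.H C 1} (hx : ¬ D.IsZero x) (hα : D.Eig α x) :
    [AllSemisimple D,
      EvenNoJordan D M,
      EvenPerfect D M,
      OddNoJordan D M α,
      OddPerfect D M α].TFAE := by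
  have hα : (D.F C 1).HasEigenvalue α :=
    Module.End.hasEigenvalue_of_hasEigenvector ⟨Module.End.mem_eigenspace_iff.mpr hα, hx⟩
  have hα0 := h.ne_zero hC hα
  have hfin : (∀ X d, D.Sm X d → ∀ i, NoJordan (D.F X i)) → ∀ X i, (D.F X i).IsSemisimple :=
    fun hs => h.isSemisimple_of_restrict fun X hX i => h.complete_isSemisimple
      (fun X d hX i => isSemisimple_of_noJordan (hs X d hX i)) hX i
  have e1 : ∀ m : ℕ, (p : E) ^ m * (p : E) ^ m = (p : E) ^ (2 * m) := by
    intro m
    rw [← pow_add, two_mul]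
  have e2 : ∀ m : ℕ, ((p : E) ^ m * α) * ((p : E) ^ (m + 1) / α) = (p : E) ^ (2 * m + 1) := by
    intro m
    field_simp
    ring
  tfae_have 1 → 3 := fun hs m _ B hB =>
    h.perfect_of_isSemisimple (h.sm_blowUp B _ hB) (e1 m) (hs _ _)
  tfae_have 3 → 2 := fun h3 m hm B hB =>
    h.not_bad_of_perfect (h.sm_blowUp B _ hB) (e1 m) (h3 m hm B hB)
  tfae_have 2 → 1 := fun h2 => hfin fun X d hX i => h.noJordan_of_even hM h2 hX i
  tfae_have 1 → 5 := fun hs m _ B hB =>
    h.perfect_of_isSemisimple (h.sm_blowUp B _ hB) (e2 m) (hs _ _)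
  tfae_have 5 → 4 := fun h5 m hm B hB =>
    h.not_bad_of_perfect (h.sm_blowUp B _ hB) (e2 m) (h5 m hm B hB)
  tfae_have 4 → 1 := fun h4 => hfin fun X d hX i => h.noJordan_of_odd hM hC hα h4 hX i
  tfae_finish

end IsCohomology

end Pool.Agent.Y712.Fs
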