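import Mathlib

/-!
# A numerical lemma: all degrees and the middle degree of blow-ups
-/

set_option autoImplicit false

open Finset

namespace Pool.Agent.Y712.LI

variable {Obj V : Type*} [AddCommGroup V] [Module ℚ V]

/-- The numerical consequences of the blow-up formula, the weak and the hard Lefschetz theorem. -/
structure NumCoh (dim : Obj → ℕ) (R : Obj → Prop) (W : Submodule ℚ V) (S : Obj → ℤ → V) (q : ℚ) :
    Prop where
  ne : q ≠ 0
  neg : ∀ X i, i < 0 → S X i = 0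
  hard : ∀ X (t : ℕ), S X (dim X + t) = q ^ t • S X (dim X - t)
  sec : ∀ X (m : ℕ), 1 ≤ m → m ≤ dim X → ∃ Y, dim Y = m ∧ ∀ i : ℤ, i < m → S Y i = S X i
  blow : ∀ X (N : ℕ), 2 * dim X + 1 ≤ N → ∃ B, R B ∧ dim B = N ∧ ∃ τ ∈ W,
    S B N = τ + ∑ t ∈ range (N - dim X - 1), q ^ (t + 1) • S X (N - 2 * (t + 1))

variable {dim : Obj → ℕ} {R : Obj → Prop} {W : Submodule ℚ V} {S : Obj → ℤ → V} {q : ℚ}

lemma mem_of_smul {c : ℚ} (hc : c ≠ 0) {v : V} (h : c • v ∈ W) : v ∈ W := by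
  have h1 := W.smul_mem c⁻¹ h
  rwa [smul_smul, inv_mul_cancel₀ hc, one_smul] at h1

lemma mem_of_sum {s : Finset ℕ} {f : ℕ → V} (h : ∑ t ∈ s, f t ∈ W) {u : Finset ℕ} (hu : u ⊆ s)
    (hf : ∀ t ∈ s, t ∉ u → f t ∈ W) : ∑ t ∈ u, f t ∈ W := by
  have h1 := Finset.sum_sdiff hu (f := f)
  have h2 : ∑ t ∈ s \ u, f t ∈ W := by
    refine Submodule.sum_mem _ fun t ht => ?_
    rw [mem_sdiff] at ht
    exact hf t ht.1 ht.2
  have h3 : ∑ t ∈ u, f t = ∑ t ∈ s, f t - ∑ t ∈ s \ u, f t := by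
    rw [← h1]; abel
  rw [h3]
  exact W.sub_mem h h2

namespace NumCoh

variable (hC : NumCoh dim R W S q) {e : ℤ}
  (h : ∀ B, R B → (dim B : ℤ) % 2 = e → S B (dim B) ∈ W)

include hC h

lemma step1 (Y : Obj) (N : ℕ) (hN : 2 * dim Y + 1 ≤ N) (hNe : (N : ℤ) % 2 = e) :
    ∑ t ∈ range (N - dim Y - 1), q ^ (t + 1) • S Y (N - 2 * (t + 1)) ∈ W := by
  obtain ⟨B, hRB, hB, τ, hτ, hs⟩ := hC.blow Y N hN
  have h1 := h B hRB (by rw [hB]; exact hNe)
  rw [hB, hs] at h1
  have h2 := W.sub_mem h1 hτ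
  rwa [add_sub_cancel_left] at h2

lemma step2 (i : ℕ) : ∀ X, (i : ℤ) % 2 = e → i < dim X → S X i ∈ W := by
  induction i using Nat.strong_induction_on with
  | _ i ih =>
    intro X hi hX
    obtain ⟨Y, hY, hYX⟩ := hC.sec X (i + 1) (by omega) hX
    rw [← hYX i (by push_cast; omega)]
    -- degrees below `i`
    have hlow : ∀ j : ℤ, j % 2 = e → j < i → S Y j ∈ W := by
      intro j hj hji
      rcases lt_or_ge j 0 with h0 | h0
      · rw [hC.neg Y j h0]; exact W.zero_mem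
      · obtain ⟨j', rfl⟩ : ∃ j' : ℕ, (j' : ℤ) = j := ⟨j.toNat, by omega⟩
        exact ih j' (by omega) Y hj (by omega)
    have hhigh : ∀ j : ℤ, j % 2 = e → (i : ℤ) + 2 < j → S Y j ∈ W := by
      intro j hj hji
      obtain ⟨t, ht⟩ : ∃ t : ℕ, (t : ℤ) = j - (dim Y : ℤ) := ⟨(j - (dim Y : ℤ)).toNat, by omega⟩
      have h1 : j = (dim Y : ℤ) + t := by omega
      rw [h1, hC.hard Y t]
      exact W.smul_mem _ (hlow _ (by omega) (by omega))
    have h1 := step1 hC h Y (3 * i + 4) (by omega) (by push_cast; omega)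
    have e1 : 3 * i + 4 - dim Y - 1 = 2 * i + 2 := by omega
    rw [e1] at h1
    have h2 := mem_of_sum h1 (u := {i, i + 1}) (by
      intro t ht
      rw [mem_insert, mem_singleton] at ht
      rw [mem_range]
      omega) (by
      intro t ht ht'
      rw [mem_range] at ht
      rw [mem_insert, mem_singleton, not_or] at ht'
      refine W.smul_mem _ ?_
      rcases Nat.lt_or_ge t i with h3 | h3
      · exact hhigh _ (by push_cast; omega) (by push_cast; omega)
      · exact hlow _ (by push_cast; omega) (by push_cast; omega))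
    rw [sum_pair (by omega)] at h2
    have e2 : (((3 * i + 4 : ℕ) : ℤ) - 2 * ((i : ℤ) + 1)) = (dim Y : ℤ) + (1 : ℕ) := by
      rw [hY]; push_cast; ring
    have e3 : (((3 * i + 4 : ℕ) : ℤ) - 2 * (((i + 1 : ℕ) : ℤ) + 1)) = i := by
      push_cast; ring
    have e4 : (dim Y : ℤ) - (1 : ℕ) = i := by rw [hY]; push_cast; ring
    rw [e2, e3, hC.hard Y 1, e4, smul_smul, ← add_smul] at h2
    refine mem_of_smul ?_ h2
    rw [pow_one, ← pow_succ, ← two_mul]
    exact mul_ne_zero two_ne_zero (pow_ne_zero _ hC.ne)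

lemma step3 (X : Obj) (hX : (dim X : ℤ) % 2 = e) : S X (dim X) ∈ W := by
  have hlow : ∀ j : ℤ, j % 2 = e → j < dim X → S X j ∈ W := by
    intro j hj hji
    rcases lt_or_ge j 0 with h0 | h0
    · rw [hC.neg X j h0]; exact W.zero_mem
    · obtain ⟨j', rfl⟩ : ∃ j' : ℕ, (j' : ℤ) = j := ⟨j.toNat, by omega⟩
      exact step2 hC h j' X hj (by omega)
  have hhigh : ∀ j : ℤ, j % 2 = e → (dim X : ℤ) < j → S X j ∈ W := by
    intro j hj hji
    obtain ⟨t, ht⟩ : ∃ t : ℕ, (t : ℤ) = j - (dim X : ℤ) := ⟨(j - (dim X : ℤ)).toNat, by omega⟩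
    have h1 : j = (dim X : ℤ) + t := by omega
    rw [h1, hC.hard X t]
    exact W.smul_mem _ (hlow _ (by omega) (by omega))
  have h1 := step1 hC h X (3 * dim X + 2) (by omega) (by push_cast; omega)
  have e1 : 3 * dim X + 2 - dim X - 1 = 2 * dim X + 1 := by omega
  rw [e1] at h1
  have h2 := mem_of_sum h1 (u := {dim X}) (by
    intro t ht
    rw [mem_singleton] at ht
    rw [mem_range]
    omega) (by
    intro t ht ht'
    rw [mem_range] at ht
    rw [mem_singleton] at ht'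
    refine W.smul_mem _ ?_
    rcases Nat.lt_or_ge t (dim X) with h3 | h3
    · exact hhigh _ (by push_cast; omega) (by push_cast; omega)
    · exact hlow _ (by push_cast; omega) (by push_cast; omega))
  rw [sum_singleton] at h2
  have e2 : (((3 * dim X + 2 : ℕ) : ℤ) - 2 * ((dim X : ℤ) + 1)) = (dim X : ℤ) := by
    push_cast; ring
  rw [e2] at h2
  exact mem_of_smul (pow_ne_zero _ hC.ne) h2

theorem all_of_middle (X : Obj) (i : ℤ) (hi : i % 2 = e) : S X i ∈ W := by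
  have hlow : ∀ j : ℤ, j % 2 = e → j ≤ dim X → S X j ∈ W := by
    intro j hj hji
    rcases lt_or_ge j 0 with h0 | h0
    · rw [hC.neg X j h0]; exact W.zero_mem
    · rcases hji.lt_or_eq with h1 | h1
      · obtain ⟨j', rfl⟩ : ∃ j' : ℕ, (j' : ℤ) = j := ⟨j.toNat, by omega⟩
        exact step2 hC h j' X hj (by omega)
      · rw [h1]
        exact step3 hC h X (by omega)
  rcases le_or_gt i (dim X) with h1 | h1
  · exact hlow i hi h1
  · obtain ⟨t, ht⟩ : ∃ t : ℕ, (t : ℤ) = i - (dim X : ℤ) := ⟨(i - (dim X : ℤ)).toNat, by omega⟩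
    have h1 : i = (dim X : ℤ) + t := by omega
    rw [h1, hC.hard X t]
    exact W.smul_mem _ (hlow _ (by omega) (by omega))

end NumCoh

/-- From one parity to the other one, by the Künneth formula. -/
theorem other_parity {e e' : ℤ} (he : ∀ i : ℤ, i % 2 = e' → (i + 1) % 2 = e) {a : ℚ} (ha : a ≠ 0)
    (hK : ∀ X, ∃ Y, ∀ i, S Y (i + 1) = S X (i + 1) + q • S X (i - 1) + a • S X i)
    (h : ∀ X i, i % 2 = e → S X i ∈ W) (X : Obj) (i : ℤ) (hi : i % 2 = e') : S X i ∈ W := by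
  obtain ⟨Y, hY⟩ := hK X
  have h1 := h Y (i + 1) (he i hi)
  rw [hY] at h1
  have h2 := he i hi
  have h3 := W.sub_mem h1 (W.add_mem (h X (i + 1) h2)
    (W.smul_mem q (h X (i - 1) (by omega))))
  rw [add_sub_cancel_left] at h3
  exact mem_of_smul ha h3

end Pool.Agent.Y712.LI
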