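import Pool.Agent.Y712.AJ.LRep
import Pool.Agent.Y712.AJ.LNum
import Pool.Agent.H914R2.Weil

/-!
# Independence of `ℓ` of the local factors and the middle degree of rational varieties
-/

set_option autoImplicit false

open Polynomial Finset

universe u

namespace Pool.Agent.Y712.LI

open Pool.Agent.H914 Pool.Agent.H914.VarClass Pool.Agent.H914.VarClass.Obj Rp

section traces

variable {K : Type} [Field K] [CharZero K] {D : Type} [Group D] (I : Subgroup D) [I.Normal]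
  (Φ : D)

/-- The matrix of `Φ` on the invariants. -/
noncomputable def mat (A : Rp K D) : Matrix (Fin (Module.finrank K (A.inv I)))
    (Fin (Module.finrank K (A.inv I))) K :=
  LinearMap.toMatrix (Module.finBasis K (A.inv I)) (Module.finBasis K (A.inv I)) (A.res I Φ)

omit [CharZero K] in
lemma factor_eq (A : Rp K D) : A.factor I Φ = (mat I Φ A).charpolyRev := by
  unfold Rp.factor mat
  rw [← Matrix.reverse_charpoly, LinearMap.charpoly_toMatrix]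

omit [CharZero K] in
lemma trace_eq (A : Rp K D) (n : ℕ) : (mat I Φ A ^ n).trace = A.tr I (Φ ^ n) := by
  unfold Rp.tr mat
  rw [res_pow, LinearMap.trace_eq_matrix_trace K (Module.finBasis K (A.inv I)),
    LinearMap.toMatrix_pow]

end traces

section family

variable {Λ : Type} {K : Λ → Type} [∀ ℓ, Field (K ℓ)] [∀ ℓ, CharZero (K ℓ)] {d : Λ → ℕ}
  (M : ∀ ℓ, Matrix (Fin (d ℓ)) (Fin (d ℓ)) (K ℓ))

lemma coeff_of_traces (q : ℕ → ℚ) (h : ∀ ℓ n, (M ℓ ^ (n + 1)).trace = (q n : K ℓ)) (n : ℕ) :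
    ∃ c : ℕ → ℚ, ∀ ℓ, ∀ j ≤ n, (M ℓ).charpolyRev.coeff j = (c j : K ℓ) := by
  induction n with
  | zero =>
    refine ⟨fun _ => 1, fun ℓ j hj => ?_⟩
    obtain rfl : j = 0 := by omega
    rw [coeff_zero_eq_eval_zero, Matrix.eval_charpolyRev, Rat.cast_one]
  | succ n ih =>
    obtain ⟨c, hc⟩ := ih
    refine ⟨fun j => if j ≤ n then c j else
      - (∑ p ∈ Finset.HasAntidiagonal.antidiagonal n, c p.1 * q p.2) / (n + 1), fun ℓ j hj => ?_⟩
    beta_reduce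
    rcases Nat.lt_or_ge n j with h1 | h1
    · obtain rfl : j = n + 1 := by omega
      rw [if_neg (by omega)]
      have h2 := Pool.Agent.TH658.Eq.newton (M ℓ) n
      have hn : ((n : K ℓ) + 1) ≠ 0 := by exact_mod_cast Nat.succ_ne_zero n
      refine mul_right_cancel₀ hn ?_
      rw [h2]
      push_cast
      rw [div_mul_cancel₀ _ hn]
      congr 1
      refine Finset.sum_congr rfl fun p hp => ?_
      have h3 := (Finset.HasAntidiagonal.mem_antidiagonal.mp hp)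
      rw [hc ℓ p.1 (by omega), h]
    · rw [if_pos h1]
      exact hc ℓ j h1

lemma exists_poly (q : ℕ → ℚ) (h : ∀ ℓ n, (M ℓ ^ (n + 1)).trace = (q n : K ℓ)) :
    ∃ P : ℚ[X], ∀ ℓ, (M ℓ).charpolyRev = P.map (algebraMap ℚ (K ℓ)) := by
  have h1 : ∀ j, ∃ c : ℚ, ∀ ℓ, (M ℓ).charpolyRev.coeff j = (c : K ℓ) := by
    intro j
    obtain ⟨c, hc⟩ := coeff_of_traces M q h j
    exact ⟨c j, fun ℓ => hc ℓ j le_rfl⟩
  choose c hc using h1
  rcases isEmpty_or_nonempty Λ with hΛ | ⟨⟨ℓ₀⟩⟩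
  · exact ⟨0, fun ℓ => (hΛ.false ℓ).elim⟩
  set m := (M ℓ₀).charpolyRev.natDegree
  refine ⟨∑ j ∈ range (m + 1), monomial j (c j), fun ℓ => ?_⟩
  ext j
  rw [coeff_map, finsetSum_coeff, hc j ℓ]
  simp only [coeff_monomial]
  rw [Finset.sum_ite_eq' (range (m + 1)) j]
  split_ifs with h2
  · rw [eq_ratCast]
  · rw [mem_range] at h2
    have h3 : (M ℓ₀).charpolyRev.coeff j = 0 :=
      coeff_eq_zero_of_natDegree_lt (by omega)
    rw [hc j ℓ₀, Rat.cast_eq_zero] at h3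
    rw [h3, Rat.cast_zero, map_zero]

lemma traces_of_poly {P : ℚ[X]} (h : ∀ ℓ, (M ℓ).charpolyRev = P.map (algebraMap ℚ (K ℓ))) (n : ℕ) :
    ∃ q : ℚ, ∀ ℓ, (M ℓ ^ (n + 1)).trace = (q : K ℓ) := by
  induction n using Nat.strong_induction_on with
  | _ n ih =>
    have h1 : ∃ q : ℕ → ℚ, ∀ j < n, ∀ ℓ, (M ℓ ^ (j + 1)).trace = (q j : K ℓ) := by
      have h2 : ∀ j, ∃ q : ℚ, j < n → ∀ ℓ, (M ℓ ^ (j + 1)).trace = (q : K ℓ) := by
        intro j
        by_cases hj : j < n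
        · obtain ⟨q, hq⟩ := ih j hj
          exact ⟨q, fun _ => hq⟩
        · exact ⟨0, fun h => absurd h hj⟩
      choose q hq using h2
      exact ⟨q, hq⟩
    obtain ⟨q, hq⟩ := h1
    refine ⟨-(P.coeff (n + 1) * (n + 1)) -
      ∑ p ∈ (Finset.HasAntidiagonal.antidiagonal n).erase (0, n), P.coeff p.1 * q p.2, fun ℓ => ?_⟩
    have h2 := Pool.Agent.TH658.Eq.newton (M ℓ) n
    have h3 : ((0, n) : ℕ × ℕ) ∈ Finset.HasAntidiagonal.antidiagonal n := by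
      rw [Finset.HasAntidiagonal.mem_antidiagonal]
      exact zero_add n
    rw [← Finset.add_sum_erase _ _ h3] at h2
    have h4 : (M ℓ).charpolyRev.coeff 0 = 1 := by
      rw [coeff_zero_eq_eval_zero, Matrix.eval_charpolyRev]
    have h5 : ∀ j, (M ℓ).charpolyRev.coeff j = (P.coeff j : K ℓ) := by
      intro j
      rw [h ℓ, coeff_map, eq_ratCast]
    have h6 : ∑ p ∈ (Finset.HasAntidiagonal.antidiagonal n).erase (0, n),
        (M ℓ).charpolyRev.coeff p.1 * (M ℓ ^ (p.2 + 1)).trace =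
        ∑ p ∈ (Finset.HasAntidiagonal.antidiagonal n).erase (0, n),
          (P.coeff p.1 : K ℓ) * (q p.2 : K ℓ) := by
      refine Finset.sum_congr rfl fun p hp => ?_
      rw [Finset.mem_erase, Finset.HasAntidiagonal.mem_antidiagonal] at hp
      have h7 : p.2 < n := by
        rcases Nat.eq_zero_or_pos p.1 with h0 | h0
        · exact absurd (Prod.ext h0 (by omega)) hp.1
        · omega
      rw [h5, hq p.2 h7 ℓ]
    simp only [h4, one_mul] at h2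
    rw [h6, h5] at h2
    push_cast
    linear_combination h2

end family

variable {k : Type u} [Field k]

/-- The `ℓ`-adic cohomology groups `H ℓ X i`, `ℓ ∈ Λ`, over the fields `K ℓ` (in the intended use `ℚ_ℓ`),
as representations of the decomposition group `D` of a prime `p`, where `Λ` is the set of the primes
`ℓ ≠ p`; the inertia group `I`, a geometric Frobenius element `Φ`, and the character `χ ℓ = ℚ_ℓ(-1)`. -/
structure Data (𝒱 : VarClass k) (Λ : Type) where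
  /-- the decomposition group -/
  D : Type
  /-- it is a group -/
  grp : Group D
  /-- the inertia group -/
  I : Subgroup D
  /-- it is a normal subgroup -/
  normal : I.Normal
  /-- a Frobenius element -/
  Φ : D
  /-- the field of coefficients -/
  K : Λ → Type
  /-- it is a field -/
  fld : ∀ ℓ, Field (K ℓ)
  /-- of characteristic zero -/
  chz : ∀ ℓ, CharZero (K ℓ)
  /-- the inverse of the cyclotomic character -/
  χ : ∀ ℓ, D →* (K ℓ)ˣ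
  /-- the cohomology groups -/
  H : ∀ ℓ, 𝒱.Obj → ℤ → Rp (K ℓ) D

attribute [instance] Data.grp Data.normal Data.fld Data.chz

variable {𝒱 : VarClass k} {Λ : Type}

/-- `Z` is the cohomology of a projective space in degree `N`. -/
def Data.IsTate (T : Data 𝒱 Λ) (ℓ : Λ) (N : ℕ) (Z : Rp (T.K ℓ) T.D) : Prop :=
  (Even N → ∃ O, IsOne O ∧ IsTwist (T.χ ℓ) (N / 2) O Z) ∧ (¬ Even N → IsZero Z)

/-- `Z` is `H^(N - 2 (t + 1))(X)(-(t + 1))`. -/
def Data.IsPart (T : Data 𝒱 Λ) (ℓ : Λ) (X : 𝒱.Obj) (N t : ℕ) (Z : Rp (T.K ℓ) T.D) : Prop :=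
  IsTwist (T.χ ℓ) (t + 1) (T.H ℓ X (N - 2 * (t + 1))) Z

/-- `C` is `H^N(ℙ^N) ⊕ H^(N-2)(X)(-1) ⊕ ... ⊕ H^(N-2m)(X)(-m)`. -/
def Data.IsBlowUp (T : Data 𝒱 Λ) (ℓ : Λ) (X : 𝒱.Obj) (N m : ℕ) (C : Rp (T.K ℓ) T.D) : Prop :=
  ∃ (Z : Rp (T.K ℓ) T.D) (l : List (Rp (T.K ℓ) T.D)), T.IsTate ℓ N Z ∧
    List.Forall₂ (T.IsPart ℓ X N) (List.range m) l ∧ IsSum (Z :: l) C

/-- `C` is `H^(i+1)(X) ⊕ H^(i-1)(X)(-1) ⊕ (H^i(X) ⊗ U)`. -/
def Data.IsProduct (T : Data 𝒱 Λ) (ℓ : Λ) (X : 𝒱.Obj) (i : ℤ) (U C : Rp (T.K ℓ) T.D) : Prop :=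
  ∃ Z Z' : Rp (T.K ℓ) T.D, IsTwist (T.χ ℓ) 1 (T.H ℓ X (i - 1)) Z ∧ IsTensor (T.H ℓ X i) U Z' ∧
    IsSum [T.H ℓ X (i + 1), Z, Z'] C

/-- `I` acts trivially on `U`, and the trace of `Φ ^ n` on `U` is `a n`. -/
def Data.IsUnramified (T : Data 𝒱 Λ) (ℓ : Λ) (U : Rp (T.K ℓ) T.D) (a : ℕ → ℤ) : Prop :=
  (∀ g ∈ T.I, ∀ v, U.app g v = v) ∧ ∀ n, U.trace (T.Φ ^ n) = a n

/-- The Künneth formula for the product `Y` of `X` with an elliptic curve `E` over `ℚ` which has good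
ordinary reduction at `p`; `U ℓ` is `H¹(E)` and `a n` is the trace of the `n`-th power of the Frobenius
element, which is not zero. -/
def Data.HasKunneth (T : Data 𝒱 Λ) : Prop :=
  ∃ (U : ∀ ℓ, Rp (T.K ℓ) T.D) (a : ℕ → ℤ), (∀ n, 1 ≤ n → a n ≠ 0) ∧
    (∀ ℓ, T.IsUnramified ℓ (U ℓ) a) ∧
    ∀ X : 𝒱.Obj, ∃ Y : 𝒱.Obj, ∀ ℓ (i : ℤ), T.IsProduct ℓ X i (U ℓ) (T.H ℓ Y (i + 1))

/-- The hard Lefschetz theorem, `H^(d+t)(X) = H^(d-t)(X)(-t)`, `d = dim X`. -/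
def Data.HardLefschetz (T : Data 𝒱 Λ) : Prop := ∀ ℓ (X : 𝒱.Obj) (t : ℕ),
  IsTwist (T.χ ℓ) t (T.H ℓ X (X.dim - t)) (T.H ℓ X (X.dim + t))

/-- The weak Lefschetz theorem: `H^i(S) = H^i(X)` for `i < m`, where `S` is a smooth linear section of
`X` of dimension `m`. -/
def Data.WeakLefschetz (T : Data 𝒱 Λ) : Prop :=
  ∀ (X : 𝒱.Obj) (m : ℕ), 1 ≤ m → m ≤ X.dim → ∃ S : 𝒱.Obj, S.dim = m ∧
    ∀ ℓ (i : ℤ), i < m → Iso (T.H ℓ S i) (T.H ℓ X i)

/-- Embed `X` in the projective space of dimension `N`; the blow-up `B` with centre `X` has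
`H^N(B) = H^N(ℙ^N) ⊕ H^(N-2)(X)(-1) ⊕ ... ⊕ H^(N-2(c-1))(X)(-(c-1))`, `c = N - dim X`. -/
def Data.HasBlowUps (T : Data 𝒱 Λ) (R : 𝒱.Obj → Prop) : Prop :=
  ∀ (X : 𝒱.Obj) (N : ℕ), 2 * X.dim + 1 ≤ N → ∃ B : 𝒱.Obj, R B ∧ B.dim = N ∧
    ∀ ℓ, T.IsBlowUp ℓ X N (N - X.dim - 1) (T.H ℓ B N)

/-- The properties of the cohomology groups that are used; `R` is the class of the blow-ups of
projective spaces with one smooth centre; `χ_I`, `χ_Φ`: `I` acts trivially on `ℚ_ℓ(-1)`, and `Φ` is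
multiplication by `p`. -/
structure IsCoh (T : Data 𝒱 Λ) (p : ℕ) (R : 𝒱.Obj → Prop) : Prop where
  χ_I : ∀ ℓ, ∀ g ∈ T.I, T.χ ℓ g = 1
  χ_Φ : ∀ ℓ, (T.χ ℓ T.Φ : T.K ℓ) = p
  neg : ∀ ℓ X (i : ℤ), i < 0 → IsZero (T.H ℓ X i)
  hard : T.HardLefschetz
  weak : T.WeakLefschetz
  blowUp : T.HasBlowUps R
  kunneth : T.HasKunneth

/-- The local factor `det (1 - Φ T | H^i(X, ℚ_ℓ)^I)` has rational coefficients and does not depend
on `ℓ`. -/
def Indep (T : Data 𝒱 Λ) (X : 𝒱.Obj) (i : ℤ) : Prop :=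
  ∃ P : ℚ[X], ∀ ℓ, (T.H ℓ X i).factor T.I T.Φ = P.map (algebraMap ℚ (T.K ℓ))

/-- The traces of the powers of `Φ`. -/
noncomputable def Data.s (T : Data 𝒱 Λ) (n : ℕ) (X : 𝒱.Obj) (i : ℤ) : ∀ ℓ, T.K ℓ :=
  fun ℓ => (T.H ℓ X i).tr T.I (T.Φ ^ n)

/-- The rational elements. -/
def Data.rat (T : Data 𝒱 Λ) : Submodule ℚ (∀ ℓ, T.K ℓ) where
  carrier := {f | ∃ q : ℚ, ∀ ℓ, f ℓ = (q : T.K ℓ)}
  zero_mem' := ⟨0, fun ℓ => by rw [Rat.cast_zero]; rfl⟩
  add_mem' := by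
    rintro f g ⟨a, ha⟩ ⟨b, hb⟩
    exact ⟨a + b, fun ℓ => by rw [Pi.add_apply, ha, hb, Rat.cast_add]⟩
  smul_mem' := by
    rintro c f ⟨a, ha⟩
    exact ⟨c * a, fun ℓ => by rw [Pi.smul_apply, ha, Rat.smul_def, Rat.cast_mul]⟩

lemma Data.mem_rat {T : Data 𝒱 Λ} {f : ∀ ℓ, T.K ℓ} :
    f ∈ T.rat ↔ ∃ q : ℚ, ∀ ℓ, f ℓ = (q : T.K ℓ) := Iff.rfl

lemma indep_iff (T : Data 𝒱 Λ) (X : 𝒱.Obj) (i : ℤ) :
    Indep T X i ↔ ∀ n, 1 ≤ n → T.s n X i ∈ T.rat := by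
  have e1 : ∀ ℓ n, (mat T.I T.Φ (T.H ℓ X i) ^ n).trace = T.s n X i ℓ := fun ℓ n =>
    trace_eq T.I T.Φ (T.H ℓ X i) n
  unfold Indep
  simp only [factor_eq]
  constructor
  · rintro ⟨P, hP⟩ n hn
    obtain ⟨q, hq⟩ := traces_of_poly (fun ℓ => mat T.I T.Φ (T.H ℓ X i)) hP (n - 1)
    rw [Nat.sub_add_cancel hn] at hq
    exact ⟨q, fun ℓ => by rw [← e1, hq]⟩
  · intro h
    have h2 : ∀ n, ∃ q : ℚ, ∀ ℓ, (mat T.I T.Φ (T.H ℓ X i) ^ (n + 1)).trace = (q : T.K ℓ) := by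
      intro n
      obtain ⟨q, hq⟩ := h (n + 1) (by omega)
      exact ⟨q, fun ℓ => by rw [e1, hq]⟩
    choose q hq using h2
    exact exists_poly (fun ℓ => mat T.I T.Φ (T.H ℓ X i)) q fun ℓ n => hq n ℓ

variable {T : Data 𝒱 Λ} {p : ℕ} {R : 𝒱.Obj → Prop}

lemma tr_twist' (hT : IsCoh T p R) {ℓ : Λ} {t : ℕ} {A B : Rp (T.K ℓ) T.D}
    (h : IsTwist (T.χ ℓ) t A B) (n : ℕ) :
    B.tr T.I (T.Φ ^ n) = ((p : T.K ℓ) ^ n) ^ t * A.tr T.I (T.Φ ^ n) := by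
  rw [tr_twist T.I (hT.χ_I ℓ) h, map_pow, Units.val_pow_eq_pow_val, hT.χ_Φ]

/-- the trace on the cohomology of a projective space -/
noncomputable def tateTr (p n N : ℕ) : ℚ := if Even N then ((p : ℚ) ^ n) ^ (N / 2) else 0

lemma tate_tr (hT : IsCoh T p R) {ℓ : Λ} {n N : ℕ} {Z : Rp (T.K ℓ) T.D} (h : T.IsTate ℓ N Z) :
    Z.tr T.I (T.Φ ^ n) = (tateTr p n N : T.K ℓ) := by
  unfold tateTr
  by_cases hN : Even N
  · rw [if_pos hN]
    obtain ⟨O, hO, hZ⟩ := h.1 hN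
    rw [tr_twist' hT hZ, tr_one T.I hO, mul_one]
    push_cast
    rfl
  · rw [if_neg hN, tr_zero T.I (h.2 hN), Rat.cast_zero]

lemma parts_tr (hT : IsCoh T p R) {ℓ : Λ} {X : 𝒱.Obj} {N n : ℕ} {l' : List ℕ}
    {l : List (Rp (T.K ℓ) T.D)} (h : List.Forall₂ (T.IsPart ℓ X N) l' l) :
    l.map (fun A => A.tr T.I (T.Φ ^ n)) =
      l'.map (fun t : ℕ => ((p : T.K ℓ) ^ n) ^ (t + 1) *
        (T.H ℓ X (N - 2 * (t + 1))).tr T.I (T.Φ ^ n)) := by
  induction h with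
  | nil => rfl
  | cons h1 _ ih => rw [List.map_cons, List.map_cons, ih, tr_twist' hT h1]

lemma numCoh (hp : p ≠ 0) (hT : IsCoh T p R) (n : ℕ) :
    NumCoh (fun X : 𝒱.Obj => X.dim) R T.rat (T.s n) ((p : ℚ) ^ n) where
  ne := pow_ne_zero _ (by exact_mod_cast hp)
  neg X i hi := by
    funext ℓ
    exact tr_zero T.I (hT.neg ℓ X i hi) _
  hard X t := by
    funext ℓ
    refine (tr_twist' hT (hT.hard ℓ X t) n).trans ?_
    rw [Pi.smul_apply, Rat.smul_def]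
    push_cast
    rfl
  sec X m hm hX := by
    obtain ⟨S, hS, h⟩ := hT.weak X m hm hX
    refine ⟨S, hS, fun i hi => ?_⟩
    funext ℓ
    exact tr_iso T.I (h ℓ i hi) _
  blow X N hN := by
    obtain ⟨B, hRB, hB, h⟩ := hT.blowUp X N hN
    refine ⟨B, hRB, hB, fun ℓ => (tateTr p n N : T.K ℓ), ⟨tateTr p n N, fun _ => rfl⟩, ?_⟩
    funext ℓ
    obtain ⟨Z, l, hZ, hl, hs⟩ := h ℓ
    refine (tr_sum T.I hs _).trans ?_
    rw [List.map_cons, List.sum_cons, Pi.add_apply, Finset.sum_apply, tate_tr hT hZ,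
      parts_tr hT hl]
    congr 1
    rw [Finset.sum_range]
    rw [← List.sum_ofFn]
    congr 1
    refine List.ext_getElem (by simp) fun j h1 h2 => ?_
    rw [List.getElem_map, List.getElem_range, List.getElem_ofFn]
    rw [Pi.smul_apply, Rat.smul_def]
    push_cast
    rfl

lemma kun (hT : IsCoh T p R) (n : ℕ) (hn : 1 ≤ n) : ∃ a : ℚ, a ≠ 0 ∧
    ∀ X : 𝒱.Obj, ∃ Y : 𝒱.Obj, ∀ i : ℤ, T.s n Y (i + 1) =
      T.s n X (i + 1) + ((p : ℚ) ^ n) • T.s n X (i - 1) + a • T.s n X i := by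
  obtain ⟨U, a, ha, hU, hK⟩ := hT.kunneth
  refine ⟨a n, by exact_mod_cast ha n hn, fun X => ?_⟩
  obtain ⟨Y, hY⟩ := hK X
  refine ⟨Y, fun i => ?_⟩
  funext ℓ
  obtain ⟨Z, Z', hZ, hZ', hs⟩ := hY ℓ i
  refine (tr_sum T.I hs _).trans ?_
  simp only [List.map_cons, List.map_nil, List.sum_cons, List.sum_nil, add_zero]
  rw [tr_twist' hT hZ, tr_tensor T.I hZ' (hU ℓ).1, (hU ℓ).2, pow_one, Pi.add_apply, Pi.add_apply,
    Pi.smul_apply, Pi.smul_apply, Rat.smul_def, Rat.smul_def, ← add_assoc, mul_comm _ ((a n : ℤ) : T.K ℓ)]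
  push_cast
  rfl

/-- **Independence of `ℓ` of all local factors and the middle degree of the rational varieties of odd,
or even, dimension.** -/
theorem independence (hp : p ≠ 0) (hT : IsCoh T p R) :
    List.TFAE [∀ (X : 𝒱.Obj) (i : ℤ), Indep T X i,
      ∀ B : 𝒱.Obj, R B → Odd B.dim → Indep T B B.dim,
      ∀ B : 𝒱.Obj, R B → Even B.dim → Indep T B B.dim] := by
  have key : ∀ e e' : ℤ, (∀ i : ℤ, i % 2 = e' → (i + 1) % 2 = e) →
      (∀ i : ℤ, i % 2 = e ∨ i % 2 = e') →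
      (∀ B : 𝒱.Obj, R B → (B.dim : ℤ) % 2 = e → Indep T B B.dim) →
      ∀ (X : 𝒱.Obj) (i : ℤ), Indep T X i := by
    intro e e' he hee h X i
    rw [indep_iff]
    intro n hn
    have h1 : ∀ (X : 𝒱.Obj) (i : ℤ), i % 2 = e → T.s n X i ∈ T.rat :=
      (numCoh hp hT n).all_of_middle fun B hB hBe => (indep_iff T B B.dim).1 (h B hB hBe) n hn
    rcases hee i with hi | hi
    · exact h1 X i hi
    · obtain ⟨a, ha, hK⟩ := kun hT n hn
      exact other_parity he ha hK h1 X i hi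
  tfae_have 1 → 2 := fun h B _ _ => h B B.dim
  tfae_have 1 → 3 := fun h B _ _ => h B B.dim
  tfae_have 2 → 1 := by
    intro h
    refine key 1 0 (fun i hi => by omega) (fun i => by omega) fun B hB hBe => h B hB ?_
    rw [Nat.odd_iff]
    omega
  tfae_have 3 → 1 := by
    intro h
    refine key 0 1 (fun i hi => by omega) (fun i => by omega) fun B hB hBe => h B hB ?_
    rw [Nat.even_iff]
    omega
  tfae_finish

end Pool.Agent.Y712.LI
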