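import Pool.Agent.TH658.Eq.Newt

/-!
# Local factors of representations

Representations of a decomposition group `D` with the inertia group `I`, and the characteristic
polynomials of the Frobenius element on the invariants of `I`.
-/

set_option autoImplicit false

open Polynomial TensorProduct

namespace Pool.Agent.Y712.LI

/-- A finite-dimensional representation of `D` over `K`. -/
structure Rp (K : Type) [Field K] (D : Type) [Group D] where
  /-- the vector space -/
  V : Type
  /-- it is an abelian group -/
  grp : AddCommGroup V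
  /-- it is a vector space -/
  mod : Module K V
  /-- it is finite-dimensional -/
  fin : Module.Finite K V
  /-- the action of `D` -/
  act : D → V →ₗ[K] V
  one : ∀ v, act 1 v = v
  mul : ∀ g h v, act (g * h) v = act g (act h v)

attribute [instance] Rp.grp Rp.mod Rp.fin

/-- The vectors fixed by `f`. -/
def fix {K V : Type} [Field K] [AddCommGroup V] [Module K V] (f : V →ₗ[K] V) : Submodule K V :=
  LinearMap.eqLocus f LinearMap.id

variable {K : Type} [Field K] {D : Type} [Group D]

namespace Rp

/-- The subspace of the vectors fixed by the subgroup `I`. -/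
def inv (A : Rp K D) (I : Subgroup D) : Submodule K A.V := ⨅ g ∈ I, fix (A.act g)

lemma mem_inv {A : Rp K D} {I : Subgroup D} {v : A.V} :
    v ∈ A.inv I ↔ ∀ g ∈ I, A.act g v = v := by
  unfold inv fix
  simp only [Submodule.mem_iInf, LinearMap.mem_eqLocus, LinearMap.id_apply]

lemma map_inv (A : Rp K D) (I : Subgroup D) [hI : I.Normal] (g : D) :
    ∀ v ∈ A.inv I, A.act g v ∈ A.inv I := by
  intro v hv
  rw [mem_inv] at hv ⊢
  intro h hh
  have h1 := hv _ (hI.conj_mem' h hh g)
  have h2 : A.act h (A.act g v) = A.act g (A.act (g⁻¹ * h * g) v) := by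
    rw [← A.mul, ← A.mul]
    congr 2
    group
  rw [h2, h1]

/-- The action of `g` on the invariants of `I`. -/
def res (A : Rp K D) (I : Subgroup D) [I.Normal] (g : D) : A.inv I →ₗ[K] A.inv I :=
  (A.act g).restrict (A.map_inv I g)

lemma res_coe (A : Rp K D) (I : Subgroup D) [I.Normal] (g : D) (v : A.inv I) :
    (A.res I g v : A.V) = A.act g v := rfl

lemma res_pow (A : Rp K D) (I : Subgroup D) [I.Normal] (g : D) (n : ℕ) :
    A.res I (g ^ n) = A.res I g ^ n := by
  induction n with
  | zero =>
    refine LinearMap.ext fun v => Subtype.ext ?_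
    rw [res_coe, pow_zero, pow_zero, A.one]
    rfl
  | succ n ih =>
    refine LinearMap.ext fun v => Subtype.ext ?_
    rw [pow_succ' (A.res I g), Module.End.mul_apply, ← ih, res_coe, res_coe, res_coe, pow_succ',
      A.mul]

/-- The local factor: `det (1 - T Φ)` on the invariants of `I`. -/
noncomputable def factor (A : Rp K D) (I : Subgroup D) [I.Normal] (Φ : D) : K[X] :=
  (A.res I Φ).charpoly.reverse

/-- The trace of `g` on the invariants of `I`. -/
noncomputable def tr (A : Rp K D) (I : Subgroup D) [I.Normal] (g : D) : K :=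
  LinearMap.trace K (A.inv I) (A.res I g)

/-- The element `g v`. -/
def app (A : Rp K D) (g : D) (v : A.V) : A.V := A.act g v

/-- The trace of `g`. -/
noncomputable def trace (A : Rp K D) (g : D) : K := LinearMap.trace K A.V (A.act g)

/-- Linear maps from `A` to `B`. -/
def Lin (A B : Rp K D) : Type := A.V →ₗ[K] B.V

/-- The value of a linear map. -/
def Lin.ev {A B : Rp K D} (f : Lin A B) (v : A.V) : B.V := (show A.V →ₗ[K] B.V from f) v

/-- The representations `A` and `B` are isomorphic. -/
def Iso (A B : Rp K D) : Prop :=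
  ∃ f : Lin A B, Function.Bijective f.ev ∧ ∀ g v, f.ev (A.app g v) = B.app g (f.ev v)

/-- The representation `A` is zero. -/
def IsZero (A : Rp K D) : Prop := Subsingleton A.V

/-- The representation `A` is trivial of dimension one. -/
def IsOne (A : Rp K D) : Prop := Module.finrank K A.V = 1 ∧ ∀ g v, A.app g v = v

/-- The representation `C` is the direct sum of `A` and `B`. -/
def IsAdd (A B C : Rp K D) : Prop :=
  ∃ (f : Lin C A) (h : Lin C B), Function.Bijective (fun v => (f.ev v, h.ev v)) ∧
    (∀ g v, f.ev (C.app g v) = A.app g (f.ev v)) ∧ ∀ g v, h.ev (C.app g v) = B.app g (h.ev v)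

/-- The element `χ(g) ^ t g v`. -/
def scaled (χ : D →* Kˣ) (t : ℕ) (A : Rp K D) (g : D) (v : A.V) : A.V := (χ g ^ t : K) • A.act g v

/-- The representation `B` is `A ⊗ χ ^ t`, `χ` a character of `D`. -/
def IsTwist (χ : D →* Kˣ) (t : ℕ) (A B : Rp K D) : Prop :=
  ∃ f : Lin B A, Function.Bijective f.ev ∧ ∀ g v, f.ev (B.app g v) = scaled χ t A g (f.ev v)

/-- The tensor product of two representations. -/
def tens (A U : Rp K D) : Type := A.V ⊗[K] U.V

/-- The action of `g` on the tensor product. -/
noncomputable def tensApp (A U : Rp K D) (g : D) (z : tens A U) : tens A U :=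
  TensorProduct.map (A.act g) (U.act g) z

/-- Linear maps to the tensor product. -/
def TLin (C A U : Rp K D) : Type := C.V →ₗ[K] A.V ⊗[K] U.V

/-- The value of a linear map. -/
def TLin.ev {C A U : Rp K D} (f : TLin C A U) (v : C.V) : tens A U :=
  (show C.V →ₗ[K] A.V ⊗[K] U.V from f) v

/-- The representation `C` is the tensor product of `A` and `U`. -/
def IsTensor (A U C : Rp K D) : Prop :=
  ∃ f : TLin C A U, Function.Bijective f.ev ∧ ∀ g v, f.ev (C.app g v) = tensApp A U g (f.ev v)

/-- The representation `C` is the direct sum of the representations in a list. -/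
inductive IsSum : List (Rp K D) → Rp K D → Prop
  | nil (A : Rp K D) : IsZero A → IsSum [] A
  | cons (A B C : Rp K D) (l : List (Rp K D)) : IsSum l B → IsAdd A B C → IsSum (A :: l) C

variable (I : Subgroup D) [hI : I.Normal]

include hI

lemma tr_smul {A B : Rp K D} (e : B.inv I ≃ₗ[K] A.inv I) (g : D) (c : K)
    (h : ∀ v, e (B.res I g v) = c • A.res I g (e v)) : B.tr I g = c * A.tr I g := by
  unfold tr
  rw [← LinearMap.trace_conj' (B.res I g) e, ← smul_eq_mul, ← map_smul]
  congr 1
  refine LinearMap.ext fun w => ?_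
  obtain ⟨v, rfl⟩ := e.surjective w
  rw [LinearMap.smul_apply, ← h, LinearEquiv.conj_apply, LinearMap.comp_apply,
    LinearMap.comp_apply, LinearEquiv.coe_coe, LinearEquiv.coe_coe, LinearEquiv.symm_apply_apply]

lemma tr_scaled {A B : Rp K D} (e : B.V ≃ₗ[K] A.V) (c : D → K) (hc : ∀ g ∈ I, c g = 1)
    (h : ∀ g v, e (B.act g v) = c g • A.act g (e v)) (g : D) : B.tr I g = c g * A.tr I g := by
  have h1 : (B.inv I).map (e : B.V →ₗ[K] A.V) = A.inv I := by
    ext w
    constructor
    · rintro ⟨v, hv, rfl⟩
      rw [SetLike.mem_coe, mem_inv] at hv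
      rw [mem_inv]
      intro g hg
      have h2 := h g v
      rw [hc g hg, one_smul, hv g hg] at h2
      rw [LinearEquiv.coe_coe, ← h2]
    · intro hw
      rw [mem_inv] at hw
      refine ⟨e.symm w, ?_, e.apply_symm_apply w⟩
      rw [SetLike.mem_coe, mem_inv]
      intro g hg
      apply e.injective
      rw [h, e.apply_symm_apply, hw g hg, hc g hg, one_smul]
  refine tr_smul I (LinearEquiv.ofSubmodules e _ _ h1) g (c g) fun v => Subtype.ext ?_
  rw [LinearEquiv.ofSubmodules_apply, res_coe, SetLike.val_smul, res_coe,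
    LinearEquiv.ofSubmodules_apply, h]

lemma tr_iso {A B : Rp K D} (h : Iso A B) (g : D) : A.tr I g = B.tr I g := by
  obtain ⟨f, hf, he⟩ := h
  have h1 := tr_scaled (A := B) (B := A) I (LinearEquiv.ofBijective (show A.V →ₗ[K] B.V from f) hf)
    (fun _ => (1 : K)) (fun _ _ => rfl) (fun g v => by rw [one_smul]; exact he g v) g
  rwa [one_mul] at h1

lemma tr_zero {A : Rp K D} (h : IsZero A) (g : D) : A.tr I g = 0 := by
  have h0 : Subsingleton A.V := h
  unfold tr
  have h1 : Subsingleton (A.inv I) := ⟨fun a b => Subtype.ext (Subsingleton.elim _ _)⟩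
  rw [Subsingleton.elim (A.res I g) 0, map_zero]

lemma tr_one {A : Rp K D} (h : IsOne A) (g : D) : A.tr I g = 1 := by
  unfold tr
  have h1 : A.res I g = 1 := LinearMap.ext fun v => Subtype.ext (h.2 g v)
  have h2 : A.inv I = ⊤ := by
    rw [eq_top_iff]
    intro v _
    rw [mem_inv]
    exact fun g _ => h.2 g v
  rw [h1, LinearMap.trace_one, h2, finrank_top, h.1, Nat.cast_one]

lemma tr_add {A B C : Rp K D} (h : IsAdd A B C) (g : D) : C.tr I g = A.tr I g + B.tr I g := by
  obtain ⟨e, he⟩ : ∃ e : C.V ≃ₗ[K] A.V × B.V, ∀ (g : D) (v : C.V),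
      e (C.act g v) = (A.act g (e v).1, B.act g (e v).2) := by
    obtain ⟨f, h, hb, h1, h2⟩ := h
    exact ⟨LinearEquiv.ofBijective ((show C.V →ₗ[K] A.V from f).prod (show C.V →ₗ[K] B.V from h)) hb,
      fun g v => Prod.ext (h1 g v) (h2 g v)⟩
  have hmem : ∀ v : C.V, v ∈ C.inv I ↔ (e v).1 ∈ A.inv I ∧ (e v).2 ∈ B.inv I := by
    intro v
    rw [mem_inv, mem_inv, mem_inv]
    constructor
    · intro h
      refine ⟨fun g hg => ?_, fun g hg => ?_⟩
      · have h1 := he g v
        rw [h g hg] at h1
        exact (congrArg Prod.fst h1).symm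
      · have h1 := he g v
        rw [h g hg] at h1
        exact (congrArg Prod.snd h1).symm
    · rintro ⟨h1, h2⟩ g hg
      apply e.injective
      rw [he, h1 g hg, h2 g hg]
  let e' : C.inv I ≃ₗ[K] (A.inv I × B.inv I) :=
    { toFun := fun v => (⟨(e v.1).1, ((hmem _).1 v.2).1⟩, ⟨(e v.1).2, ((hmem _).1 v.2).2⟩)
      map_add' := fun v w => by
        refine Prod.ext (Subtype.ext ?_) (Subtype.ext ?_)
        · exact congrArg Prod.fst (map_add e v.1 w.1)
        · exact congrArg Prod.snd (map_add e v.1 w.1)
      map_smul' := fun c v => by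
        refine Prod.ext (Subtype.ext ?_) (Subtype.ext ?_)
        · exact congrArg Prod.fst (map_smul e c v.1)
        · exact congrArg Prod.snd (map_smul e c v.1)
      invFun := fun w => ⟨e.symm (w.1.1, w.2.1), (hmem _).2 (by
        rw [e.apply_symm_apply]; exact ⟨w.1.2, w.2.2⟩)⟩
      left_inv := fun v => Subtype.ext (e.symm_apply_apply v.1)
      right_inv := fun w => by
        refine Prod.ext (Subtype.ext ?_) (Subtype.ext ?_)
        · exact congrArg Prod.fst (e.apply_symm_apply (w.1.1, w.2.1))
        · exact congrArg Prod.snd (e.apply_symm_apply (w.1.1, w.2.1)) }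
  have h3 : ∀ v, e' (C.res I g v) = (A.res I g).prodMap (B.res I g) (e' v) := by
    intro v
    refine Prod.ext (Subtype.ext ?_) (Subtype.ext ?_)
    · exact congrArg Prod.fst (he g v.1)
    · exact congrArg Prod.snd (he g v.1)
  unfold tr
  rw [← LinearMap.trace_prodMap', ← LinearMap.trace_conj' (C.res I g) e']
  have h : e'.conj (C.res I g) = (A.res I g).prodMap (B.res I g) := by
    refine LinearMap.ext fun w => ?_
    obtain ⟨v, rfl⟩ := e'.surjective w
    rw [← h3, LinearEquiv.conj_apply, LinearMap.comp_apply, LinearMap.comp_apply,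
      LinearEquiv.coe_coe, LinearEquiv.coe_coe, LinearEquiv.symm_apply_apply]
  rw [h]

lemma tr_sum {l : List (Rp K D)} {C : Rp K D} (h : IsSum l C) (g : D) :
    C.tr I g = (l.map fun A => A.tr I g).sum := by
  induction h with
  | nil A hA => exact tr_zero I hA g
  | cons A B C l _ hC ih => rw [tr_add I hC, ih, List.map_cons, List.sum_cons]

lemma tr_twist {χ : D →* Kˣ} (hχ : ∀ g ∈ I, χ g = 1) {t : ℕ} {A B : Rp K D}
    (h : IsTwist χ t A B) (g : D) : B.tr I g = (χ g ^ t : K) * A.tr I g := by
  obtain ⟨f, hf, he⟩ := h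
  refine tr_scaled (A := A) (B := B) I (LinearEquiv.ofBijective (show B.V →ₗ[K] A.V from f) hf)
    (fun g => (χ g ^ t : K)) (fun g hg => ?_) he g
  show ((χ g : K) ^ t) = 1
  rw [hχ g hg, Units.val_one, one_pow]

lemma tr_tensor {A U C : Rp K D} (h : IsTensor A U C) (hU : ∀ g ∈ I, ∀ v, U.act g v = v) (g : D) :
    C.tr I g = A.tr I g * U.trace g := by
  obtain ⟨e, he⟩ : ∃ e : C.V ≃ₗ[K] A.V ⊗[K] U.V, ∀ (g : D) (v : C.V),
      e (C.act g v) = TensorProduct.map (A.act g) (U.act g) (e v) := by
    obtain ⟨f, hf, he⟩ := h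
    exact ⟨LinearEquiv.ofBijective (show C.V →ₗ[K] A.V ⊗[K] U.V from f) hf, he⟩
  have hU1 : ∀ g ∈ I, U.act g = LinearMap.id := fun g hg => LinearMap.ext (hU g hg)
  have hinj0 : Function.Injective (LinearMap.rTensor U.V (A.inv I).subtype) :=
    Module.Flat.rTensor_preserves_injective_linearMap _ (Submodule.injective_subtype _)
  set f : A.inv I ⊗[K] U.V →ₗ[K] C.V := e.symm.toLinearMap ∘ₗ
    (LinearMap.rTensor U.V (A.inv I).subtype) with hf
  have hf1 : ∀ z, e (f z) = LinearMap.rTensor U.V (A.inv I).subtype z := fun z =>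
    e.apply_symm_apply _
  have hinj : Function.Injective f := e.symm.injective.comp hinj0
  have hrange : LinearMap.range f = C.inv I := by
    apply le_antisymm
    · rintro _ ⟨z, rfl⟩
      rw [mem_inv]
      intro g hg
      apply e.injective
      rw [he, hU1 g hg, hf1]
      induction z using TensorProduct.induction_on with
      | zero => simp
      | tmul a u =>
        rw [LinearMap.rTensor_tmul, TensorProduct.map_tmul, LinearMap.id_apply]
        congr 1
        exact mem_inv.1 a.2 g hg
      | add x y hx hy => rw [map_add, map_add, hx, hy]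
    · intro z hz
      rw [mem_inv] at hz
      set b := Module.finBasis K U.V with hb
      set φ := TensorProduct.equivFinsuppOfBasisRight (M := A.V) b with hφ
      have h2 : ∀ (g : D), g ∈ I → ∀ (z : A.V ⊗[K] U.V) i,
          φ (TensorProduct.map (A.act g) (U.act g) z) i = A.act g (φ z i) := by
        intro g hg z i
        rw [hU1 g hg]
        induction z using TensorProduct.induction_on with
        | zero => simp
        | tmul a u =>
          rw [TensorProduct.map_tmul, LinearMap.id_apply, hφ,
            TensorProduct.equivFinsuppOfBasisRight_apply_tmul_apply,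
            TensorProduct.equivFinsuppOfBasisRight_apply_tmul_apply, map_smul]
        | add x y hx hy => rw [map_add, map_add, map_add, Finsupp.add_apply, hx, hy,
            Finsupp.add_apply, map_add]
      have h3 : ∀ i, φ (e z) i ∈ A.inv I := by
        intro i
        rw [mem_inv]
        intro g hg
        rw [← h2 g hg, ← he, hz g hg]
      have h5 : e z ∈ LinearMap.range (LinearMap.rTensor U.V (A.inv I).subtype) := by
        have h4 : e z = φ.symm (φ (e z)) := (φ.symm_apply_apply _).symm
        rw [h4, hφ, TensorProduct.equivFinsuppOfBasisRight_symm_apply]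
        refine Submodule.sum_mem _ fun i _ => ?_
        exact ⟨(⟨φ (e z) i, h3 i⟩ : A.inv I) ⊗ₜ b i, by rw [LinearMap.rTensor_tmul]; rfl⟩
      obtain ⟨y, hy⟩ := h5
      refine ⟨y, e.injective ?_⟩
      rw [hf1, hy]
  set e' := (LinearEquiv.ofInjective _ hinj).trans (LinearEquiv.ofEq _ _ hrange) with he'
  have he1 : ∀ z, ((e' z : C.inv I) : C.V) = f z := fun z => rfl
  unfold tr trace
  rw [← LinearMap.trace_tensorProduct', ← LinearMap.trace_conj' _ e']
  congr 1
  refine LinearMap.ext fun w => ?_
  obtain ⟨z, rfl⟩ := e'.surjective w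
  rw [LinearEquiv.conj_apply, LinearMap.comp_apply, LinearMap.comp_apply, LinearEquiv.coe_coe,
    LinearEquiv.coe_coe, LinearEquiv.symm_apply_apply]
  refine Subtype.ext (e.injective ?_)
  rw [res_coe, he1, he1, he, hf1, hf1]
  induction z using TensorProduct.induction_on with
  | zero => simp
  | tmul a u => rfl
  | add x y hx hy => rw [map_add, map_add, map_add, map_add, hx, hy]

end Rp

end Pool.Agent.Y712.LI
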