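import Pool.Agent.Y99.GH.DefsFour

/-!
# Direct summands, blow-ups of projective spaces: definitions
-/

open CategoryTheory AlgebraicGeometry

universe u v

namespace Pool.Agent.Y712.Mp

open Pool.Agent.H914 Pool.Agent.H914.VarClass Pool.Agent.H914.VarClass.Obj
  Pool.Agent.H914.WeilCohomology Pool.Agent.Y99.GH

variable {k : Type u} [Field k] {𝒱 : VarClass k} {ops : CycleOps 𝒱}

/-- The map from the cohomology of `X` to that of `B` which is given by the cycle `z` on
`X × B`. -/
noncomputable def cor (W : WeilCohomology.{u, v} ops) {X B : 𝒱.Obj} (z : (X.prod B).Cycles)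
    (a : W.H X) : W.H B :=
  (W.corr ((W.cl (X.prod B)).toFun z)).toFun a

/-- The composition of the maps given by the cycle `z` on `X × B` and by the cycle `w` on `B × X` is
the identity of the cohomology of `X`. -/
def Retract (W : WeilCohomology.{u, v} ops) {X B : 𝒱.Obj} (z : (X.prod B).Cycles)
    (w : (B.prod X).Cycles) : Prop :=
  ∀ a, cor W w (cor W z a) = a

/-- `H(X)`, with the degrees shifted by `2 j`, is a direct summand of `H(B)` by algebraic
correspondences: the composition of the maps induced by a cycle `z` of codimension `dim X + j` on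
`X × B` and by a cycle `w` of codimension `dim B - j` on `B × X` is the identity of `H(X)`. -/
def IsSummand (W : WeilCohomology.{u, v} ops) (X B : 𝒱.Obj) (j : ℕ) : Prop :=
  j ≤ B.dim ∧ ∃ z w, (X.prod B).IsCyc (X.dim + j) z ∧ (B.prod X).IsCyc (B.dim - j) w ∧
    Retract W z w

/-- The class `R` of varieties (the blow-ups of projective spaces in one smooth centre) has the
following property: for every `X` and all large `N` there is `B` in `R`, of dimension `N`, the
blow-up of the projective space of dimension `N` along `X`, such that `H(X)`, with the degrees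
shifted by `2 j`, is a direct summand of `H(B)` for `0 < j < N - dim X`. -/
def HasBlowUps (W : WeilCohomology.{u, v} ops) (R : 𝒱.Obj → Prop) : Prop :=
  ∀ X, ∃ n, ∀ N ≥ n, ∃ B, R B ∧ B.dim = N ∧ ∀ j, 0 < j → j + X.dim < N → IsSummand W X B j

/-- For all varieties `B` in `R` with `dim B` even (`e = 0`), respectively odd (`e = 1`), the one
Kunneth projector onto the middle cohomology `H^(dim B)(B)` is algebraic. -/
def MiddleR (W : WeilCohomology.{u, v} ops) (R : 𝒱.Obj → Prop) (e : ℕ) : Prop :=
  ∀ B, R B → B.dim % 2 = e → KunnethOne W B B.dim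

end Pool.Agent.Y712.Mp
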