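import Pool.Agent.Y99.GH.Four
import Pool.Agent.Y712.AJ.MpDefs

/-!
# Kunneth projectors and blow-ups of projective spaces
-/

open CategoryTheory AlgebraicGeometry

universe u v

namespace Pool.Agent.Y712.Mp

open Pool.Agent.H914 Pool.Agent.H447 Pool.Agent.H914.VarClass Pool.Agent.H914.VarClass.Obj
  Pool.Agent.H914.WeilCohomology Pool.Agent.W534 Pool.Agent.W550.B Pool.Agent.Y99.GH

variable {k : Type u} [Field k] {𝒱 : VarClass k} {ops : CycleOps 𝒱}

/-- The sign conjecture for all varieties in `R`. -/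
def SignR (W : WeilCohomology.{u, v} ops) (R : 𝒱.Obj → Prop) : Prop :=
  ∀ B, R B → SignConj W B

/-- The Lefschetz standard conjecture for all varieties in `R`. -/
def LefR (W : WeilCohomology.{u, v} ops) (R : 𝒱.Obj → Prop) : Prop :=
  ∀ B, R B → StandardB W B

variable {W : WeilCohomology.{u, v} ops} {X B : 𝒱.Obj} {R : 𝒱.Obj → Prop}

theorem transport {j : ℕ} (hs : IsSummand W X B j) {p q : ℕ → Prop}
    (hpq : ∀ i, q i ↔ p (i + 2 * j))
    (h : ∃ z, (B.prod B).IsCyc B.dim z ∧ ProjectsOn (W.gr B) p (Y99.GH.act W z)) :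
    ∃ z, (X.prod X).IsCyc X.dim z ∧ ProjectsOn (W.gr X) q (Y99.GH.act W z) := by
  obtain ⟨hj, z, w, hz, hw, hwz⟩ := hs
  replace hwz : ∀ a, W.corr (W.cl _ w) (W.corr (W.cl _ z) a) = a := hwz
  obtain ⟨P, hP, hproj⟩ := h
  have h1 : QOp W X B j (W.corr (W.cl _ z)) := QOp.gen (p := X.dim + j) (by push_cast; ring) hz
  have h2 : QOp W B X (-(j : ℤ)) (W.corr (W.cl _ w)) :=
    QOp.gen (p := B.dim - j) (by push_cast [Nat.cast_sub hj]; ring) hw
  have h3 : QOp W B B 0 (W.corr (W.cl _ P)) := QOp.gen (p := B.dim) (by ring) hP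
  have h4 := h2.comp (h3.comp h1)
  obtain ⟨Q, hQ, hQe⟩ := h4.exists_cyc (p := X.dim) (by ring)
  refine ⟨Q, hQ, fun i a ha => ?_⟩
  have hgr : W.corr (W.cl _ z) a ∈ W.gr B (i + 2 * j) := by
    have h5 := KOp.isHom h1.kop i a (by rw [grZ_natCast]; exact ha)
    rw [show (i : ℤ) + 2 * (j : ℤ) = ((i + 2 * j : ℕ) : ℤ) by push_cast; ring,
      grZ_natCast] at h5
    exact h5
  obtain ⟨h6, h7⟩ := hproj _ _ hgr
  have h8 : Y99.GH.act W Q a = W.corr (W.cl _ w) (Y99.GH.act W P (W.corr (W.cl _ z) a)) := by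
    unfold Y99.GH.act
    rw [hQe]
    rfl
  constructor
  · intro hq
    rw [h8, h6 ((hpq i).1 hq), hwz]
  · intro hq
    rw [h8, h7 fun hp => hq ((hpq i).2 hp), map_zero]

theorem kunneth_transport {j i : ℕ} (hs : IsSummand W X B j)
    (h : KunnethOne W B (i + 2 * j)) : KunnethOne W X i :=
  transport hs (fun l => by omega) h

theorem sign_transport {j : ℕ} (hs : IsSummand W X B j) (h : SignConj W B) : SignConj W X :=
  transport hs (fun l => by
    rw [Nat.even_add]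
    simp) h

theorem allAt_of_middle (hR : HasBlowUps W R) {e : ℕ} (h : MiddleR W R e) :
    AllAt W e 0 := by
  intro X hX _
  obtain ⟨N₀, hN⟩ := hR X
  obtain ⟨B, hB, hBd, hs⟩ := hN (X.dim + 2 * (N₀ + 1)) (by omega)
  have h1 := h B hB (by rw [hBd]; omega)
  rw [hBd] at h1
  exact kunneth_transport (hs (N₀ + 1) (by omega) (by omega)) h1

theorem sign_of_signR (hR : HasBlowUps W R) (h : SignR W R) : AllSign W := by
  intro X
  obtain ⟨N₀, hN⟩ := hR X
  obtain ⟨B, hB, hBd, hs⟩ := hN (N₀ + X.dim + 2) (by omega)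
  exact sign_transport (hs 1 (by omega) (by omega)) (h B hB)

/-- **The theorem.** -/
theorem main (hW : HasSections W) (hR : HasBlowUps W R) :
    [AllB W, AllC W, AllSign W, MiddleR W R 0, MiddleR W R 1, SignR W R, LefR W R].TFAE := by
  obtain ⟨h1, h2⟩ := main_four hW
  tfae_have 2 ↔ 3 := h1.out 0 1
  tfae_have 2 ↔ 1 := h1.out 0 2
  tfae_have 2 → 4 := fun h B _ _ => h B _
  tfae_have 2 → 5 := fun h B _ _ => h B _
  tfae_have 4 → 2 := fun h => (h2 0 0 (by omega)).2 (allAt_of_middle hR h)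
  tfae_have 5 → 2 := fun h => (h2 1 0 (by omega)).2 (allAt_of_middle hR h)
  tfae_have 3 → 6 := fun h B _ => h B
  tfae_have 6 → 3 := sign_of_signR hR
  tfae_have 1 → 7 := fun h B _ => h B
  tfae_have 7 → 6 := by
    intro h B hB
    rw [signConj_iff]
    rcases Nat.eq_zero_or_pos B.dim with h0 | h0
    · exact sign_of_kunneth (kunneth_zero h0)
    · obtain ⟨D, hD, -⟩ := hW.2 B h0
      exact sign_of_kunneth (kunneth_of_lefschetzB hD.1 hD.2 (h B hB D hD))
  tfae_finish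

end Pool.Agent.Y712.Mp
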