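import Pool.Agent.Y101.Aq.CanL
import Pool.Agent.Y101.Aq.VMain

/-!
# Homologically trivial cycles on varieties without odd cohomology

Reduction to cycles of dimension `i` on varieties of dimension `2 i + 2`, and to the powers of the
canonical classes of the rational varieties.
-/

open CategoryTheory AlgebraicGeometry Finset

universe u v w w' w''

namespace Pool.Agent.Y712.Odd

open Pool.Agent.H914 Pool.Agent.H914.VarClass Pool.Agent.H914.VarClass.Obj Pool.Agent.W492.BB
  Pool.Agent.TH133 Pool.Agent.Y101.Aq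

variable {k : Type u} [Field k] {𝒱 : VarClass k} {C : TheoryData.{u, v, 0} 𝒱 ℚ}
  {K : Type w} [Field K]

/-- The homology groups `H_(2j+1)(X) = H^(2 dim X - 2j - 1)(X)` are zero for `j ≤ i`. -/
def OddZero (H : WeilTheoryData.{u, v, w} C K) (i : ℕ) (X : 𝒱.Obj) : Prop :=
  ∀ j ≤ i, ∀ a : H.A X, H.Deg (2 * (X.dim : ℤ) - 2 * j - 1) a → a = 0

/-- The homologically trivial classes of cycles of dimension `i` on `X` are zero in
`CH_i(X)_ℚ`. -/
def HomZero (H : WeilTheoryData.{u, v, w} C K) (i : ℕ) (X : 𝒱.Obj) : Prop :=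
  ∀ a : C.A X, C.Deg ((X.dim : ℤ) - i) a → H.cl a = 0 → a = 0

/-- The weak Lefschetz theorem for `ι : S ⟶ W`, where `S` has dimension `2 i + 2`: the push-forwards
`H_l(S) → H_l(W)` are injective for `l = 2 i` and for the odd `l ≤ 2 i + 1`. -/
structure IsWeakLefschetz (H : WeilTheoryData.{u, v, w} C K) (i : ℕ) {S W : 𝒱.Obj} (ι : S ⟶ W) :
    Prop where
  dim_eq : S.dim = 2 * i + 2
  even : ∀ a : H.A S, H.Deg (2 * ((S.dim : ℤ) - i)) a → H.down ι a = 0 → a = 0
  odd : ∀ j ≤ i, ∀ a : H.A S, H.Deg (2 * (S.dim : ℤ) - 2 * j - 1) a → H.down ι a = 0 → a = 0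

/-- For each class `z` of a cycle of dimension `i` on `X` there are `s : X ⟶ W` and `q : W ⟶ X` with
`q ∘ s` the identity (`W` is the product of `X` and of projective spaces, so that `OddZero` passes from
`X` to `W`) and `ι : S ⟶ W`, `dim S = 2 i + 2`, with the weak Lefschetz property (a smooth complete
intersection), such that `s_* z` is in the image of `ι_*`. -/
def HasSections (H : WeilTheoryData.{u, v, w} C K) : Prop :=
  ∀ (X : 𝒱.Obj) (i : ℕ), i ≤ X.dim → ∀ z : C.A X, C.Deg ((X.dim : ℤ) - i) z →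
    ∃ (S W : 𝒱.Obj) (s : X ⟶ W) (q : W ⟶ X) (ι : S ⟶ W) (y : C.A S),
      s ≫ q = 𝟙 X ∧ (OddZero H i X → OddZero H i W) ∧ IsWeakLefschetz H i ι ∧
      C.Deg ((S.dim : ℤ) - i) y ∧ C.down ι y = C.down s z

/-- If the odd homology in degrees at most `2 i + 1` vanishes then homologically trivial cycles of
dimension `i` are zero: this holds for all varieties if and only if it holds for the varieties of
dimension `2 i + 2`. -/
def DimensionReduction (H : WeilTheoryData.{u, v, w} C K) (i : ℕ) : Prop :=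
  (∀ X : 𝒱.Obj, i ≤ X.dim → OddZero H i X → HomZero H i X) ↔
    ∀ X : 𝒱.Obj, X.dim = 2 * i + 2 → OddZero H i X → HomZero H i X

/-- The homologically trivial classes on `X` are zero, in all codimensions. -/
def AllHomZero (H : WeilTheoryData.{u, v, w} C K) (X : 𝒱.Obj) : Prop :=
  ∀ (i : ℤ) (a : C.A X), C.Deg i a → H.cl a = 0 → a = 0

/-- If a power `n ≥ 1` of the canonical class of `X` is homologically trivial, then it is zero. -/
def CanZero (can : ∀ X : 𝒱.Obj, C.A X) (H : WeilTheoryData.{u, v, w} C K) (X : 𝒱.Obj) : Prop :=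
  ∀ n : ℕ, 1 ≤ n → H.cl (can X ^ n) = 0 → can X ^ n = 0

/-- If `dim X = 2 n`, `n ≥ 1`, and `v ^ n` is homologically trivial for a divisor `v` on `X`, then
`v ^ n` is zero. -/
def MiddleZero (D : BundleData.{u, v, w''} C) (H : WeilTheoryData.{u, v, w} C K) (X : 𝒱.Obj) :
    Prop :=
  ∀ n : ℕ, 1 ≤ n → X.dim = 2 * n → ∀ v ∈ D.L X, H.cl (v ^ n) = 0 → v ^ n = 0

/-- If the Chern classes `c_i(E)`, `i ≥ 1`, of a vector bundle `E` on `X` are homologically trivial
then they are zero. -/
def BundleZero (D : BundleData.{u, v, w''} C) (H : WeilTheoryData.{u, v, w} C K) (X : 𝒱.Obj) :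
    Prop :=
  ∀ E : D.B X, (∀ i : ℕ, 1 ≤ i → H.cl (D.c E i) = 0) → ∀ i : ℕ, 1 ≤ i → D.c E i = 0

/-- If `E` is a vector bundle of rank `r ≥ 1` on `X` with `c_1(E) = - can X`, and the `(r + 1)`-st power
of the canonical class of `P(E)` is homologically trivial, then it is zero. -/
def AnticanonicalZero (D : BundleData.{u, v, w''} C) (can : ∀ X : 𝒱.Obj, C.A X)
    (H : WeilTheoryData.{u, v, w} C K) (X : 𝒱.Obj) : Prop :=
  ∀ E : D.B X, 1 ≤ D.rk E → can X + D.c E 1 = 0 →
    H.cl (can (D.P E) ^ (D.rk E + 1)) = 0 → can (D.P E) ^ (D.rk E + 1) = 0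

section

variable {H : WeilTheoryData.{u, v, w} C K} [hC : IsChowProj C]

include hC

theorem dim_reduction [hH : IsWeilProj H] (hS : HasSections H) (i : ℕ) :
    DimensionReduction H i := by
  constructor
  · intro h X hX
    exact h X (by omega)
  · intro h X hi hodd a ha1 ha2
    obtain ⟨S, W, s, q, ι, y, hsq, hW, hL, hy, hyz⟩ := hS X i hi a ha1
    have hcl := hH.isClassMap
    have hWodd := hW hodd
    have hSodd : OddZero H i S := by
      intro j hj b hb
      refine hL.odd j hj b hb (hWodd j hj _ ?_)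
      have h1 := hH.isTheory.hasDegrees.push_mem ι hb
      have e : 2 * (S.dim : ℤ) - 2 * j - 1 + 2 * ((W.dim : ℤ) - S.dim) =
          2 * (W.dim : ℤ) - 2 * j - 1 := by ring
      rwa [e] at h1
    have e2 : H.cl (C.down s a) = 0 := by
      rw [hcl.cl_push, ha2]
      exact map_zero _
    have e3 : H.cl y = 0 := by
      refine hL.even _ (hcl.cl_mem hy) ?_
      rw [← hcl.cl_push, hyz, e2]
    have e5 : y = 0 := h S hL.dim_eq hSodd y hy e3
    have e6 : C.down s a = 0 := by
      rw [← hyz, e5]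
      exact map_zero _
    have e7 : C.down q (C.down s a) = a := by
      rw [← hC.isTheory.isFunctor.push_comp, hsq, hC.isTheory.isFunctor.push_id]
    rw [← e7, e6]
    exact map_zero _

lemma allHomZero_iff [hH : IsWeilProj H] (X : 𝒱.Obj) :
    AllHomZero H X ↔ Implies (homFam H) (zeroFam C) X := by
  constructor
  · intro h i _ x hx
    exact h i x hx.1 hx.2
  · intro h i x hx hcl
    rcases le_or_gt i 0 with hi | hi
    · exact zero_of_cl (H := H) hi hx hcl
    · obtain ⟨n, rfl⟩ := Int.eq_ofNat_of_zero_le hi.le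
      exact h n (by omega) x ⟨hx, hcl⟩

lemma allHomZero_iff' [hH : IsWeilProj H] (X : 𝒱.Obj) :
    AllHomZero H X ↔ ∀ i, ∀ x ∈ homFam H X i, x ∈ zeroFam C X i := by
  rw [allHomZero_iff]
  constructor
  · intro h i x hx
    rcases Nat.eq_zero_or_pos i with rfl | hi
    · exact zero_of_cl (H := H) le_rfl hx.1 hx.2
    · exact h i hi x hx
  · intro h i _
    exact h i

variable {D : BundleData.{u, v, w''} C} (hD : IsBundleTheory D)

include hD

/-- **Homologically trivial cycles and the powers of the canonical classes of the rational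
varieties.** -/
theorem hom_global [hH : IsWeilProj H] {can : ∀ X : 𝒱.Obj, C.A X}
    (hcan : IsCanonical D can) {R : 𝒱.Obj → Prop} (hR : IsRationalClass D R) :
    List.TFAE [∀ X, AllHomZero H X, ∀ X, R X → CanZero can H X, ∀ X, R X → MiddleZero D H X,
      ∀ X, R X → BundleZero D H X] := by
  have h := canonical_global (isBasic hC) hD hcan hR (homFam_adequate hC hH.isClassMap)
    (zeroFam_adequate C)
  have e1 : ∀ X, CanZero can H X ↔ ImpliesForCan can (homFam H) (zeroFam C) X := by
    intro X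
    have hd : ∀ n : ℕ, C.Deg n (can X ^ n) := vpow_deg hD (hcan.mem X)
    exact ⟨fun h n hn hx => h n hn hx.2, fun h n hn hx => h n hn ⟨hd n, hx⟩⟩
  have e2 : ∀ X, MiddleZero D H X ↔ ImpliesInMiddle D (homFam H) (zeroFam C) X := by
    intro X
    exact ⟨fun h v hv n hn hd hx => h n hn hd v hv hx.2,
      fun h n hn hd v hv hx => h v hv n hn hd ⟨vpow_deg hD hv n, hx⟩⟩
  have e3 : ∀ X, BundleZero D H X ↔ ImpliesForBundles D (homFam H) (zeroFam C) X := by
    intro X
    exact ⟨fun h E hE => h E (fun i hi => (hE i hi).2),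
      fun h E hE => h E (fun i hi => ⟨hD.chern.c_mem E i, hE i hi⟩)⟩
  simp only [e1, e2, e3, allHomZero_iff]
  tfae_have 1 ↔ 2 := h.out 0 3
  tfae_have 1 ↔ 3 := h.out 0 2
  tfae_have 1 ↔ 4 := h.out 0 1
  tfae_finish

/-- **Homologically trivial cycles on one variety and the canonical classes of the projective
bundles.** -/
theorem hom_local [hH : IsWeilProj H] {can : ∀ X : 𝒱.Obj, C.A X}
    (hcan : IsCanonical D can) (X : 𝒱.Obj)
    (h1 : ∀ a : C.A X, C.Deg 1 a → H.cl a = 0 → a = 0) :
    List.TFAE [AllHomZero H X, AnticanonicalZero D can H X, BundleZero D H X,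
      ∀ E : D.B X, 1 ≤ D.rk E → AllHomZero H (D.P E)] := by
  have h01 : ∀ i ≤ 1, ∀ x ∈ homFam H X i, x ∈ zeroFam C X i := by
    intro i hi x hx
    rcases Nat.eq_zero_or_pos i with rfl | hi0
    · exact zero_of_cl (H := H) le_rfl hx.1 hx.2
    · obtain rfl : i = 1 := by omega
      exact h1 x hx.1 hx.2
  have h := canonical_local (isBasic hC) hD hcan (homFam_adequate hC hH.isClassMap)
    (zeroFam_adequate C) X h01
  have e1 : AnticanonicalZero D can H X ↔ ImpliesForAnti D can (homFam H) (zeroFam C) X := by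
    constructor
    · intro h E hr hE hx
      exact h E hr hE hx.2
    · intro h E hr hE hx
      exact h E hr hE ⟨vpow_deg hD (hcan.mem (D.P E)) (D.rk E + 1), hx⟩
  have e3 : BundleZero D H X ↔ ImpliesForBundles D (homFam H) (zeroFam C) X :=
    ⟨fun h E hE => h E (fun i hi => (hE i hi).2),
      fun h E hE => h E (fun i hi => ⟨hD.chern.c_mem E i, hE i hi⟩)⟩
  simp only [allHomZero_iff', e1, e3]
  tfae_have 1 ↔ 2 := h.out 0 3
  tfae_have 1 ↔ 3 := h.out 0 1
  tfae_have 1 ↔ 4 := h.out 0 2
  tfae_finish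

end

end Pool.Agent.Y712.Odd
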