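import Mathlib

/-!
# Cycles on smooth quasi-projective varieties, vector bundles and Abel-Jacobi maps

`SmV k` are the smooth schemes over a field `k`, `Data` is the raw data: the Chow rings with
rational coefficients, pull-backs, the cycle class maps and Abel-Jacobi maps, vector bundles with
their Chern classes and Chern characters, and the classes of closed subvarieties.
-/

open CategoryTheory AlgebraicGeometry Finset

namespace Pool.Agent.Y712.QP

/-- A scheme, smooth of pure dimension `dim` over the field `k`. -/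
structure SmV (k : Type) [Field k] where
  /-- the underlying scheme -/
  X : Scheme.{0}
  /-- the structure morphism -/
  str : X ⟶ Spec (.of k)
  /-- the dimension -/
  dim : ℕ
  /-- smoothness -/
  smooth : SmoothOfRelativeDimension dim str

variable {k : Type} [Field k]

/-- A morphism over `k`. -/
structure Mor (X Y : SmV k) where
  /-- the underlying morphism -/
  hom : X.X ⟶ Y.X
  /-- it is a morphism over `k` -/
  w : hom ≫ Y.str = X.str

/-- The scheme is affine. -/
def SmV.Aff (X : SmV k) : Prop := IsAffine X.X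

/-- The morphism is a closed immersion. -/
def Mor.Closed {X Y : SmV k} (f : Mor X Y) : Prop := IsClosedImmersion f.hom

/-- Raw data: Chow rings, cycle class maps, Abel-Jacobi maps, vector bundles. -/
structure Data (k : Type) [Field k] where
  /-- the quasi-projective varieties among the smooth schemes -/
  QProj : SmV k → Prop
  /-- the Chow ring with rational coefficients -/
  A : SmV k → Type
  /-- it is a commutative ring -/
  [ring : ∀ X, CommRing (A X)]
  /-- it is an algebra over the rational numbers -/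
  [alg : ∀ X, Algebra ℚ (A X)]
  /-- the classes of codimension `n` -/
  gr : ∀ X, ℕ → Submodule ℚ (A X)
  /-- pull-back -/
  pull : ∀ {X Y : SmV k}, Mor X Y → (A Y →ₐ[ℚ] A X)
  /-- the class of a closed subvariety `Z` -/
  cyc : ∀ {Z X : SmV k}, Mor Z X → A X
  /-- the cohomology, with rational coefficients -/
  H : SmV k → Type
  /-- it is an abelian group -/
  [grpH : ∀ X, AddCommGroup (H X)]
  /-- the cycle class map -/
  cl : ∀ X, A X →+ H X
  /-- the sum of the intermediate Jacobians, with rational coefficients -/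
  J : SmV k → Type
  /-- it is an abelian group -/
  [grpJ : ∀ X, AddCommGroup (J X)]
  /-- the Abel-Jacobi map, used for homologically trivial classes only -/
  aj : ∀ X, A X → J X
  /-- the algebraic vector bundles of constant rank -/
  Bun : SmV k → Type
  /-- the rank -/
  rk : ∀ {X : SmV k}, Bun X → ℕ
  /-- the Chern classes -/
  c : ∀ {X : SmV k}, Bun X → ℕ → A X
  /-- the components of the Chern character -/
  ch : ∀ {X : SmV k}, Bun X → ℕ → A X
  /-- the bundle is trivial -/
  Triv : ∀ {X : SmV k}, Bun X → Prop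
  /-- the tangent bundle -/
  tan : ∀ X, Bun X

attribute [instance] Data.ring Data.alg Data.grpH Data.grpJ

section Defs

variable (D : Data k) {X Y : SmV k}

/-- the sum of two classes -/
def Data.add (a b : D.A X) : D.A X := a + b

/-- the product of two classes -/
def Data.mul (a b : D.A X) : D.A X := a * b

/-- the power `a ^ n` of a class -/
def Data.pow (a : D.A X) (n : ℕ) : D.A X := a ^ n

/-- the rational multiple `q a` of a class -/
def Data.scale (q : ℚ) (a : D.A X) : D.A X := q • a

/-- The class is zero. -/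
def Data.IsZero (a : D.A X) : Prop := a = 0

/-- The class `a` has codimension `n`. -/
def Data.Codim (n : ℕ) (a : D.A X) : Prop := a ∈ D.gr X n

/-- the pull-back `f^* a` -/
def Data.up (f : Mor X Y) (a : D.A Y) : D.A X := D.pull f a

/-- The pull-back along `f` is injective on the Chow rings. -/
def Data.Inj (f : Mor X Y) : Prop := Function.Injective (D.pull f)

/-- The class `a` is homologically trivial and the Abel-Jacobi map is zero on `a`. -/
def Data.AJTriv (a : D.A X) : Prop := D.cl X a = 0 ∧ D.aj X a = 0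

/-- `X` is smooth, quasi-projective and affine. -/
def Data.IsAff (X : SmV k) : Prop := D.QProj X ∧ X.Aff

/-- **The question**: on all smooth quasi-projective varieties the Abel-Jacobi maps are injective on
the homologically trivial classes of all codimensions. -/
def Injectivity : Prop :=
  ∀ X n (a : D.A X), D.QProj X → D.Codim n a → D.AJTriv a → D.IsZero a

/-- If the class `a` is in the kernel of the Abel-Jacobi map then it is zero. -/
def Data.Ok (a : D.A X) : Prop := D.AJTriv a → D.IsZero a

/-- The powers `c_1(L) ^ n` of the classes of line bundles on smooth affine varieties, `n ∈ M`, do not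
contradict injectivity. -/
def LinePowers (M : Set ℕ) : Prop :=
  ∀ X (L : D.Bun X) n, D.IsAff X → D.rk L = 1 → n ∈ M → D.Ok (D.pow (D.c L 1) n)

/-- The same for the smooth affine varieties with trivial tangent bundle only. -/
def LinePowersTriv (M : Set ℕ) : Prop :=
  ∀ X (L : D.Bun X) n, D.IsAff X → D.Triv (D.tan X) → D.rk L = 1 → n ∈ M →
    D.Ok (D.pow (D.c L 1) n)

/-- The powers of the first Chern class `c_1(T_X)`, the negative of the canonical class, do not
contradict injectivity, for smooth affine `X`. -/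
def CanonicalPowers (M : Set ℕ) : Prop :=
  ∀ X n, D.IsAff X → n ∈ M → D.Ok (D.pow (D.c (D.tan X) 1) n)

/-- If all Chern classes `c_i(E)`, `i > 0`, are in the kernel of the Abel-Jacobi maps, then they are
all zero. -/
def Data.BunOk (E : D.Bun X) : Prop :=
  (∀ i, 0 < i → D.AJTriv (D.c E i)) → ∀ i, 0 < i → D.IsZero (D.c E i)

/-- This is so for all vector bundles on smooth affine varieties. -/
def Bundles : Prop := ∀ X (E : D.Bun X), D.IsAff X → D.BunOk E

/-- This is so for the tangent bundles of all smooth affine varieties. -/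
def TangentBundles : Prop := ∀ X, D.IsAff X → D.BunOk (D.tan X)

/-- The classes of smooth closed subvarieties of codimension `n ∈ M` of smooth affine varieties with
trivial tangent bundle do not contradict injectivity. -/
def Subvarieties (M : Set ℕ) : Prop :=
  ∀ X Z (f : Mor Z X) n, D.IsAff X → D.Triv (D.tan X) → f.Closed → n ∈ M →
    D.Codim n (D.cyc f) → D.Ok (D.cyc f)

/-- The Chow rings are graded, and pull-backs preserve the codimension. -/
structure IsGraded : Prop where
  mul : ∀ X m n (a b : D.A X), D.Codim m a → D.Codim n b → D.Codim (m + n) (D.mul a b)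
  one : ∀ X, D.Codim 0 (1 : D.A X)
  pull : ∀ X Y (f : Mor X Y) n a, D.Codim n a → D.Codim n (D.up f a)
  c : ∀ X (E : D.Bun X) i, D.Codim i (D.c E i)

/-- The classes in the kernel of the Abel-Jacobi maps form an ideal, stable under pull-backs, and
there are none of codimension zero. -/
structure IsAJ : Prop where
  zero : ∀ X, D.AJTriv (0 : D.A X)
  add : ∀ X (a b : D.A X), D.QProj X → D.AJTriv a → D.AJTriv b → D.AJTriv (D.add a b)
  mul : ∀ X (a b : D.A X), D.QProj X → D.AJTriv b → D.AJTriv (D.mul a b)
  pull : ∀ X Y (f : Mor X Y) a, D.QProj X → D.QProj Y → D.AJTriv a → D.AJTriv (D.up f a)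
  codim_zero : ∀ X (a : D.A X), D.QProj X → D.Codim 0 a → D.Ok a

/-- the summand number `i` in Newton's formula for `k c_k` -/
def Data.newtonTerm (E : D.Bun X) (k i : ℕ) : D.A X :=
  D.scale ((-1) ^ i * (i + 1).factorial) (D.mul (D.c E (k - 1 - i)) (D.ch E (i + 1)))

/-- Newton's formula `k c_k = ∑ (-1) ^ i (i + 1)! c_(k - 1 - i) ch_(i + 1)`, the sum over
`0 ≤ i < k`. -/
def Data.Newton (E : D.Bun X) : Prop :=
  ∀ k : ℕ, D.scale k (D.c E k) = ∑ i ∈ range k, D.newtonTerm E k i

/-- `F` has the Chern classes and the rank of `f^* E`. -/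
def Data.IsPull (f : Mor X Y) (E : D.Bun Y) (F : D.Bun X) : Prop :=
  D.rk F = D.rk E ∧ ∀ i, D.c F i = D.up f (D.c E i)

/-- `F` has the Chern classes of `E`, and rank `rk E + m`: the sum with a trivial bundle. -/
def Data.IsStab (E F : D.Bun X) (m : ℕ) : Prop :=
  D.rk F = D.rk E + m ∧ ∀ i, D.c F i = D.c E i

/-- `ch_i(G) = ch_i(E) - ch_i(F)` for `i > 0`: such a `G` exists on affine varieties, since `F` is
there a direct summand of a trivial bundle. -/
def Data.IsDiff (E F G : D.Bun X) : Prop :=
  ∀ i, 0 < i → D.add (D.ch G i) (D.ch F i) = D.ch E i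

/-- `ch_i(T_V) = f^* (ch_i(T_X) + ch_i(F))` for `i > 0`, for the total space `f : V ⟶ X` of the
bundle `F`. -/
def Data.TangentOf (f : Mor X Y) (F : D.Bun Y) : Prop :=
  ∀ i, 0 < i → D.ch (D.tan X) i = D.up f (D.add (D.ch (D.tan Y) i) (D.ch F i))

/-- the summand `c_i(E) x ^ (r - i)` of the equation of the projective bundle -/
def Data.term (f : Mor X Y) (E : D.Bun Y) (x : D.A X) (i : ℕ) : D.A X :=
  D.mul (D.up f (D.c E i)) (D.pow x (D.rk E - i))

/-- `f : P ⟶ X` is the projective bundle of `E`, and `x` the first Chern class of `O(1)`: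
the sum of the `c_i(E) x ^ (r - i)`, `0 ≤ i ≤ r`, is zero, and `1, x, …, x ^ (r - 1)` are linearly
independent over the Chow ring of `X`. -/
def Data.IsProjBundle (f : Mor X Y) (E : D.Bun Y) (x : D.A X) : Prop :=
  ∑ i ∈ range (D.rk E + 1), D.term f E x i = 0 ∧
    ∀ a : ℕ → D.A Y, ∑ i ∈ range (D.rk E), D.mul (D.up f (a i)) (D.pow x i) = 0 →
      ∀ i < D.rk E, D.IsZero (a i)

/-- The standard properties of vector bundles and Chern classes. -/
structure IsBundleTheory : Prop where
  c_zero : ∀ X (E : D.Bun X), D.c E 0 = 1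
  c_rk : ∀ X (E : D.Bun X) i, D.rk E < i → D.IsZero (D.c E i)
  newton : ∀ X (E : D.Bun X), D.Newton E
  /-- sums with trivial bundles -/
  stab : ∀ X (E : D.Bun X) m, ∃ F, D.IsStab E F m
  /-- pull-back of bundles -/
  pull : ∀ X Y (f : Mor X Y) (E : D.Bun Y), ∃ F : D.Bun X, D.IsPull f E F
  /-- differences of bundles on affine varieties -/
  diff : ∀ X (E F : D.Bun X), D.IsAff X → ∃ G : D.Bun X, D.IsDiff E F G
  /-- the Chern character is an isomorphism `K_0(X) ⊗ ℚ ≅ CH(X) ⊗ ℚ`, and every element of `K_0(X)` is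
  the difference of a bundle and a trivial bundle, for affine `X` -/
  exists_ch : ∀ X n (a : D.A X), D.IsAff X → 0 < n → D.Codim n a → ∃ (E : D.Bun X) (N : ℚ),
    N ≠ 0 ∧ D.ch E n = D.scale N a ∧ ∀ i, 0 < i → i ≠ n → D.IsZero (D.ch E i)

/-- The standard constructions: Jouanolou's affine bundles, projective bundles, total spaces of
bundles, zero sets of general sections. -/
structure HasConstructions : Prop where
  /-- Jouanolou's trick -/
  jouanolou : ∀ X, D.QProj X → ∃ (W : SmV k) (f : Mor W X), D.IsAff W ∧ D.Inj f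
  /-- projective bundles -/
  proj : ∀ X (E : D.Bun X), D.QProj X → 0 < D.rk E → ∃ (P : SmV k) (f : Mor P X) (L : D.Bun P),
    D.QProj P ∧ D.rk L = 1 ∧ D.IsProjBundle f E (D.c L 1)
  /-- the total space `V` of a bundle `F` over an affine variety -/
  total : ∀ X (F : D.Bun X), D.IsAff X → ∃ (V : SmV k) (f : Mor V X), D.IsAff V ∧ D.Inj f ∧
    D.TangentOf f F
  /-- the total space `V` of a complement of the tangent bundle in a trivial bundle -/
  parallel : ∀ X, D.IsAff X → ∃ (V : SmV k) (f : Mor V X), D.IsAff V ∧ D.Inj f ∧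
    D.Triv (D.tan V)
  /-- Bertini's theorem: the zero set of `n` general sections of a line bundle -/
  bertini : ∀ X (L : D.Bun X) n, D.IsAff X → D.rk L = 1 → 0 < n →
    ∃ (Z : SmV k) (f : Mor Z X), f.Closed ∧ D.Codim n (D.cyc f) ∧ D.cyc f = D.pow (D.c L 1) n

end Defs

variable {D : Data k} {X Y : SmV k}

section lemmas

variable (hJ : IsAJ D) (hB : IsBundleTheory D)

include hJ in
theorem triv_scale (hX : D.QProj X) (q : ℚ) {a : D.A X} (ha : D.AJTriv a) :
    D.AJTriv (q • a) := by
  have h1 := hJ.mul X (algebraMap ℚ (D.A X) q) a hX ha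
  unfold Data.mul at h1
  rwa [Algebra.smul_def]

include hJ in
theorem triv_neg (hX : D.QProj X) {a : D.A X} (ha : D.AJTriv a) : D.AJTriv (-a) := by
  have h1 := triv_scale hJ hX (-1) ha
  rwa [neg_smul, one_smul] at h1

include hJ in
theorem triv_sum (hX : D.QProj X) {ι : Type} (s : Finset ι) (a : ι → D.A X)
    (ha : ∀ i ∈ s, D.AJTriv (a i)) : D.AJTriv (∑ i ∈ s, a i) := by
  classical
  induction s using Finset.induction_on with
  | empty => simpa using hJ.zero X
  | insert i s hi ih =>
    rw [Finset.sum_insert hi]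
    exact hJ.add X _ _ hX (ha i (Finset.mem_insert_self i s))
      (ih fun j hj => ha j (Finset.mem_insert_of_mem hj))

include hJ hB in
/-- If the Chern character is in the kernel in positive degrees, so are the Chern classes. -/
theorem triv_c (hX : D.QProj X) (E : D.Bun X) (hE : ∀ i, 0 < i → D.AJTriv (D.ch E i)) (i : ℕ)
    (hi : 0 < i) : D.AJTriv (D.c E i) := by
  have h1 := hB.newton X E i
  have h2 : D.AJTriv (∑ j ∈ range i, D.newtonTerm E i j) := by
    refine triv_sum hJ hX _ _ fun j _ => ?_
    unfold Data.newtonTerm Data.scale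
    exact triv_scale hJ hX _ (hJ.mul X _ _ hX (hE _ (Nat.succ_pos j)))
  rw [← h1] at h2
  unfold Data.scale at h2
  have h3 := triv_scale hJ hX ((i : ℚ)⁻¹) h2
  rwa [smul_smul, inv_mul_cancel₀ (by exact_mod_cast hi.ne'), one_smul] at h3

include hB in
/-- If the Chern classes vanish in positive degrees, so does the Chern character. -/
theorem ch_eq_zero (E : D.Bun X) (hE : ∀ i, 0 < i → D.c E i = 0) (i : ℕ) (hi : 0 < i) :
    D.ch E i = 0 := by
  have h1 := hB.newton X E i
  rw [hE i hi] at h1
  unfold Data.scale at h1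
  rw [smul_zero] at h1
  obtain ⟨n, rfl⟩ := Nat.exists_eq_succ_of_ne_zero hi.ne'
  rw [Nat.succ_eq_add_one, Finset.sum_range_succ, Finset.sum_eq_zero, zero_add] at h1
  · unfold Data.newtonTerm Data.scale Data.mul at h1
    rw [show n + 1 - 1 - n = 0 by omega, hB.c_zero, one_mul] at h1
    have h2 : ((-1 : ℚ) ^ n * ((n + 1).factorial : ℚ)) ≠ 0 :=
      mul_ne_zero (pow_ne_zero _ (by norm_num)) (by exact_mod_cast (n + 1).factorial_ne_zero)
    exact (smul_eq_zero.mp h1.symm).resolve_left h2
  · intro j hj
    rw [Finset.mem_range] at hj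
    unfold Data.newtonTerm Data.scale Data.mul
    rw [hE _ (by omega : 0 < n + 1 - 1 - j), zero_mul, smul_zero]

include hB in
/-- The Chern classes are determined by the Chern character. -/
theorem c_eq_up (f : Mor X Y) (E : D.Bun Y) (F : D.Bun X)
    (h : ∀ i, 0 < i → D.ch F i = D.up f (D.ch E i)) (i : ℕ) : D.c F i = D.up f (D.c E i) := by
  induction i using Nat.strong_induction_on with
  | _ i ih =>
    rcases Nat.eq_zero_or_pos i with rfl | hi
    · rw [hB.c_zero, hB.c_zero]
      exact (map_one (D.pull f)).symm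
    · have h1 := hB.newton X F i
      have h2 := hB.newton Y E i
      have h3 : ∑ j ∈ range i, D.newtonTerm F i j = D.pull f (∑ j ∈ range i, D.newtonTerm E i j) := by
        rw [map_sum]
        refine Finset.sum_congr rfl fun j hj => ?_
        rw [Finset.mem_range] at hj
        unfold Data.newtonTerm Data.scale Data.mul
        rw [map_smul, map_mul, ih _ (by omega), h _ (Nat.succ_pos j)]
        rfl
      rw [← h1, ← h2] at h3
      unfold Data.scale at h3
      rw [map_smul] at h3
      have h4 := congrArg (fun z => (i : ℚ)⁻¹ • z) h3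
      simp only [smul_smul] at h4
      rw [inv_mul_cancel₀ (by exact_mod_cast hi.ne'), one_smul, one_smul] at h4
      exact h4

include hJ in
theorem ok_of_up {f : Mor X Y} (hX : D.QProj X) (hY : D.QProj Y) (hf : D.Inj f) {a : D.A Y}
    (h : D.Ok (D.up f a)) : D.Ok a := by
  intro ha
  have h1 := h (hJ.pull X Y f a hX hY ha)
  exact hf (by rw [map_zero]; exact h1)

theorem codim_pow (hG : IsGraded D) (a : D.A X) (ha : D.Codim 1 a) (n : ℕ) :
    D.Codim n (D.pow a n) := by
  induction n with
  | zero => simpa [Data.pow] using hG.one X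
  | succ n ih =>
    have h1 := hG.mul X n 1 _ _ ih ha
    unfold Data.mul Data.pow at h1
    unfold Data.pow
    rwa [pow_succ]

end lemmas

section main

variable (hG : IsGraded D) (hJ : IsAJ D) (hB : IsBundleTheory D) (hC : HasConstructions D)
  {M : Set ℕ}

include hJ hB hC in
theorem linePowers_of_triv (h : LinePowersTriv D M) : LinePowers D M := by
  intro X L n hX hL hn
  obtain ⟨V, f, hV, hf, ht⟩ := hC.parallel X hX
  obtain ⟨L', hL1, hL2⟩ := hB.pull V X f L
  refine ok_of_up hJ hV.1 hX.1 hf ?_
  have h1 := h V L' n hV ht (hL1.trans hL) hn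
  unfold Data.pow at h1 ⊢
  unfold Data.up at hL2 ⊢
  rw [map_pow, ← hL2]
  exact h1

include hJ hB hC in
theorem linePowers_of_canonical (h : CanonicalPowers D M) : LinePowers D M := by
  intro X L n hX hL hn
  obtain ⟨G, hG⟩ := hB.diff X L (D.tan X) hX
  obtain ⟨V, f, hV, hf, ht⟩ := hC.total X G hX
  refine ok_of_up hJ hV.1 hX.1 hf ?_
  have h1 := h V n hV hn
  have h2 : D.c (D.tan V) 1 = D.up f (D.c L 1) := by
    refine c_eq_up hB f L _ (fun i hi => ?_) 1
    rw [ht i hi, ← hG i hi]
    unfold Data.add
    rw [add_comm]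
  rw [h2] at h1
  unfold Data.pow Data.up at h1 ⊢
  rwa [map_pow]

include hJ hB hC in
theorem bundles_of_tangent (h : TangentBundles D) : Bundles D := by
  intro X E hX hE
  obtain ⟨G, hG⟩ := hB.diff X E (D.tan X) hX
  obtain ⟨V, f, hV, hf, ht⟩ := hC.total X G hX
  have h2 : ∀ i, D.c (D.tan V) i = D.up f (D.c E i) := by
    refine c_eq_up hB f E _ (fun i hi => ?_)
    rw [ht i hi, ← hG i hi]
    unfold Data.add
    rw [add_comm]
  intro i hi
  have h3 := h V hV (fun j hj => by rw [h2]; exact hJ.pull V X f _ hV.1 hX.1 (hE j hj)) i hi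
  rw [h2] at h3
  exact hf (by rw [map_zero]; exact h3)

include hJ hB hC in
theorem bundles_of_linePowers (hM : M.Infinite) (h : LinePowers D M) : Bundles D := by
  intro X E hX hE
  obtain ⟨m, hm, hlt⟩ := hM.exists_gt (D.rk E)
  obtain ⟨F, hF1, hF2⟩ := hB.stab X E (m - D.rk E)
  have hFr : D.rk F = m := by omega
  obtain ⟨P, f, L, hP, hL, hrel, hind⟩ := hC.proj X F hX.1 (by omega)
  obtain ⟨W, g, hW, hg⟩ := hC.jouanolou P hP
  obtain ⟨L', hL1, hL2⟩ := hB.pull W P g L
  have hx : D.AJTriv (D.c L 1 ^ m) := by
    rw [Finset.sum_range_succ'] at hrel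
    unfold Data.term Data.mul Data.pow at hrel
    rw [hB.c_zero, hFr, Nat.sub_zero] at hrel
    unfold Data.up at hrel
    rw [map_one, one_mul] at hrel
    rw [eq_neg_of_add_eq_zero_right hrel]
    refine triv_neg hJ hP (triv_sum hJ hP _ _ fun i _ => ?_)
    rw [mul_comm]
    refine hJ.mul P _ _ hP (hJ.pull P X f _ hP hX.1 ?_)
    rw [hF2]
    exact hE _ (Nat.succ_pos i)
  have hx0 : D.c L 1 ^ m = 0 := by
    have h1 := h W L' m hW (hL1.trans hL) hm
    have h2 : D.pow (D.c L' 1) m = D.up g (D.c L 1 ^ m) := by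
      unfold Data.pow
      rw [hL2]
      unfold Data.up
      rw [map_pow]
    rw [h2] at h1
    exact ok_of_up hJ hW.1 hP hg h1 hx
  have hzero : ∀ i < m, D.c F (m - i) = 0 := by
    intro i hi
    refine hind (fun j => D.c F (m - j)) ?_ i (hFr.symm ▸ hi)
    rw [Finset.sum_range_succ'] at hrel
    unfold Data.term Data.mul Data.pow at hrel
    rw [hB.c_zero, hFr, Nat.sub_zero] at hrel
    unfold Data.up at hrel
    rw [map_one, one_mul, hx0, add_zero] at hrel
    rw [hFr, ← Finset.sum_range_reflect]
    unfold Data.mul Data.pow Data.up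
    rw [← hrel]
    refine Finset.sum_congr rfl fun j hj => ?_
    rw [Finset.mem_range] at hj
    rw [show m - (m - 1 - j) = j + 1 by omega, show m - 1 - j = m - (j + 1) by omega]
  intro i hi
  rw [← hF2]
  by_cases him : i ≤ m
  · have h1 := hzero (m - i) (by omega)
    rwa [show m - (m - i) = i by omega] at h1
  · exact hB.c_rk X F i (by omega)

include hG hJ hB hC in
theorem injectivity_of_bundles (h : Bundles D) : Injectivity D := by
  intro X n a hX ha hat
  rcases Nat.eq_zero_or_pos n with rfl | hn
  · exact hJ.codim_zero X a hX ha hat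
  · obtain ⟨W, f, hW, hf⟩ := hC.jouanolou X hX
    have h1 := hJ.pull W X f a hW.1 hX hat
    obtain ⟨E, N, hN, hE1, hE2⟩ := hB.exists_ch W n (D.up f a) hW hn (hG.pull W X f n a ha)
    have h2 : ∀ i, 0 < i → D.AJTriv (D.ch E i) := by
      intro i hi
      by_cases hin : i = n
      · rw [hin, hE1]
        exact triv_scale hJ hW.1 N h1
      · rw [show D.ch E i = 0 from hE2 i hi hin]
        exact hJ.zero W
    have h3 := h W E hW (triv_c hJ hB hW.1 E h2)
    have h4 := ch_eq_zero hB E h3 n hn
    rw [hE1] at h4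
    have h5 := (smul_eq_zero.mp h4).resolve_left hN
    exact hf (by rw [map_zero]; exact h5)

include hG hJ hB hC in
/-- The theorem. -/
theorem main (hM : M.Infinite) :
    [Injectivity D, LinePowers D M, LinePowersTriv D M, CanonicalPowers D M, Bundles D,
      TangentBundles D, Subvarieties D M].TFAE := by
  tfae_have 1 → 2 := fun h X L n hX _ _ => h X n _ hX.1 (codim_pow hG _ (hG.c X L 1) n)
  tfae_have 1 → 4 := fun h X n hX _ => h X n _ hX.1 (codim_pow hG _ (hG.c X _ 1) n)
  tfae_have 1 → 7 := fun h X Z f n hX _ _ _ hc => h X n _ hX.1 hc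
  tfae_have 2 → 3 := fun h X L n hX _ hL hn => h X L n hX hL hn
  tfae_have 3 → 2 := linePowers_of_triv hJ hB hC
  tfae_have 4 → 2 := linePowers_of_canonical hJ hB hC
  tfae_have 2 → 5 := bundles_of_linePowers hJ hB hC hM
  tfae_have 5 → 1 := injectivity_of_bundles hG hJ hB hC
  tfae_have 5 → 6 := fun h X hX => h X _ hX
  tfae_have 6 → 5 := bundles_of_tangent hJ hB hC
  tfae_have 7 → 3 := by
    intro h X L n hX ht hL hn
    rcases Nat.eq_zero_or_pos n with rfl | hn0
    · exact hJ.codim_zero X _ hX.1 (codim_pow hG _ (hG.c X L 1) 0)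
    · obtain ⟨Z, f, hf, hc, he⟩ := hC.bertini X L n hX hL hn0
      rw [← he]
      exact h X Z f n hX ht hf hn hc
  tfae_finish

end main

end Pool.Agent.Y712.QP
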