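import Pool.Agent.Y101.Aq.CanL
import Pool.Agent.Y101.Aq.VMain

/-!
# Regulators and the middle degree

Regulators from motivic cohomology, in degree `i` and twist `j`, and blow-ups.
-/

open CategoryTheory AlgebraicGeometry Finset

universe u v w w' x

namespace Pool.Agent.Y712.Reg

open Pool.Agent.H914 Pool.Agent.H914.VarClass Pool.Agent.H914.VarClass.Obj

variable {k : Type u} [Field k]

/-- A bigraded theory with values in vector spaces over `F`, with pull-backs, push-forwards and the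
action `mul` of divisor classes; `L X` is the set of the divisor classes on `X`. -/
structure OpData (𝒱 : VarClass k) (L : 𝒱.Obj → Type x) (F : Type w) [Field F] where
  /-- the sum of all groups in all degrees and twists -/
  A : 𝒱.Obj → Type v
  /-- it is an abelian group -/
  grp : ∀ X, AddCommGroup (A X)
  /-- it is a vector space -/
  mod : ∀ X, Module F (A X)
  /-- pull-back -/
  pull : ∀ {X Y : 𝒱.Obj}, (X ⟶ Y) → (A Y →ₗ[F] A X)
  /-- push-forward -/
  push : ∀ {X Y : 𝒱.Obj}, (X ⟶ Y) → (A X →ₗ[F] A Y)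
  /-- multiplication by a divisor class -/
  mul : ∀ {X : 𝒱.Obj}, L X → (A X →ₗ[F] A X)

attribute [instance] OpData.grp OpData.mod

variable {𝒱 : VarClass k} {L : 𝒱.Obj → Type x}

section ops

variable {F : Type w} [Field F] (T : OpData.{u, v, w, x} 𝒱 L F) {X Y : 𝒱.Obj}

/-- The pull-back `f^* a`. -/
def OpData.up (f : X ⟶ Y) (a : T.A Y) : T.A X := T.pull f a

/-- The push-forward `f_* a`. -/
def OpData.down (f : X ⟶ Y) (a : T.A X) : T.A Y := T.push f a

/-- The product `h a` with a divisor class `h`. -/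
def OpData.act (h : L X) (a : T.A X) : T.A X := T.mul h a

/-- The product `h ^ n a`. -/
def OpData.actPow (h : L X) (n : ℕ) (a : T.A X) : T.A X := (T.mul h ^ n) a

/-- A family of subspaces `S X i j` of `T.A X`: the parts of degree `i` and twist `j`. -/
def Family := ∀ X : 𝒱.Obj, ℤ → ℤ → Submodule F (T.A X)

variable {T}

/-- The class `a` on `X` lies in the part of degree `i` and twist `j`. -/
def Family.Mem (S : Family T) (X : 𝒱.Obj) (i j : ℤ) (a : T.A X) : Prop := a ∈ S X i j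

/-- The subspaces `S X i j` are stable under pull-backs, push-forwards and multiplication by divisor
classes, with the usual degrees and twists. -/
structure Stable (S : Family T) : Prop where
  pull : ∀ {X Y : 𝒱.Obj} (f : X ⟶ Y) (i j : ℤ) (a : T.A Y), S.Mem Y i j a →
    S.Mem X i j (T.up f a)
  push : ∀ {X Y : 𝒱.Obj} (f : X ⟶ Y) (i j : ℤ) (a : T.A X), S.Mem X i j a →
    S.Mem Y (i + 2 * (Y.dim - X.dim)) (j + (Y.dim - X.dim)) (T.down f a)
  mul : ∀ {X : 𝒱.Obj} (h : L X) (i j : ℤ) (a : T.A X), S.Mem X i j a →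
    S.Mem X (i + 2) (j + 1) (T.act h a)

variable (T)

/-- The formulas, in the theory `T`, for the exceptional divisor `ι : E ⟶ B` of a blow-up with centre
`X` of codimension `c`, `g : E ⟶ X` the projection, and `h = - c_1(N)`, `N` the normal bundle of `E` in
`B`: `ι^* ι_* y = - h y` and `g_* (h^(c-1) g^* x) = x`. -/
structure Exceptional {X B E : 𝒱.Obj} (g : E ⟶ X) (ι : E ⟶ B) (h : L E) (c : ℕ) : Prop where
  self : ∀ y, T.up ι (T.down ι y) = - T.act h y
  top : ∀ x, T.down g (T.actPow h (c - 1) (T.up g x)) = x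

end ops

/-- The data of a regulator:

* the theory `M`, motivic cohomology, and the groups `gr X i j`, `H^i_M(X, ℚ(j))_hom`;
* the theory `J`, the target (for example `H¹(G, H^{i-1}(X, ℚ_ℓ(j)))`);
* subspaces `F X i j` (for example `H¹_st(G, H^{i-1}(X, ℚ_ℓ(j)))`);
* the regulator `r`. -/
structure RegData (𝒱 : VarClass k) (L : 𝒱.Obj → Type x) (K : Type w) [Field K] where
  /-- motivic cohomology -/
  M : OpData.{u, v, 0, x} 𝒱 L ℚ
  /-- its parts of degree `i` and twist `j` -/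
  gr : Family M
  /-- the target -/
  J : OpData.{u, w', w, x} 𝒱 L K
  /-- the conjectural image -/
  F : Family J
  /-- the regulator -/
  r : ∀ X, M.A X → J.A X

variable {K : Type w} [Field K] [CharZero K]

/-- The regulator is additive and commutes with pull-backs, push-forwards and multiplication by divisor
classes, and `gr` and `F` are stable under these operations. -/
structure IsReg (T : RegData.{u, v, w, w', x} 𝒱 L K) : Prop where
  stable : Stable T.gr
  stableF : Stable T.F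
  add : ∀ (X : 𝒱.Obj) (a b : T.M.A X), T.r X (a + b) = T.r X a + T.r X b
  pull : ∀ {X Y : 𝒱.Obj} (f : X ⟶ Y) (a : T.M.A Y), T.r X (T.M.up f a) = T.J.up f (T.r Y a)
  push : ∀ {X Y : 𝒱.Obj} (f : X ⟶ Y) (a : T.M.A X), T.r Y (T.M.down f a) = T.J.down f (T.r X a)
  mul : ∀ {X : 𝒱.Obj} (h : L X) (a : T.M.A X), T.r X (T.M.act h a) = T.J.act h (T.r X a)

/-- For each `X` and `N ≥ 2 dim X + 1` there is a blow-up `B` with centre `X` which is in the class `R`
and has dimension `N` (embed `X` in the projective space of dimension `N`). -/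
def HasBlowUps (T : RegData.{u, v, w, w', x} 𝒱 L K) (R : 𝒱.Obj → Prop) : Prop :=
  ∀ (X : 𝒱.Obj) (N : ℕ), 2 * X.dim + 1 ≤ N → ∃ (B E : 𝒱.Obj) (g : E ⟶ X) (ι : E ⟶ B) (h : L E),
    R B ∧ B.dim = N ∧ E.dim + 1 = N ∧ Exceptional T.M g ι h (N - X.dim) ∧
      Exceptional T.J g ι h (N - X.dim)

/-- `H^i_M(X, ℚ(j))_hom ⊗ K → J` is injective: classes which are linearly independent over `ℚ` have
linearly independent images. -/
def RInjective (T : RegData.{u, v, w, w', x} 𝒱 L K) (X : 𝒱.Obj) (i j : ℤ) : Prop :=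
  ∀ (n : ℕ) (z : Fin n → T.M.A X), (∀ t, T.gr.Mem X i j (z t)) → LinearIndependent ℚ z →
    LinearIndependent K (fun t => T.r X (z t))

/-- The subspace spanned by the image of `H^i_M(X, ℚ(j))_hom`. -/
def rSpan (T : RegData.{u, v, w, w', x} 𝒱 L K) (X : 𝒱.Obj) (i j : ℤ) : Submodule K (T.J.A X) :=
  Submodule.span K {t | ∃ a : T.M.A X, T.gr.Mem X i j a ∧ t = T.r X a}

/-- The image contains `F X i j`. -/
def ROnto (T : RegData.{u, v, w, w', x} 𝒱 L K) (X : 𝒱.Obj) (i j : ℤ) : Prop :=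
  ∀ t, T.F.Mem X i j t → t ∈ rSpan T X i j

/-- The image is contained in `F X i j`. -/
def RInto (T : RegData.{u, v, w, w', x} 𝒱 L K) (X : 𝒱.Obj) (i j : ℤ) : Prop :=
  ∀ t ∈ rSpan T X i j, T.F.Mem X i j t

/-- `H^i_M(X, ℚ(j))_hom ⊗ K → J` is injective with image `F X i j`. -/
def RIso (T : RegData.{u, v, w, w', x} 𝒱 L K) (X : 𝒱.Obj) (i j : ℤ) : Prop :=
  RInjective T X i j ∧ ROnto T X i j ∧ RInto T X i j

/-- Maps `M X → M Y`, `J X → J Y` which commute with the regulators and map degree `i` and twist `j` to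
degree `i'` and twist `j'`. -/
structure IsMap (T : RegData.{u, v, w, w', x} 𝒱 L K) {X Y : 𝒱.Obj} (i j i' j' : ℤ)
    (φ : T.M.A X →ₗ[ℚ] T.M.A Y) (ψ : T.J.A X →ₗ[K] T.J.A Y) : Prop where
  gr : ∀ a, T.gr.Mem X i j a → T.gr.Mem Y i' j' (φ a)
  F : ∀ t, T.F.Mem X i j t → T.F.Mem Y i' j' (ψ t)
  comm : ∀ a, T.r Y (φ a) = ψ (T.r X a)

namespace IsMap

variable {T : RegData.{u, v, w, w', x} 𝒱 L K} {X Y Z : 𝒱.Obj} {i j i' j' i'' j'' : ℤ}

omit [CharZero K] in
lemma comp {φ : T.M.A X →ₗ[ℚ] T.M.A Y} {ψ : T.J.A X →ₗ[K] T.J.A Y} (h : IsMap T i j i' j' φ ψ)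
    {φ' : T.M.A Y →ₗ[ℚ] T.M.A Z} {ψ' : T.J.A Y →ₗ[K] T.J.A Z}
    (h' : IsMap T i' j' i'' j'' φ' ψ') : IsMap T i j i'' j'' (φ' ∘ₗ φ) (ψ' ∘ₗ ψ) where
  gr a ha := h'.gr _ (h.gr a ha)
  F t ht := h'.F _ (h.F t ht)
  comm a := by
    rw [LinearMap.comp_apply, LinearMap.comp_apply, h'.comm, h.comm]

omit [CharZero K] in
lemma pull (hT : IsReg T) (f : X ⟶ Y) (i j : ℤ) :
    IsMap T i j i j (T.M.pull f) (T.J.pull f) where
  gr := hT.stable.pull f i j
  F := hT.stableF.pull f i j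
  comm := hT.pull f

omit [CharZero K] in
lemma push (hT : IsReg T) (f : X ⟶ Y) (i j : ℤ) :
    IsMap T i j (i + 2 * (Y.dim - X.dim)) (j + (Y.dim - X.dim)) (T.M.push f) (T.J.push f) where
  gr := hT.stable.push f i j
  F := hT.stableF.push f i j
  comm := hT.push f

omit [CharZero K] in
lemma pow (hT : IsReg T) (h : L X) (i j : ℤ) (n : ℕ) :
    IsMap T i j (i + 2 * n) (j + n) (T.M.mul h ^ n) (T.J.mul h ^ n) := by
  induction n with
  | zero =>
    refine ⟨fun a ha => ?_, fun t ht => ?_, fun a => rfl⟩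
    · simpa using ha
    · simpa using ht
  | succ n ih =>
    have h1 : IsMap T (i + 2 * n) (j + n) (i + 2 * n + 2) (j + n + 1) (T.M.mul h) (T.J.mul h) :=
      ⟨hT.stable.mul h _ _, hT.stableF.mul h _ _, hT.mul h⟩
    have h2 := ih.comp h1
    have e1 : i + 2 * ((n + 1 : ℕ) : ℤ) = i + 2 * n + 2 := by push_cast; ring
    have e2 : j + ((n + 1 : ℕ) : ℤ) = j + n + 1 := by push_cast; ring
    rw [e1, e2, pow_succ', pow_succ']
    exact h2

omit [CharZero K] in
lemma span {φ : T.M.A X →ₗ[ℚ] T.M.A Y} {ψ : T.J.A X →ₗ[K] T.J.A Y} (h : IsMap T i j i' j' φ ψ)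
    {t : T.J.A X} (ht : t ∈ rSpan T X i j) : ψ t ∈ rSpan T Y i' j' := by
  unfold rSpan at ht
  induction ht using Submodule.span_induction with
  | mem x hx =>
    obtain ⟨a, ha, rfl⟩ := hx
    exact Submodule.subset_span ⟨φ a, h.gr a ha, (h.comm a).symm⟩
  | zero => rw [map_zero]; exact Submodule.zero_mem _
  | add x y _ _ hx hy => rw [map_add]; exact Submodule.add_mem _ hx hy
  | smul c x _ hx => rw [map_smul]; exact Submodule.smul_mem _ c hx

end IsMap

/-- The groups of `X` in degree `i` and twist `j` are direct factors of those of `Y` in degree `i'`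
and twist `j'`. -/
structure IsRetract (T : RegData.{u, v, w, w', x} 𝒱 L K) (X : 𝒱.Obj) (i j : ℤ) (Y : 𝒱.Obj)
    (i' j' : ℤ) (α : T.M.A X →ₗ[ℚ] T.M.A Y) (β : T.M.A Y →ₗ[ℚ] T.M.A X)
    (α' : T.J.A X →ₗ[K] T.J.A Y) (β' : T.J.A Y →ₗ[K] T.J.A X) : Prop where
  left : IsMap T i j i' j' α α'
  right : IsMap T i' j' i j β β'
  inv : ∀ a, β (α a) = -a
  inv' : ∀ t, β' (α' t) = -t

namespace IsRetract

variable {T : RegData.{u, v, w, w', x} 𝒱 L K} {X Y : 𝒱.Obj} {i j i' j' : ℤ}
  {α : T.M.A X →ₗ[ℚ] T.M.A Y} {β : T.M.A Y →ₗ[ℚ] T.M.A X} {α' : T.J.A X →ₗ[K] T.J.A Y}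
  {β' : T.J.A Y →ₗ[K] T.J.A X}

omit [CharZero K] in
lemma injective (h : IsRetract T X i j Y i' j' α β α' β') (hY : RInjective T Y i' j') :
    RInjective T X i j := by
  intro n z hz hzi
  have h1 : Function.Injective α := by
    intro a b hab
    have h2 := congrArg β hab
    rw [h.inv, h.inv, neg_inj] at h2
    exact h2
  have h2 := hY n (fun t => α (z t)) (fun t => h.left.gr _ (hz t))
    (hzi.map' α (LinearMap.ker_eq_bot.2 h1))
  have h3 : (fun t => T.r Y (α (z t))) = α' ∘ (fun t => T.r X (z t)) :=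
    funext fun t => h.left.comm (z t)
  rw [h3] at h2
  exact LinearIndependent.of_comp α' h2

omit [CharZero K] in
lemma onto (h : IsRetract T X i j Y i' j' α β α' β') (hY : ROnto T Y i' j') :
    ROnto T X i j := by
  intro t ht
  have h1 := h.right.span (hY _ (h.left.F t ht))
  rw [h.inv'] at h1
  exact neg_mem_iff.1 h1

omit [CharZero K] in
lemma into (h : IsRetract T X i j Y i' j' α β α' β') (hY : RInto T Y i' j') :
    RInto T X i j := by
  intro t ht
  have h1 := h.right.F _ (hY _ (h.left.span ht))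
  rw [h.inv'] at h1
  exact (neg_mem_iff (S := Submodule K (T.J.A X))).1 h1

omit [CharZero K] in
lemma iso (h : IsRetract T X i j Y i' j' α β α' β') (hY : RIso T Y i' j') : RIso T X i j :=
  ⟨h.injective hY.1, h.onto hY.2.1, h.into hY.2.2⟩

end IsRetract

omit [CharZero K] in
/-- The cohomology of the centre is a direct factor of the cohomology of the blow-up. -/
lemma retract_blowUp {T : RegData.{u, v, w, w', x} 𝒱 L K} (hT : IsReg T) {X B E : 𝒱.Obj}
    {g : E ⟶ X} {ι : E ⟶ B} {h : L E} {c : ℕ} (hBE : E.dim + 1 = B.dim)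
    (hc : X.dim + c = B.dim) (h1 : Exceptional T.M g ι h c) (h2 : Exceptional T.J g ι h c)
    (s : ℕ) (hs : s + 2 ≤ c) (i j : ℤ) : ∃ α β α' β',
    IsRetract T X i j B (i + 2 * (s + 1)) (j + (s + 1)) α β α' β' := by
  have a1 := ((IsMap.pull hT g i j).comp (IsMap.pow hT h i j s)).comp
    (IsMap.push hT ι (i + 2 * s) (j + s))
  have a2 := ((IsMap.pull hT ι (i + 2 * (s + 1)) (j + (s + 1))).comp
    (IsMap.pow hT h _ _ (c - 2 - s))).comp (IsMap.push hT g _ _)
  have e1 : i + 2 * (s : ℤ) + 2 * ((B.dim : ℤ) - E.dim) = i + 2 * (s + 1) := by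
    rw [← hBE]; push_cast; ring
  have e2 : j + (s : ℤ) + ((B.dim : ℤ) - E.dim) = j + (s + 1) := by
    rw [← hBE]; push_cast; ring
  have e0 : ((c - 2 - s : ℕ) : ℤ) = c - 2 - s := by omega
  have e00 : (X.dim : ℤ) - E.dim = 1 - c := by omega
  have e3 : i + 2 * ((s : ℤ) + 1) + 2 * ((c - 2 - s : ℕ) : ℤ) + 2 * ((X.dim : ℤ) - E.dim) = i := by
    rw [e0, e00]; ring
  have e4 : j + ((s : ℤ) + 1) + ((c - 2 - s : ℕ) : ℤ) + ((X.dim : ℤ) - E.dim) = j := by
    rw [e0, e00]; ring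
  rw [e1, e2] at a1
  rw [e3, e4] at a2
  refine ⟨_, _, _, _, a1, a2, ?_, ?_⟩
  · intro a
    have e5 : c - 1 = (c - 2 - s) + (1 + s) := by omega
    have h3 := h1.top a
    have h4 := h1.self
    simp only [OpData.up, OpData.down, OpData.act, OpData.actPow] at h3 h4
    rw [e5, pow_add, pow_add, pow_one] at h3
    simp only [LinearMap.comp_apply, Module.End.mul_apply] at h3 ⊢
    rw [h4, map_neg, map_neg, h3]
  · intro a
    have e5 : c - 1 = (c - 2 - s) + (1 + s) := by omega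
    have h3 := h2.top a
    have h4 := h2.self
    simp only [OpData.up, OpData.down, OpData.act, OpData.actPow] at h3 h4
    rw [e5, pow_add, pow_add, pow_one] at h3
    simp only [LinearMap.comp_apply, Module.End.mul_apply] at h3 ⊢
    rw [h4, map_neg, map_neg, h3]

/-- `P X i j` holds for all `X` and all `i`, `j` with `2 j - i = n` if and only if it holds for the `B` in
the class `R` and the middle degree `i - 1 = dim B`. -/
def DecidedInMiddle (R : 𝒱.Obj → Prop) (n : ℤ) (P : 𝒱.Obj → ℤ → ℤ → Prop) : Prop :=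
  (∀ (X : 𝒱.Obj) (i j : ℤ), 2 * j - i = n → P X i j) ↔
    ∀ B : 𝒱.Obj, R B → ∀ i j : ℤ, 2 * j - i = n → i - 1 = B.dim → P B i j

omit [CharZero K] in
theorem decided {T : RegData.{u, v, w, w', x} 𝒱 L K} (hT : IsReg T) {R : 𝒱.Obj → Prop}
    (hR : HasBlowUps T R) (n : ℤ) {P : 𝒱.Obj → ℤ → ℤ → Prop}
    (hP : ∀ (X Y : 𝒱.Obj) (i j i' j' : ℤ) α β α' β', IsRetract T X i j Y i' j' α β α' β' →
      P Y i' j' → P X i j) : DecidedInMiddle R n P := by
  constructor
  · intro h B _ i j hij _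
    exact h B i j hij
  · intro h X i j hij
    set s : ℕ := X.dim + 2 + i.natAbs with hs
    have hN : (2 * (X.dim : ℤ) + 1) ≤ i - 1 + 2 * (s + 1) := by omega
    obtain ⟨N, hN2⟩ : ∃ N : ℕ, (N : ℤ) = i - 1 + 2 * (s + 1) :=
      ⟨(i - 1 + 2 * (s + 1)).toNat, by omega⟩
    obtain ⟨B, E, g, ι, y, hRB, hB, hE, h1, h2⟩ := hR X N (by omega)
    obtain ⟨α, β, α', β', h3⟩ := retract_blowUp hT (c := N - X.dim) (by omega) (by omega) h1 h2 s
      (by omega) i j
    exact hP _ _ _ _ _ _ _ _ _ _ h3 (h B hRB _ _ (by omega) (by omega))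

/-- * If `dim X ≥ m` there is `ι : S ⟶ X` with `dim S = m` such that `F S` is mapped onto `F X` in
  homological degree `m`, for all twists: `S` is a smooth linear section; by the hard Lefschetz theorem
  the push-forward `H_m(S) → H_m(X)` is a split surjection. Here `H_m(X) = H^(2 dim X - m)(X)` and the
  twist of `H_m(X)` is `dim X - b`.
* For each `X` and `m` there are `W`, of dimension `dim X + m`, and `s : X ⟶ W` and `q : W ⟶ X` with
  `q ∘ s` the identity (the product with the projective space). -/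
structure HasLinearSections (T : RegData.{u, v, w, w', x} 𝒱 L K) : Prop where
  section_ : ∀ (X : 𝒱.Obj) (m : ℕ), m ≤ X.dim → ∃ (S : 𝒱.Obj) (ι : S ⟶ X), S.dim = m ∧
    ∀ (b : ℤ) (t : T.J.A X), T.F.Mem X (2 * X.dim - m + 1) (X.dim - b) t →
      ∃ t' : T.J.A S, T.F.Mem S (m + 1) (m - b) t' ∧ T.J.down ι t' = t
  product : ∀ (X : 𝒱.Obj) (m : ℕ), ∃ (W : 𝒱.Obj) (s : X ⟶ W) (q : W ⟶ X), s ≫ q = 𝟙 X ∧
    W.dim = X.dim + m
  functor : ∀ {X W : 𝒱.Obj} (s : X ⟶ W) (q : W ⟶ X), s ≫ q = 𝟙 X → ∀ t : T.J.A X,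
    T.J.down q (T.J.down s t) = t

omit [CharZero K] in
/-- **Surjectivity in a fixed homological degree.** -/
theorem onto_linear {T : RegData.{u, v, w, w', x} 𝒱 L K} (hT : IsReg T)
    (hL : HasLinearSections T) (m : ℕ) (b : ℤ) :
    (∀ X : 𝒱.Obj, ROnto T X (2 * X.dim - m + 1) (X.dim - b)) ↔
      ∀ X : 𝒱.Obj, X.dim = m → ROnto T X (m + 1) (m - b) := by
  constructor
  · intro h X hX
    have h1 := h X
    rw [hX] at h1
    have e : 2 * (m : ℤ) - m + 1 = m + 1 := by ring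
    rwa [e] at h1
  · intro h X t ht
    obtain ⟨W, s, q, hsq, hW⟩ := hL.product X m
    obtain ⟨S, ι, hSd, hι⟩ := hL.section_ W m (by omega)
    have a1 := (IsMap.push hT s (2 * X.dim - m + 1) (X.dim - b)).F t ht
    have e1 : 2 * (X.dim : ℤ) - m + 1 + 2 * ((W.dim : ℤ) - X.dim) = 2 * W.dim - m + 1 := by ring
    have e2 : (X.dim : ℤ) - b + ((W.dim : ℤ) - X.dim) = W.dim - b := by ring
    rw [e1, e2] at a1
    obtain ⟨t', ht', e⟩ := hι b _ a1
    have h1 := (IsMap.push hT q _ _).span ((IsMap.push hT ι (m + 1) (m - b)).span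
      (h S hSd t' ht'))
    have h2 := hL.functor s q hsq t
    simp only [OpData.down] at e h2
    rw [e, h2] at h1
    have e3 : (m : ℤ) + 1 + 2 * ((W.dim : ℤ) - S.dim) + 2 * ((X.dim : ℤ) - W.dim) =
        2 * X.dim - m + 1 := by
      rw [hSd]; ring
    have e4 : (m : ℤ) - b + ((W.dim : ℤ) - S.dim) + ((X.dim : ℤ) - W.dim) = X.dim - b := by
      rw [hSd]; ring
    rwa [e3, e4] at h1

end Pool.Agent.Y712.Reg
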