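import Pool.Agent.Y101.Aq.CanL
import Pool.Agent.Y101.Aq.VMain

/-!
# Cycles of dimension `i` and varieties of dimension `2 i + 1`

Let `z` be a cycle of dimension `i` on `X`. By resolution of singularities (or alterations) `z × point`
is, on the product `W` of `X` and of projective spaces, rationally equivalent to a combination of smooth
and pairwise disjoint subvarieties of dimension `i`; so it comes from a smooth complete intersection `S`
in `W` of dimension `2 i + 1` (Bertini, Kleiman and Altman; Poonen over finite fields). By the weak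
Lefschetz theorem, the homology groups in degree `2 i` of `S` and `W` are the same.
-/

open CategoryTheory AlgebraicGeometry Finset

universe u v w w' w''

namespace Pool.Agent.Y712.Sec

open Pool.Agent.H914 Pool.Agent.H914.VarClass Pool.Agent.H914.VarClass.Obj Pool.Agent.W492.BB
  Pool.Agent.TH133 Pool.Agent.Y101.Aq

variable {k : Type u} [Field k] {𝒱 : VarClass k} {C : TheoryData.{u, v, 0} 𝒱 ℚ}
  {K : Type w} [Field K]

/-- The class `z` is the class of a cycle of dimension `i` on `X`. -/
def IsCycle (C : TheoryData.{u, v, 0} 𝒱 ℚ) (i : ℕ) {X : 𝒱.Obj} (z : C.A X) : Prop :=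
  C.Deg ((X.dim : ℤ) - i) z

/-- Push-forward is injective on the homology `H_2i(S) = H^(2 (dim S - i))(S)`. -/
def InjectiveOnHomology (H : WeilTheoryData.{u, v, w} C K) (i : ℕ) {S W : 𝒱.Obj} (ι : S ⟶ W) :
    Prop :=
  ∀ a : H.A S, H.Deg (2 * ((S.dim : ℤ) - i)) a → H.down ι a = 0 → a = 0

/-- For finitely many classes `z t` of cycles of dimension `i` on `X` there are `s : X ⟶ W` and
`q : W ⟶ X` with `q ∘ s` the identity, and `ι : S ⟶ W`, `dim S = 2 i + 1`, injective on the homology of
degree `2 i`, such that the classes `s_* (z t)` are in the image of `ι_*`. -/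
def HasSections (H : WeilTheoryData.{u, v, w} C K) : Prop :=
  ∀ (X : 𝒱.Obj) (i n : ℕ) (z : Fin n → C.A X), i ≤ X.dim → (∀ t, IsCycle C i (z t)) →
    ∃ (S W : 𝒱.Obj) (s : X ⟶ W) (q : W ⟶ X) (ι : S ⟶ W) (y : Fin n → C.A S),
      s ≫ q = 𝟙 X ∧ S.dim = 2 * i + 1 ∧ InjectiveOnHomology H i ι ∧
      ∀ t, IsCycle C i (y t) ∧ C.down ι (y t) = C.down s (z t)

section reduction

variable {H : WeilTheoryData.{u, v, w} C K} [hC : IsChowProj C]

include hC

/-- A property of classes which is stable under push-forwards holds for the homologically trivial cycles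
of dimension `i` on all varieties if it does so on the varieties of dimension `2 i + 1`. -/
theorem reduction [hH : IsWeilProj H] (hS : HasSections H) (i : ℕ)
    (J : ∀ X : 𝒱.Obj, C.A X → Prop)
    (hJ : ∀ (X Y : 𝒱.Obj) (f : X ⟶ Y) (a : C.A X), IsCycle C i a → J X a → J Y (C.down f a)) :
    (∀ X : 𝒱.Obj, i ≤ X.dim → ∀ a : C.A X, IsCycle C i a → H.cl a = 0 → J X a) ↔
      ∀ X : 𝒱.Obj, X.dim = 2 * i + 1 → ∀ a : C.A X, IsCycle C i a → H.cl a = 0 → J X a := by
  constructor
  · intro h X hX
    exact h X (by omega)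
  · intro h X hi a ha1 ha2
    obtain ⟨S, W, s, q, ι, y, hsq, hdim, hinj, hy⟩ := hS X i 1 (fun _ => a) hi (fun _ => ha1)
    have hcl := hH.isClassMap
    obtain ⟨hy1, hy2⟩ := hy 0
    have e3 : H.cl (y 0) = 0 := by
      refine hinj _ (hcl.cl_mem hy1) ?_
      rw [← hcl.cl_push, hy2, hcl.cl_push, ha2]
      exact map_zero _
    have e5 := h S hdim (y 0) hy1 e3
    have e6 := hJ S W ι (y 0) hy1 e5
    have hW : IsCycle C i (C.down ι (y 0)) := by
      have h1 := hC.isTheory.hasDegrees.push_mem ι hy1
      have e : (S.dim : ℤ) - i + 1 * ((W.dim : ℤ) - S.dim) = (W.dim : ℤ) - i := by ring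
      rwa [e] at h1
    have e7 := hJ W X q _ hW e6
    rw [hy2, ← hC.isTheory.isFunctor.push_comp, hsq, hC.isTheory.isFunctor.push_id] at e7
    exact e7

omit hC in
/-- The linear independence over `ℚ` implies that of the classes over `K`. -/
def ClInjective (H : WeilTheoryData.{u, v, w} C K) (i : ℕ) (X : 𝒱.Obj) : Prop :=
  ∀ (n : ℕ) (z : Fin n → C.A X), (∀ t, IsCycle C i (z t)) → LinearIndependent ℚ z →
    LinearIndependent K (fun t => H.cl (z t))

theorem inj_reduction [hH : IsWeilProj H] (hS : HasSections H) (i : ℕ) :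
    (∀ X : 𝒱.Obj, i ≤ X.dim → ClInjective H i X) ↔
      ∀ X : 𝒱.Obj, X.dim = 2 * i + 1 → ClInjective H i X := by
  constructor
  · intro h X hX
    exact h X (by omega)
  · intro h X hi n z hz hzi
    obtain ⟨S, W, s, q, ι, y, hsq, hdim, hinj, hy⟩ := hS X i n z hi hz
    have hcl := hH.isClassMap
    have hs : Function.LeftInverse (C.push q) (C.push s) := by
      intro a
      have h1 := hC.isTheory.isFunctor.push_comp s q a
      rw [hsq, hC.isTheory.isFunctor.push_id] at h1
      exact h1.symm
    have e1 : LinearIndependent ℚ (fun t => C.push s (z t)) :=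
      hzi.map' (C.push s) (LinearMap.ker_eq_bot.2 hs.injective)
    have e2 : LinearIndependent ℚ y := by
      refine LinearIndependent.of_comp (C.push ι) ?_
      have : (C.push ι) ∘ y = fun t => C.push s (z t) := funext fun t => (hy t).2
      rw [this]
      exact e1
    have e3 := h S hdim n y (fun t => (hy t).1) e2
    -- the images in the cohomology of `W`
    have e4 : LinearIndependent K (fun t => H.push s (H.cl (z t))) := by
      rw [linearIndependent_iff'] at e3 ⊢
      intro T c hc t ht
      refine e3 T c ?_ t ht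
      refine hinj _ ?_ ?_
      · exact Submodule.sum_mem _ fun t _ => Submodule.smul_mem _ _ (hcl.cl_mem (hy t).1)
      · show H.push ι _ = 0
        rw [map_sum]
        rw [← hc]
        refine Finset.sum_congr rfl fun t _ => ?_
        rw [map_smul]
        congr 1
        have h1 : H.cl (C.down ι (y t)) = H.push ι (H.cl (y t)) := hcl.cl_push ι (y t)
        have h2 : H.cl (C.down s (z t)) = H.push s (H.cl (z t)) := hcl.cl_push s (z t)
        rw [← h1, ← h2, (hy t).2]
    exact LinearIndependent.of_comp (H.push s) e4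

end reduction

section tate

/-- The data of the classes fixed by the Galois group: `G X n` is a subspace of `H^(2n)(X)`, the Tate
classes (those with `F a = q^n a`, if the field has `q` elements and `F` is the Frobenius
endomorphism). -/
abbrev TateData (H : WeilTheoryData.{u, v, w} C K) := ∀ X : 𝒱.Obj, ℤ → Submodule K (H.A X)

/-- Every Tate class in `H_2i(X)` is a linear combination of classes of cycles. -/
def ClSurjective {H : WeilTheoryData.{u, v, w} C K} (G : TateData H) (i : ℕ) (X : 𝒱.Obj) : Prop :=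
  ∀ t ∈ G X ((X.dim : ℤ) - i), t ∈ Submodule.span K {a | ∃ z : C.A X, IsCycle C i z ∧ a = H.cl z}

/-- The properties of the Tate classes that are used.

* They are stable under push-forwards.
* Let `dim X ≥ 2 i`. There is `ι : S ⟶ X` with `dim S = 2 i` such that each Tate class in `H_2i(X)` is
  the push-forward of a Tate class in `H_2i(S)` (`S` is a smooth linear section; by the hard Lefschetz
  theorem the Tate class is `D^(dim X - 2i) u` with a Tate class `u`, hence the push-forward of
  `ι^* u`).
* For each `X` and `m` there are `W`, of dimension `dim X + m`, and `s : X ⟶ W` and `q : W ⟶ X` with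
  `q ∘ s` the identity (the product with the projective space). -/
structure IsTate {H : WeilTheoryData.{u, v, w} C K} (G : TateData H) : Prop where
  push : ∀ {X Y : 𝒱.Obj} (f : X ⟶ Y) (n : ℤ), ∀ a ∈ G X n,
    H.down f a ∈ G Y (n + (Y.dim - X.dim))
  section_ : ∀ (X : 𝒱.Obj) (i : ℕ), 2 * i ≤ X.dim → ∃ (S : 𝒱.Obj) (ι : S ⟶ X), S.dim = 2 * i ∧
    ∀ t ∈ G X ((X.dim : ℤ) - i), ∃ t' ∈ G S ((S.dim : ℤ) - i), H.down ι t' = t
  product : ∀ (X : 𝒱.Obj) (m : ℕ), ∃ (W : 𝒱.Obj) (s : X ⟶ W) (q : W ⟶ X), s ≫ q = 𝟙 X ∧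
    W.dim = X.dim + m

variable {H : WeilTheoryData.{u, v, w} C K} {G : TateData H} [hC : IsChowProj C]

include hC

lemma span_push [hH : IsWeilProj H] {X Y : 𝒱.Obj} (f : X ⟶ Y) (i : ℕ) {t : H.A X}
    (ht : t ∈ Submodule.span K {a | ∃ z : C.A X, IsCycle C i z ∧ a = H.cl z}) :
    H.push f t ∈ Submodule.span K {a | ∃ z : C.A Y, IsCycle C i z ∧ a = H.cl z} := by
  induction ht using Submodule.span_induction with
  | mem x hx =>
    obtain ⟨z, hz, rfl⟩ := hx
    refine Submodule.subset_span ⟨C.down f z, ?_, (hH.isClassMap.cl_push f z).symm⟩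
    have h1 := hC.isTheory.hasDegrees.push_mem f hz
    have e : (X.dim : ℤ) - i + 1 * ((Y.dim : ℤ) - X.dim) = (Y.dim : ℤ) - i := by ring
    rwa [e] at h1
  | zero => rw [map_zero]; exact Submodule.zero_mem _
  | add x y _ _ hx hy => rw [map_add]; exact Submodule.add_mem _ hx hy
  | smul c x _ hx => rw [map_smul]; exact Submodule.smul_mem _ c hx

lemma surj_of_retract [hH : IsWeilProj H] (hG : IsTate G) (i : ℕ) {X W : 𝒱.Obj} (s : X ⟶ W)
    (q : W ⟶ X) (hsq : s ≫ q = 𝟙 X) (h : ClSurjective G i W) : ClSurjective G i X := by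
  intro t ht
  have h1 := hG.push s _ t ht
  have e : (X.dim : ℤ) - i + ((W.dim : ℤ) - X.dim) = (W.dim : ℤ) - i := by ring
  rw [e] at h1
  have h2 := span_push q i (h _ h1)
  have h3 : H.push q (H.down s t) = t := by
    have h4 := hH.isTheory.isFunctor.push_comp s q t
    rw [hsq, hH.isTheory.isFunctor.push_id] at h4
    exact h4.symm
  rwa [h3] at h2

theorem surj_reduction [hH : IsWeilProj H] (hG : IsTate G) (i : ℕ) :
    (∀ X : 𝒱.Obj, ClSurjective G i X) ↔ ∀ X : 𝒱.Obj, X.dim = 2 * i → ClSurjective G i X := by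
  constructor
  · intro h X _
    exact h X
  · intro h X
    obtain ⟨W, s, q, hsq, hW⟩ := hG.product X (2 * i)
    refine surj_of_retract hG i s q hsq ?_
    intro t ht
    obtain ⟨S, ι, hS, hι⟩ := hG.section_ W i (by omega)
    obtain ⟨t', ht', rfl⟩ := hι t ht
    exact span_push ι i (h S hS t' ht')

/-- `CH_i(X) ⊗ K` is isomorphic to the space of the Tate classes in `H_2i(X)`. -/
def ClBijective (G : TateData H) (i : ℕ) (X : 𝒱.Obj) : Prop :=
  ClInjective H i X ∧ ClSurjective G i X

theorem bij_reduction [hH : IsWeilProj H] (hS : HasSections H) (hG : IsTate G) (i : ℕ) :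
    (∀ X : 𝒱.Obj, i ≤ X.dim → ClBijective G i X) ↔
      ∀ X : 𝒱.Obj, X.dim = 2 * i + 1 → ClBijective G i X := by
  constructor
  · intro h X hX
    exact h X (by omega)
  · intro h
    have h1 := (inj_reduction hS i).2 fun X hX => (h X hX).1
    have h2 := (surj_reduction hG i).2 fun X hX => by
      obtain ⟨W, s, q, hsq, hW⟩ := hG.product X 1
      exact surj_of_retract hG i s q hsq (h W (by omega)).2
    exact fun X hX => ⟨h1 X hX, h2 X⟩

end tate

end Pool.Agent.Y712.Sec
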