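import Pool.Agent.Y712.AJ.Sec

/-!
# Abel–Jacobi maps onto Selmer groups and varieties of dimension `2 i + 1` and `2 i + 2`
-/

open CategoryTheory AlgebraicGeometry Finset

universe u v w w' w''

namespace Pool.Agent.Y712.Sel

open Pool.Agent.H914 Pool.Agent.H914.VarClass Pool.Agent.H914.VarClass.Obj Pool.Agent.W492.BB
  Pool.Agent.TH133 Pool.Agent.Y101.Aq Pool.Agent.Y712.Sec

variable {k : Type u} [Field k] {𝒱 : VarClass k} {C : TheoryData.{u, v, 0} 𝒱 ℚ}
  {K : Type w} [Field K] [CharZero K]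

/-- The data of the Abel–Jacobi maps and of the Selmer groups, for cycles of dimension `i`:

* `J X i`, a vector space over `K = ℚ_p` (the continuous cohomology group
  `H¹(G, H_{2i+1}(X))`, where `H_{2i+1}(X) = H^{2c-1}(X)(c)`, `c = dim X - i`);
* push-forwards;
* the subspace `F X i` (the Bloch–Kato Selmer group `H¹_f`);
* the Abel–Jacobi map `aj`; only its values on homologically trivial cycles of dimension `i` are
  used. -/
structure SelData (C : TheoryData.{u, v, 0} 𝒱 ℚ) (K : Type w) [Field K] where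
  /-- the target of the Abel–Jacobi map -/
  J : 𝒱.Obj → ℕ → Type w'
  /-- it is an abelian group -/
  grp : ∀ X i, AddCommGroup (J X i)
  /-- it is a vector space over `K` -/
  mod : ∀ X i, Module K (J X i)
  /-- push-forward -/
  push : ∀ {X Y : 𝒱.Obj}, (X ⟶ Y) → ∀ i, J X i →ₗ[K] J Y i
  /-- the Selmer group -/
  F : ∀ X i, Submodule K (J X i)
  /-- the Abel–Jacobi map -/
  aj : ∀ X i, C.A X → J X i

attribute [instance] SelData.grp SelData.mod

/-- The class `a` on `X` is the class of a homologically trivial cycle of dimension `i`. -/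
def HomTrivial (H : WeilTheoryData.{u, v, w} C K) (i : ℕ) {X : 𝒱.Obj} (a : C.A X) : Prop :=
  IsCycle C i a ∧ H.cl a = 0

/-- The properties of the push-forwards, Selmer groups and Abel–Jacobi maps. -/
structure IsSel (H : WeilTheoryData.{u, v, w} C K) (T : SelData.{u, v, w, w'} C K) : Prop where
  push_id : ∀ (X : 𝒱.Obj) (i : ℕ) (t : T.J X i), T.push (𝟙 X) i t = t
  push_comp : ∀ {X Y Z : 𝒱.Obj} (f : X ⟶ Y) (g : Y ⟶ Z) (i : ℕ) (t : T.J X i),
    T.push (f ≫ g) i t = T.push g i (T.push f i t)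
  push_F : ∀ {X Y : 𝒱.Obj} (f : X ⟶ Y) (i : ℕ), ∀ t ∈ T.F X i, T.push f i t ∈ T.F Y i
  aj_add : ∀ (X : 𝒱.Obj) (i : ℕ) (a b : C.A X), HomTrivial H i a → HomTrivial H i b →
    T.aj X i (a + b) = T.aj X i a + T.aj X i b
  aj_push : ∀ {X Y : 𝒱.Obj} (f : X ⟶ Y) (i : ℕ) (a : C.A X), HomTrivial H i a →
    T.aj Y i (C.down f a) = T.push f i (T.aj X i a)

/-- `CH_i(X)^0 ⊗ K → J X i` is injective: homologically trivial classes of cycles of dimension `i` which
are linearly independent over `ℚ` have linearly independent images. -/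
def AJInjective (H : WeilTheoryData.{u, v, w} C K) (T : SelData.{u, v, w, w'} C K) (i : ℕ)
    (X : 𝒱.Obj) : Prop :=
  ∀ (n : ℕ) (z : Fin n → C.A X), (∀ t, HomTrivial H i (z t)) → LinearIndependent ℚ z →
    LinearIndependent K (fun t => T.aj X i (z t))

/-- The subspace spanned by the images of the homologically trivial cycles of dimension `i`. -/
def ajSpan (H : WeilTheoryData.{u, v, w} C K) (T : SelData.{u, v, w, w'} C K) (i : ℕ) (X : 𝒱.Obj) :
    Submodule K (T.J X i) :=
  Submodule.span K {t | ∃ a : C.A X, HomTrivial H i a ∧ t = T.aj X i a}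

/-- The Abel–Jacobi map maps onto the Selmer group. -/
def AJOnto (H : WeilTheoryData.{u, v, w} C K) (T : SelData.{u, v, w, w'} C K) (i : ℕ) (X : 𝒱.Obj) :
    Prop := T.F X i ≤ ajSpan H T i X

/-- The image of the Abel–Jacobi map is contained in the Selmer group. -/
def AJInto (H : WeilTheoryData.{u, v, w} C K) (T : SelData.{u, v, w, w'} C K) (i : ℕ) (X : 𝒱.Obj) :
    Prop := ajSpan H T i X ≤ T.F X i

/-- The Abel–Jacobi map is an isomorphism from `CH_i(X)^0 ⊗ K` onto the Selmer group. -/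
def AJIso (H : WeilTheoryData.{u, v, w} C K) (T : SelData.{u, v, w, w'} C K) (i : ℕ) (X : 𝒱.Obj) :
    Prop := AJInjective H T i X ∧ ajSpan H T i X = T.F X i

/-- Finitely many classes of cycles of dimension `i` on `X` come, after the inclusion `s` of `X` in a
product `W` with projective spaces, from a smooth complete intersection `ι : S ⟶ W` of dimension `2 i +
2`; by the weak Lefschetz theorem the push-forwards are injective on `H_{2i}(S)` and on
`J S i = H¹(G, H_{2i+1}(S))`. -/
def HasEvenSections (H : WeilTheoryData.{u, v, w} C K) (T : SelData.{u, v, w, w'} C K) : Prop :=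
  ∀ (X : 𝒱.Obj) (i n : ℕ) (z : Fin n → C.A X), i ≤ X.dim → (∀ t, IsCycle C i (z t)) →
    ∃ (S W : 𝒱.Obj) (s : X ⟶ W) (q : W ⟶ X) (ι : S ⟶ W) (y : Fin n → C.A S),
      s ≫ q = 𝟙 X ∧ S.dim = 2 * i + 2 ∧ InjectiveOnHomology H i ι ∧
      Function.Injective (T.push ι i) ∧ ∀ t, IsCycle C i (y t) ∧ C.down ι (y t) = C.down s (z t)

/-- * If `dim X ≥ 2 i + 1` there is `ι : S ⟶ X` with `dim S = 2 i + 1` such that the Selmer group of `S`
  is mapped onto that of `X`: `S` is a smooth linear section; by the hard Lefschetz theorem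
  `H_{2i+1}(S) → H_{2i+1}(X)` is a split surjection of Galois representations.
* For each `X` and `m` there are `W`, of dimension `dim X + m`, and `s : X ⟶ W` and `q : W ⟶ X` with
  `q ∘ s` the identity (the product with the projective space). -/
structure HasOddSections (T : SelData.{u, v, w, w'} C K) : Prop where
  section_ : ∀ (X : 𝒱.Obj) (i : ℕ), 2 * i + 1 ≤ X.dim → ∃ (S : 𝒱.Obj) (ι : S ⟶ X),
    S.dim = 2 * i + 1 ∧ ∀ t ∈ T.F X i, ∃ t' ∈ T.F S i, T.push ι i t' = t
  product : ∀ (X : 𝒱.Obj) (m : ℕ), ∃ (W : 𝒱.Obj) (s : X ⟶ W) (q : W ⟶ X), s ≫ q = 𝟙 X ∧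
    W.dim = X.dim + m

variable {H : WeilTheoryData.{u, v, w} C K} {T : SelData.{u, v, w, w'} C K} [hC : IsChowProj C]

include hC

lemma hom_push [hH : IsWeilProj H] {X Y : 𝒱.Obj} (f : X ⟶ Y) {i : ℕ} {a : C.A X}
    (ha : HomTrivial H i a) : HomTrivial H i (C.down f a) := by
  refine ⟨?_, ?_⟩
  · have h1 := hC.isTheory.hasDegrees.push_mem f ha.1
    have e : (X.dim : ℤ) - i + 1 * ((Y.dim : ℤ) - X.dim) = (Y.dim : ℤ) - i := by ring
    rwa [e] at h1
  · rw [hH.isClassMap.cl_push, ha.2]
    exact map_zero _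

omit hC in
lemma hom_of_push [hH : IsWeilProj H] {S W : 𝒱.Obj} {ι : S ⟶ W} {i : ℕ}
    (hι : InjectiveOnHomology H i ι) {y : C.A S} (hy : IsCycle C i y)
    (h : H.cl (C.down ι y) = 0) : HomTrivial H i y := by
  refine ⟨hy, hι _ (hH.isClassMap.cl_mem hy) ?_⟩
  rw [← hH.isClassMap.cl_push, h]

lemma left_inv {X W : 𝒱.Obj} (s : X ⟶ W) (q : W ⟶ X) (hsq : s ≫ q = 𝟙 X) (a : C.A X) :
    C.push q (C.push s a) = a := by
  have h1 := hC.isTheory.isFunctor.push_comp s q a
  rw [hsq, hC.isTheory.isFunctor.push_id] at h1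
  exact h1.symm

omit hC [CharZero K] in
lemma left_inv' (hT : IsSel H T) {X W : 𝒱.Obj} (s : X ⟶ W) (q : W ⟶ X) (hsq : s ≫ q = 𝟙 X) (i : ℕ)
    (t : T.J X i) : T.push q i (T.push s i t) = t := by
  rw [← hT.push_comp, hsq, hT.push_id]

lemma span_push' [hH : IsWeilProj H] (hT : IsSel H T) {X Y : 𝒱.Obj} (f : X ⟶ Y) (i : ℕ)
    {t : T.J X i} (ht : t ∈ ajSpan H T i X) : T.push f i t ∈ ajSpan H T i Y := by
  unfold ajSpan at ht
  induction ht using Submodule.span_induction with
  | mem x hx =>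
    obtain ⟨a, ha, rfl⟩ := hx
    exact Submodule.subset_span ⟨_, hom_push f ha, (hT.aj_push f i a ha).symm⟩
  | zero => rw [map_zero]; exact Submodule.zero_mem _
  | add x y _ _ hx hy => rw [map_add]; exact Submodule.add_mem _ hx hy
  | smul c x _ hx => rw [map_smul]; exact Submodule.smul_mem _ c hx

theorem inj_reduction [hH : IsWeilProj H] (hT : IsSel H T) (hS : HasEvenSections H T) (i : ℕ) :
    (∀ X : 𝒱.Obj, i ≤ X.dim → AJInjective H T i X) ↔
      ∀ X : 𝒱.Obj, X.dim = 2 * i + 2 → AJInjective H T i X := by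
  constructor
  · intro h X hX
    exact h X (by omega)
  · intro h X hi n z hz hzi
    obtain ⟨S, W, s, q, ι, y, hsq, hdim, hinj, hJ, hy⟩ := hS X i n z hi (fun t => (hz t).1)
    have e1 : LinearIndependent ℚ (fun t => C.push s (z t)) :=
      hzi.map' (C.push s) (LinearMap.ker_eq_bot.2
        (Function.LeftInverse.injective (left_inv s q hsq)))
    have e2 : LinearIndependent ℚ y := by
      refine LinearIndependent.of_comp (C.push ι) ?_
      have : (C.push ι) ∘ y = fun t => C.push s (z t) := funext fun t => (hy t).2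
      rw [this]
      exact e1
    have hyt : ∀ t, HomTrivial H i (y t) := fun t => by
      refine hom_of_push hinj (hy t).1 ?_
      rw [(hy t).2]
      exact (hom_push s (hz t)).2
    have e3 := h S hdim n y hyt e2
    have e4 := e3.map' (T.push ι i) (LinearMap.ker_eq_bot.2 hJ)
    have e5 : (T.push ι i) ∘ (fun t => T.aj S i (y t)) =
        (T.push s i) ∘ (fun t => T.aj X i (z t)) := by
      funext t
      show T.push ι i (T.aj S i (y t)) = T.push s i (T.aj X i (z t))
      rw [← hT.aj_push ι i (y t) (hyt t), (hy t).2, hT.aj_push s i (z t) (hz t)]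
    rw [e5] at e4
    exact LinearIndependent.of_comp (T.push s i) e4

theorem onto_reduction [hH : IsWeilProj H] (hT : IsSel H T) (hO : HasOddSections T) (i : ℕ) :
    (∀ X : 𝒱.Obj, AJOnto H T i X) ↔ ∀ X : 𝒱.Obj, X.dim = 2 * i + 1 → AJOnto H T i X := by
  constructor
  · intro h X _
    exact h X
  · intro h X t ht
    obtain ⟨W, s, q, hsq, hW⟩ := hO.product X (2 * i + 1)
    obtain ⟨S, ι, hSd, hι⟩ := hO.section_ W i (by omega)
    obtain ⟨t', ht', e⟩ := hι _ (hT.push_F s i t ht)
    have h1 := span_push' hT q i (span_push' hT ι i (h S hSd ht'))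
    rwa [e, left_inv' hT s q hsq] at h1

/-- The containment in the Selmer groups can be tested on sections of any dimension. -/
theorem into_reduction [hH : IsWeilProj H] (hT : IsSel H T) (i : ℕ) (hS : HasSections H) :
    (∀ X : 𝒱.Obj, i ≤ X.dim → AJInto H T i X) ↔
      ∀ X : 𝒱.Obj, X.dim = 2 * i + 1 → AJInto H T i X := by
  constructor
  · intro h X hX
    exact h X (by omega)
  · intro h X hi
    refine Submodule.span_le.2 ?_
    rintro _ ⟨a, ha, rfl⟩
    obtain ⟨S, W, s, q, ι, y, hsq, hdim, hinj, hy⟩ := hS X i 1 (fun _ => a) hi (fun _ => ha.1)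
    have hy0 : HomTrivial H i (y 0) := by
      refine hom_of_push hinj (hy 0).1 ?_
      rw [(hy 0).2]
      exact (hom_push s ha).2
    have h1 : T.aj S i (y 0) ∈ T.F S i := h S hdim (Submodule.subset_span ⟨y 0, hy0, rfl⟩)
    have h2 := hT.push_F q i _ (hT.push_F ι i _ h1)
    rw [← hT.aj_push ι i _ hy0, (hy 0).2, hT.aj_push s i a ha, left_inv' hT s q hsq] at h2
    exact h2

theorem iso_reduction [hH : IsWeilProj H] (hT : IsSel H T) (hE : HasEvenSections H T)
    (hS : HasSections H) (hO : HasOddSections T) (i : ℕ) :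
    (∀ X : 𝒱.Obj, i ≤ X.dim → AJIso H T i X) ↔
      ∀ X : 𝒱.Obj, X.dim = 2 * i + 2 → AJIso H T i X := by
  constructor
  · intro h X hX
    exact h X (by omega)
  · intro h
    have h1 := (inj_reduction hT hE i).2 fun X hX => (h X hX).1
    have hodd : ∀ X : 𝒱.Obj, X.dim = 2 * i + 1 → ajSpan H T i X = T.F X i := by
      intro X hX
      obtain ⟨W, s, q, hsq, hW⟩ := hO.product X 1
      have h2 := (h W (by omega)).2
      apply le_antisymm
      · intro t ht
        have h3 : T.push s i t ∈ T.F W i := by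
          rw [← h2]
          exact span_push' hT s i ht
        have h4 := hT.push_F q i _ h3
        rwa [left_inv' hT s q hsq] at h4
      · intro t ht
        have h3 : T.push s i t ∈ ajSpan H T i W := by
          rw [h2]
          exact hT.push_F s i t ht
        have h4 := span_push' hT q i h3
        rwa [left_inv' hT s q hsq] at h4
    have h2 := (onto_reduction hT hO i).2 fun X hX => (hodd X hX).ge
    have h3 := (into_reduction hT i hS).2 fun X hX => (hodd X hX).le
    exact fun X hX => ⟨h1 X hX, le_antisymm (h3 X hX) (h2 X)⟩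

omit hC in
/-- An idempotent correspondence `e` of `X`, acting on cycle classes and on `J X i`. -/
structure IsIdempotent (H : WeilTheoryData.{u, v, w} C K) (T : SelData.{u, v, w, w'} C K) (i : ℕ)
    (X : 𝒱.Obj) (e : C.A X →ₗ[ℚ] C.A X) (e' : T.J X i →ₗ[K] T.J X i) : Prop where
  idem : ∀ t, e' (e' t) = e' t
  hom : ∀ a, HomTrivial H i a → HomTrivial H i (e a)
  aj : ∀ a, HomTrivial H i a → T.aj X i (e a) = e' (T.aj X i a)
  F : ∀ t ∈ T.F X i, e' t ∈ T.F X i

omit hC in
/-- The Abel–Jacobi map of the motive `(X, e)` is an isomorphism from `e CH_i(X)^0 ⊗ K` onto the Selmer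
group `e' F`. -/
def MotiveIso (H : WeilTheoryData.{u, v, w} C K) (T : SelData.{u, v, w, w'} C K) (i : ℕ)
    (X : 𝒱.Obj) (e : C.A X →ₗ[ℚ] C.A X) (e' : T.J X i →ₗ[K] T.J X i) : Prop :=
  (∀ (n : ℕ) (z : Fin n → C.A X), (∀ t, ∃ a, HomTrivial H i a ∧ z t = e a) →
    LinearIndependent ℚ z → LinearIndependent K (fun t => T.aj X i (z t))) ∧
  Submodule.span K {t | ∃ a, HomTrivial H i a ∧ t = T.aj X i (e a)} = (T.F X i).map e'

omit hC [CharZero K] in
/-- From `X` to the motives `(X, e)`. -/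
theorem motive_iso {i : ℕ} {X : 𝒱.Obj} (h : AJIso H T i X) {e : C.A X →ₗ[ℚ] C.A X}
    {e' : T.J X i →ₗ[K] T.J X i} (he : IsIdempotent H T i X e e') : MotiveIso H T i X e e' := by
  refine ⟨fun n z hz hzi => h.1 n z (fun t => ?_) hzi, ?_⟩
  · obtain ⟨a, ha, e1⟩ := hz t
    rw [e1]
    exact he.hom a ha
  · rw [← h.2]
    unfold ajSpan
    rw [Submodule.map_span]
    congr 1
    ext t
    constructor
    · rintro ⟨a, ha, rfl⟩
      exact ⟨T.aj X i a, ⟨a, ha, rfl⟩, (he.aj a ha).symm⟩
    · rintro ⟨_, ⟨a, ha, rfl⟩, rfl⟩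
      exact ⟨a, ha, (he.aj a ha).symm⟩

end Pool.Agent.Y712.Sel
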