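import Pool.Agent.H914R2.Weil

/-!
# Newton and Hodge polygons: all degrees and the middle degree of rational varieties
-/

set_option autoImplicit false

open Finset

universe u

namespace Pool.Agent.Y712.Sl

open Pool.Agent.H914 Pool.Agent.H914.VarClass Pool.Agent.H914.VarClass.Obj

/-- The sum of the `m` smallest elements of a multiset (with multiplicities). -/
noncomputable def low (s : Multiset ℚ) (m : ℕ) : ℚ := ((s.sort (· ≤ ·)).take m).sum

/-- The polygon with the slopes `s` lies on or above the polygon with the slopes `t`, and they have the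
same endpoints. -/
def Above (s t : Multiset ℚ) : Prop := s.card = t.card ∧ s.sum = t.sum ∧ ∀ m, low t m ≤ low s m

/-- The sum of the squares. -/
def sq (s : Multiset ℚ) : ℚ := (s.map fun x => x ^ 2).sum

lemma abel (D c : ℕ → ℚ) (n : ℕ) : ∑ i ∈ range (n + 1), D i * c i =
    (∑ i ∈ range (n + 1), D i) * c n -
      ∑ i ∈ range n, (∑ j ∈ range (i + 1), D j) * (c (i + 1) - c i) := by
  induction n with
  | zero => simp
  | succ n ih =>
    rw [sum_range_succ, ih, sum_range_succ D (n + 1),
      sum_range_succ (fun i => (∑ j ∈ range (i + 1), D j) * (c (i + 1) - c i)) n]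
    ring

/-- The inequality for sorted sequences, and the case of equality. -/
lemma sorted_sq {n : ℕ} {a b : ℕ → ℚ} (ha : ∀ i, i + 1 < n → a i ≤ a (i + 1))
    (hb : ∀ i, i + 1 < n → b i ≤ b (i + 1))
    (h : ∀ m ≤ n, ∑ i ∈ range m, b i ≤ ∑ i ∈ range m, a i)
    (hn : ∑ i ∈ range n, b i = ∑ i ∈ range n, a i) :
    ∑ i ∈ range n, a i ^ 2 ≤ ∑ i ∈ range n, b i ^ 2 ∧
      (∑ i ∈ range n, a i ^ 2 = ∑ i ∈ range n, b i ^ 2 → ∀ i < n, a i = b i) := by
  rcases n with _ | n
  · simp
  set D : ℕ → ℚ := fun i => b i - a i with hD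
  set c : ℕ → ℚ := fun i => b i + a i with hc
  have h1 := abel D c n
  have hS : ∀ m, ∑ i ∈ range m, D i = ∑ i ∈ range m, b i - ∑ i ∈ range m, a i := fun m =>
    sum_sub_distrib _ _
  have h2 : ∑ i ∈ range (n + 1), D i * c i =
      ∑ i ∈ range (n + 1), b i ^ 2 - ∑ i ∈ range (n + 1), a i ^ 2 := by
    rw [← sum_sub_distrib]
    refine sum_congr rfl fun i _ => ?_
    simp only [hD, hc]
    ring
  rw [h2, hS, hn, sub_self, zero_mul, zero_sub] at h1
  have h3 : ∀ i ∈ range n, (∑ j ∈ range (i + 1), D j) * (c (i + 1) - c i) ≤ 0 := by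
    intro i hi
    rw [mem_range] at hi
    refine mul_nonpos_of_nonpos_of_nonneg ?_ ?_
    · rw [hS]
      have := h (i + 1) (by omega)
      linarith
    · simp only [hc]
      have := ha i (by omega)
      have := hb i (by omega)
      linarith
  have h4 := sum_nonpos h3
  refine ⟨by linarith, fun heq => ?_⟩
  rw [heq, sub_self, eq_comm, neg_eq_zero] at h1
  have h5 := (sum_eq_zero_iff_of_nonpos h3).1 h1
  -- all partial sums of `D` vanish
  have h6 : ∀ m, m ≤ n + 1 → ∑ i ∈ range m, D i = 0 := by
    by_contra hcon
    push Not at hcon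
    have hmin := Nat.find_spec hcon
    set m := Nat.find hcon with hm
    obtain ⟨hm1, hm2⟩ := hmin
    have hm0 : m ≠ 0 := by
      intro h0
      rw [h0, range_zero, sum_empty] at hm2
      exact hm2 rfl
    obtain ⟨m', hm'⟩ : ∃ m', m = m' + 1 := ⟨m - 1, by omega⟩
    have hprev : ∑ i ∈ range m', D i = 0 := by
      by_contra h7
      exact Nat.find_min hcon (m := m') (by omega) ⟨by omega, h7⟩
    have hneg : ∑ i ∈ range m, D i < 0 := by
      refine lt_of_le_of_ne ?_ hm2
      rw [hS]
      have := h m hm1
      linarith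
    have hD' : D m' < 0 := by
      rw [hm', sum_range_succ, hprev, zero_add] at hneg
      exact hneg
    have hall : ∀ j, m + j ≤ n + 1 → ∑ i ∈ range (m + j), D i < 0 ∧ D (m' + j) < 0 := by
      intro j
      induction j with
      | zero => exact fun _ => ⟨hneg, hD'⟩
      | succ j ih =>
        intro hj
        obtain ⟨i1, i2⟩ := ih (by omega)
        have e1 : m' + j + 1 = m + j := by omega
        have h8 := h5 (m' + j) (by rw [mem_range]; omega)
        rw [e1] at h8
        have h9 : c (m + j) - c (m' + j) = 0 := by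
          rcases mul_eq_zero.1 h8 with h8 | h8
          · exact absurd h8 i1.ne
          · exact h8
        have h10 := ha (m' + j) (by omega)
        have h11 := hb (m' + j) (by omega)
        rw [e1] at h10 h11
        have h12 : D (m + j) = D (m' + j) := by
          simp only [hc, hD] at h9 ⊢
          linarith
        have e2 : m + (j + 1) = (m + j) + 1 := by omega
        have e3 : m' + (j + 1) = m + j := by omega
        refine ⟨?_, by rw [e3, h12]; exact i2⟩
        rw [e2, sum_range_succ, h12]
        linarith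
    have h13 := (hall (n + 1 - m) (by omega)).1
    rw [show m + (n + 1 - m) = n + 1 by omega, hS, hn, sub_self] at h13
    exact lt_irrefl _ h13
  intro i hi
  have h7 := h6 (i + 1) (by omega)
  rw [sum_range_succ, h6 i (by omega), zero_add] at h7
  simp only [hD] at h7
  linarith

lemma take_sum (l : List ℚ) (m : ℕ) (hm : m ≤ l.length) :
    (l.take m).sum = ∑ i ∈ range m, l.getD i 0 := by
  induction m with
  | zero => simp
  | succ m ih =>
    rw [List.take_add_one, List.sum_append, ih (by omega), sum_range_succ]
    congr 1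
    rw [List.getD_eq_getElem?_getD]
    rw [List.getElem?_eq_getElem (by omega)]
    simp

/-- The sum of the squares detects the equality of the polygons. -/
theorem sq_le {s t : Multiset ℚ} (h : Above s t) : sq s ≤ sq t ∧ (sq s = sq t → s = t) := by
  obtain ⟨h1, h2, h3⟩ := h
  set a := s.sort (· ≤ ·) with ha
  set b := t.sort (· ≤ ·) with hb
  have ea : (a : Multiset ℚ) = s := Multiset.sort_eq _ _
  have eb : (b : Multiset ℚ) = t := Multiset.sort_eq _ _
  have la : a.length = s.card := by rw [ha, Multiset.length_sort]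
  have lb : b.length = s.card := by rw [hb, Multiset.length_sort, h1]
  set n := s.card with hn
  have hsum : ∀ (l : List ℚ) (f : ℚ → ℚ), (l.map f).sum = ∑ i ∈ range l.length, f (l.getD i 0) := by
    intro l f
    rw [Finset.sum_range, ← List.sum_ofFn]
    congr 1
    refine List.ext_getElem (by simp) fun i h4 h5 => ?_
    rw [List.getElem_map, List.getElem_ofFn]
    rw [List.length_map] at h4
    simp [List.getD_eq_getElem?_getD, List.getElem?_eq_getElem h4]
  have hsorted : ∀ (l : List ℚ), l.Pairwise (· ≤ ·) → ∀ i, i + 1 < l.length →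
      l.getD i 0 ≤ l.getD (i + 1) 0 := by
    intro l hl i hi
    have h4 := List.pairwise_iff_getElem.1 hl i (i + 1) (by omega) hi (by omega)
    simpa [List.getD_eq_getElem?_getD, List.getElem?_eq_getElem hi,
      List.getElem?_eq_getElem (show i < l.length by omega)] using h4
  have hqa : sq s = ∑ i ∈ range n, a.getD i 0 ^ 2 := by
    unfold sq
    rw [← ea, Multiset.map_coe, Multiset.sum_coe, hsum, la]
  have hqb : sq t = ∑ i ∈ range n, b.getD i 0 ^ 2 := by
    unfold sq
    rw [← eb, Multiset.map_coe, Multiset.sum_coe, hsum, lb]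
  have key := sorted_sq (n := n) (a := fun i => a.getD i 0) (b := fun i => b.getD i 0)
    (fun i hi => hsorted a (Multiset.pairwise_sort _ _) i (by omega))
    (fun i hi => hsorted b (Multiset.pairwise_sort _ _) i (by omega))
    (fun m hm => by
      have h4 := h3 m
      unfold low at h4
      rwa [← ha, ← hb, take_sum a m (by omega), take_sum b m (by omega)] at h4)
    (by
      have h4 : a.sum = b.sum := by
        rw [← Multiset.sum_coe, ← Multiset.sum_coe, ea, eb, h2]
      have h5 := hsum a id
      have h6 := hsum b id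
      rw [List.map_id] at h5 h6
      rw [la] at h5
      rw [lb] at h6
      simp only [id] at h5 h6
      rw [← h5, ← h6, h4])
  rw [hqa, hqb]
  refine ⟨key.1, fun h4 => ?_⟩
  have h5 := key.2 h4
  rw [← ea, ← eb]
  congr 1
  refine List.ext_getElem (by omega) fun i h6 h7 => ?_
  have h8 := h5 i (by omega)
  simpa [List.getD_eq_getElem?_getD, List.getElem?_eq_getElem h6, List.getElem?_eq_getElem h7]
    using h8

/-- The multiset of all sums. -/
def tens (s t : Multiset ℚ) : Multiset ℚ := s.bind fun x => t.map fun y => x + y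

/-- The polygon of a projective space in degree `N`. -/
def tate (N : ℕ) : Multiset ℚ := if Even N then {((N / 2 : ℕ) : ℚ)} else 0

/-- The polygon of `H^N(ℙ^N) ⊕ H^(N-2)(X)(-1) ⊕ ... ⊕ H^(N-2m)(X)(-m)`, if `h i` is the polygon of
`H^i(X)`. -/
def blow (h : ℤ → Multiset ℚ) (N m : ℕ) : Multiset ℚ :=
  tate N + ∑ t ∈ range m, (h (N - 2 * (t + 1))).map fun x : ℚ => x + ((t : ℚ) + 1)

/-- The polygon of `H^(i+1)(X) ⊕ H^(i-1)(X)(-1) ⊕ (H^i(X) ⊗ U)`. -/
def prodE (h : ℤ → Multiset ℚ) (U : Multiset ℚ) (i : ℤ) : Multiset ℚ :=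
  h (i + 1) + (h (i - 1)).map (fun x => x + 1) + tens (h i) U

/-- the polygon of the cohomology with Hodge numbers one and one -/
def hodgeE : Multiset ℚ := {0, 1}

/-- `s` and `t` have the same number of elements and the same sum. -/
def Same (s t : Multiset ℚ) : Prop := s.card = t.card ∧ s.sum = t.sum

lemma sq_add (s t : Multiset ℚ) : sq (s + t) = sq s + sq t := by
  unfold sq
  rw [Multiset.map_add, Multiset.sum_add]

lemma sum_shift (s : Multiset ℚ) (c : ℚ) : (s.map fun x => x + c).sum = s.sum + s.card * c := by
  rw [Multiset.sum_map_add, Multiset.map_id', Multiset.map_const', Multiset.sum_replicate,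
    nsmul_eq_mul]

lemma sq_shift (s : Multiset ℚ) (c : ℚ) :
    sq (s.map fun x => x + c) = sq s + 2 * c * s.sum + s.card * c ^ 2 := by
  unfold sq
  rw [Multiset.map_map]
  have h : ((fun x : ℚ => x ^ 2) ∘ fun x => x + c) = fun x => (x ^ 2 + 2 * c * x) + c ^ 2 := by
    funext x
    simp only [Function.comp_apply]
    ring
  rw [h, Multiset.sum_map_add, Multiset.sum_map_add, Multiset.sum_map_mul_left, Multiset.map_id',
    Multiset.map_const', Multiset.sum_replicate, nsmul_eq_mul]

lemma card_tens (s t : Multiset ℚ) : (tens s t).card = s.card * t.card := by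
  unfold tens
  rw [Multiset.card_bind]
  have h : (Multiset.card ∘ fun x : ℚ => t.map fun y => x + y) = fun _ => t.card := by
    funext x
    simp
  rw [h, Multiset.map_const', Multiset.sum_replicate, smul_eq_mul]

lemma sum_tens (s t : Multiset ℚ) : (tens s t).sum = t.card * s.sum + s.card * t.sum := by
  unfold tens
  rw [Multiset.sum_bind]
  have h : (fun x : ℚ => (t.map fun y => x + y).sum) = fun x => t.card * x + t.sum := by
    funext x
    rw [Multiset.sum_map_add, Multiset.map_id', Multiset.map_const', Multiset.sum_replicate,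
      nsmul_eq_mul]
  rw [h, Multiset.sum_map_add, Multiset.sum_map_mul_left, Multiset.map_id', Multiset.map_const',
    Multiset.sum_replicate, nsmul_eq_mul]

lemma sq_tens (s t : Multiset ℚ) :
    sq (tens s t) = t.card * sq s + 2 * s.sum * t.sum + s.card * sq t := by
  unfold sq tens
  rw [Multiset.map_bind, Multiset.sum_bind]
  have h : (fun x : ℚ => ((t.map fun y => x + y).map fun z => z ^ 2).sum) =
      fun x => (t.card * x ^ 2 + 2 * t.sum * x) + (t.map fun y => y ^ 2).sum := by
    funext x
    rw [Multiset.map_map]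
    have h1 : ((fun z : ℚ => z ^ 2) ∘ fun y => x + y) = fun y => (x ^ 2 + 2 * x * y) + y ^ 2 := by
      funext y
      simp only [Function.comp_apply]
      ring
    rw [h1, Multiset.sum_map_add, Multiset.sum_map_add, Multiset.sum_map_mul_left,
      Multiset.map_id', Multiset.map_const', Multiset.sum_replicate, nsmul_eq_mul]
    ring
  rw [h, Multiset.sum_map_add, Multiset.sum_map_add, Multiset.sum_map_mul_left,
    Multiset.sum_map_mul_left, Multiset.map_id', Multiset.map_const', Multiset.sum_replicate,
    nsmul_eq_mul]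
  ring

/-- The defect, which is zero if and only if the polygons are equal. -/
def defect (s t : Multiset ℚ) : ℚ := sq t - sq s

lemma defect_nonneg {s t : Multiset ℚ} (h : Above s t) : 0 ≤ defect s t :=
  sub_nonneg.2 (sq_le h).1

lemma eq_of_defect {s t : Multiset ℚ} (h : Above s t) (h0 : defect s t = 0) : s = t :=
  (sq_le h).2 (sub_eq_zero.1 h0).symm

lemma defect_shift {s t : Multiset ℚ} (h : Same s t) (c : ℚ) :
    defect (s.map fun x => x + c) (t.map fun x => x + c) = defect s t := by
  unfold defect
  rw [sq_shift, sq_shift, h.1, h.2]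
  ring

lemma defect_tens {s t u w : Multiset ℚ} (h : Same s t) (h' : Same u w) :
    defect (tens s u) (tens t w) = w.card * defect s t + t.card * defect u w := by
  unfold defect
  rw [sq_tens, sq_tens, h.1, h.2, h'.1, h'.2]
  ring

lemma defect_blow {s t : ℤ → Multiset ℚ} (h : ∀ i, Same (s i) (t i)) (N m : ℕ) :
    defect (blow s N m) (blow t N m) =
      ∑ j ∈ range m, defect (s (N - 2 * (j + 1))) (t (N - 2 * (j + 1))) := by
  have h1 : ∀ s : ℤ → Multiset ℚ, sq (blow s N m) = sq (tate N) +
      ∑ j ∈ range m, sq ((s (N - 2 * (j + 1))).map fun x : ℚ => x + ((j : ℚ) + 1)) := by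
    intro s
    unfold blow
    rw [sq_add]
    congr 1
    induction m with
    | zero => simp [sq]
    | succ m ih => rw [sum_range_succ, sq_add, ih, sum_range_succ]
  unfold defect
  rw [h1, h1, add_sub_add_left_eq_sub, ← sum_sub_distrib]
  refine sum_congr rfl fun j _ => ?_
  exact defect_shift (h _) _

lemma defect_prodE {s t : ℤ → Multiset ℚ} (h : ∀ i, Same (s i) (t i)) {u w : Multiset ℚ}
    (h' : Same u w) (i : ℤ) : defect (prodE s u i) (prodE t w i) =
      defect (s (i + 1)) (t (i + 1)) + defect (s (i - 1)) (t (i - 1)) +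
        (w.card * defect (s i) (t i) + (t i).card * defect u w) := by
  have h1 := defect_shift (h (i - 1)) 1
  have h2 := defect_tens (h i) h'
  unfold defect prodE at *
  rw [sq_add, sq_add, sq_add, sq_add]
  linear_combination h1 + h2

end Pool.Agent.Y712.Sl
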