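import Pool.Agent.Y712.AJ.Sl

/-!
# Ordinary reduction in all degrees and in the middle degree of rational varieties
-/

set_option autoImplicit false

open Finset Filter

universe u

namespace Pool.Agent.Y712.Sl

open Pool.Agent.H914 Pool.Agent.H914.VarClass Pool.Agent.H914.VarClass.Obj

variable {k : Type u} [Field k]

/-- The data: `V` is the set of the finite places of the number field `k`; `hodge X i` is the multiset of
the slopes of the Hodge polygon of `H^i(X)`, `newton v X i` that of the slopes of the Newton polygon at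
the place `v`, and `bad X` is a finite set of places which contains those of bad reduction. -/
structure Data (𝒱 : VarClass k) (V : Type) where
  /-- the slopes of the Hodge polygon -/
  hodge : 𝒱.Obj → ℤ → Multiset ℚ
  /-- the slopes of the Newton polygon -/
  newton : V → 𝒱.Obj → ℤ → Multiset ℚ
  /-- the bad places -/
  bad : 𝒱.Obj → Set V

variable {𝒱 : VarClass k} {V : Type}

/-- Embed `X` in the projective space of dimension `N`; the cohomology group `H^N(B)` of the blow-up `B`
with centre `X` is `H^N(ℙ^N) ⊕ H^(N-2)(X)(-1) ⊕ ... ⊕ H^(N-2(c-1))(X)(-(c-1))`, `c = N - dim X`. -/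
def Data.HasBlowUps (T : Data 𝒱 V) (R : 𝒱.Obj → Prop) : Prop :=
  ∀ (X : 𝒱.Obj) (N : ℕ), 2 * X.dim + 1 ≤ N → ∃ B : 𝒱.Obj, R B ∧ B.dim = N ∧
    T.hodge B N = blow (T.hodge X) N (N - X.dim - 1) ∧
    ∀ v, v ∉ T.bad B → T.newton v B N = blow (T.newton v X) N (N - X.dim - 1)

/-- The Künneth formula for the product `Y` of `X` with an elliptic curve `E`. -/
def Data.HasKunneth (T : Data 𝒱 V) : Prop :=
  ∃ E : 𝒱.Obj, T.hodge E 1 = hodgeE ∧ ∀ X : 𝒱.Obj, ∃ Y : 𝒱.Obj, ∀ i : ℤ,
    T.hodge Y (i + 1) = prodE (T.hodge X) hodgeE i ∧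
      ∀ v, v ∉ T.bad Y → T.newton v Y (i + 1) = prodE (T.newton v X) (T.newton v E 1) i

/-- The properties of the polygons; `R` is the class of the blow-ups of projective spaces with one smooth
centre. `above`: the Newton polygon is on or above the Hodge polygon, and they have the same endpoints
(Mazur, Ogus). -/
structure IsPoly (T : Data 𝒱 V) (R : 𝒱.Obj → Prop) : Prop where
  finite : ∀ X, (T.bad X).Finite
  range : ∀ (X : 𝒱.Obj) (i : ℤ), i < 0 ∨ 2 * X.dim < i → T.hodge X i = 0
  above : ∀ X v, v ∉ T.bad X → ∀ i, Above (T.newton v X i) (T.hodge X i)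
  blowUp : T.HasBlowUps R
  kunneth : T.HasKunneth

/-- The place `v` is good, and the Newton and Hodge polygons of `X` are equal in all degrees. -/
def Ordinary (T : Data 𝒱 V) (X : 𝒱.Obj) (v : V) : Prop :=
  v ∉ T.bad X ∧ ∀ i, T.newton v X i = T.hodge X i

/-- The place `v` is good, and the Newton and Hodge polygons of `B` are equal in the middle degree. -/
def MiddleOrdinary (T : Data 𝒱 V) (B : 𝒱.Obj) (v : V) : Prop :=
  v ∉ T.bad B ∧ T.newton v B B.dim = T.hodge B B.dim

variable {T : Data 𝒱 V} {R : 𝒱.Obj → Prop}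

lemma same (hT : IsPoly T R) {X : 𝒱.Obj} {v : V} (hv : v ∉ T.bad X) (i : ℤ) :
    Same (T.newton v X i) (T.hodge X i) :=
  ⟨(hT.above X v hv i).1, (hT.above X v hv i).2.1⟩

/-- If the middle degree of a blow-up with centre `Y` is ordinary, then `Y` is ordinary in all degrees of
the same parity. -/
lemma parity (hT : IsPoly T R) {Y B : 𝒱.Obj} {N : ℕ} (hN : 2 * Y.dim + 2 ≤ N) (hB : B.dim = N)
    {v : V} (hvY : v ∉ T.bad Y) (h1 : T.hodge B N = blow (T.hodge Y) N (N - Y.dim - 1))
    (h2 : T.newton v B N = blow (T.newton v Y) N (N - Y.dim - 1)) (h : MiddleOrdinary T B v)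
    (i : ℤ) (hi : i % 2 = (N : ℤ) % 2) : defect (T.newton v Y i) (T.hodge Y i) = 0 := by
  have h3 : defect (T.newton v B N) (T.hodge B N) = 0 := by
    have h4 := h.2
    rw [hB] at h4
    unfold defect
    rw [h4, sub_self]
  rw [h1, h2, defect_blow (same hT hvY)] at h3
  have h4 := (sum_eq_zero_iff_of_nonneg fun j _ => defect_nonneg (hT.above Y v hvY _)).1 h3
  rcases lt_or_ge i 0 with h5 | h5
  · have e := hT.range Y i (Or.inl h5)
    have e' : T.newton v Y i = 0 := by
      rw [← Multiset.card_eq_zero, (same hT hvY i).1, e, Multiset.card_zero]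
    rw [e, e']
    exact sub_self _
  rcases lt_or_ge (2 * Y.dim : ℤ) i with h6 | h6
  · have e := hT.range Y i (Or.inr h6)
    have e' : T.newton v Y i = 0 := by
      rw [← Multiset.card_eq_zero, (same hT hvY i).1, e, Multiset.card_zero]
    rw [e, e']
    exact sub_self _
  obtain ⟨j, hj⟩ : ∃ j : ℕ, (N : ℤ) - 2 * (j + 1) = i := ⟨((N - i) / 2 - 1).toNat, by omega⟩
  have h7 := h4 j (by rw [mem_range]; omega)
  rwa [hj] at h7

/-- For each `X` there is a rational variety such that `X` is ordinary in all degrees at the places where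
the middle degree of the rational variety is ordinary. -/
theorem pointwise (hT : IsPoly T R) (X : 𝒱.Obj) (e : ℤ) (he : e = 0 ∨ e = 1) :
    ∃ (B : 𝒱.Obj) (F : Set V), R B ∧ (B.dim : ℤ) % 2 = e ∧ F.Finite ∧
      ∀ v, v ∉ F → MiddleOrdinary T B v → Ordinary T X v := by
  obtain ⟨E, hE, hK⟩ := hT.kunneth
  obtain ⟨Y, hY⟩ := hK X
  obtain ⟨N, hN1, hN2⟩ : ∃ N : ℕ, 2 * Y.dim + 2 ≤ N ∧ (N : ℤ) % 2 = e := by
    rcases he with rfl | rfl
    · exact ⟨2 * Y.dim + 2, le_rfl, by omega⟩
    · exact ⟨2 * Y.dim + 3, by omega, by omega⟩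
  obtain ⟨B, hRB, hB, hh, hn⟩ := hT.blowUp Y N (by omega)
  refine ⟨B, T.bad X ∪ T.bad Y ∪ T.bad B ∪ T.bad E, hRB, by rw [hB]; exact hN2,
    (((hT.finite X).union (hT.finite Y)).union (hT.finite B)).union (hT.finite E), ?_⟩
  intro v hv h
  simp only [Set.mem_union, not_or] at hv
  obtain ⟨⟨⟨hvX, hvY⟩, hvB⟩, hvE⟩ := hv
  have h1 := parity hT hN1 hB hvY hh (hn v hvB) h
  -- the defects of `X`
  have h2 : ∀ i : ℤ, (i + 1) % 2 = (N : ℤ) % 2 → defect (T.newton v X i) (T.hodge X i) = 0 ∧
      defect (T.newton v X (i + 1)) (T.hodge X (i + 1)) = 0 := by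
    intro i hi
    have h3 := h1 (i + 1) hi
    have hEs : Same (T.newton v E 1) hodgeE := by
      rw [← hE]; exact same hT hvE 1
    have hEa : Above (T.newton v E 1) hodgeE := by
      rw [← hE]; exact hT.above E v hvE 1
    rw [(hY i).1, (hY i).2 v hvY, defect_prodE (same hT hvX) hEs] at h3
    have a1 := defect_nonneg (hT.above X v hvX (i + 1))
    have a2 := defect_nonneg (hT.above X v hvX (i - 1))
    have a3 := defect_nonneg (hT.above X v hvX i)
    have a4 := defect_nonneg hEa
    have hc : ((hodgeE.card : ℕ) : ℚ) = 2 := by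
      unfold hodgeE
      norm_num
    rw [hc] at h3
    have a5 : (0 : ℚ) ≤ (T.hodge X i).card * defect (T.newton v E 1) hodgeE :=
      mul_nonneg (Nat.cast_nonneg _) a4
    constructor <;> linarith
  refine ⟨hvX, fun i => eq_of_defect (hT.above X v hvX i) ?_⟩
  by_cases hi : (i + 1) % 2 = (N : ℤ) % 2
  · exact (h2 i hi).1
  · have h3 := (h2 (i - 1) (by omega)).2
    rwa [sub_add_cancel] at h3

/-- For each `X` there is `B` in the class `R`, of odd or even dimension as one likes, such that, up to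
finitely many places, `X` is ordinary in all degrees at the places where the middle degree of `B` is
ordinary. -/
def Dominated (T : Data 𝒱 V) (R : 𝒱.Obj → Prop) : Prop :=
  ∀ (X : 𝒱.Obj) (e : ℤ), e = 0 ∨ e = 1 → ∃ (B : 𝒱.Obj) (F : Set V), R B ∧ (B.dim : ℤ) % 2 = e ∧
    F.Finite ∧ ∀ v, v ∉ F → MiddleOrdinary T B v → Ordinary T X v

/-- A notion of large sets: it is monotone, and finite sets may be removed. -/
structure IsLarge (P : Set V → Prop) : Prop where
  mono : ∀ S S', S ⊆ S' → P S → P S'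
  diff : ∀ S F, F.Finite → P S → P (S \ F)

/-- These are equivalent:

* for all `X` the set of the places of good ordinary reduction (in all degrees) is large;
* for all `B` in `R` of odd dimension the set of the places where the middle degree is ordinary is large;
* the same for even dimension. -/
def Reduces (T : Data 𝒱 V) (R : 𝒱.Obj → Prop) (P : Set V → Prop) : Prop :=
  List.TFAE [∀ X, P {v | Ordinary T X v},
    ∀ B : 𝒱.Obj, R B → Odd B.dim → P {v | MiddleOrdinary T B v},
    ∀ B : 𝒱.Obj, R B → Even B.dim → P {v | MiddleOrdinary T B v}]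

theorem reduces (hT : IsPoly T R) {P : Set V → Prop} (hP : IsLarge P) : Reduces T R P := by
  have key : ∀ e : ℤ, e = 0 ∨ e = 1 →
      (∀ B : 𝒱.Obj, R B → (B.dim : ℤ) % 2 = e → P {v | MiddleOrdinary T B v}) →
      ∀ X, P {v | Ordinary T X v} := by
    intro e he h X
    obtain ⟨B, F, hB, hBe, hF, hv⟩ := pointwise hT X e he
    refine hP.mono _ _ ?_ (hP.diff _ F hF (h B hB hBe))
    rintro v ⟨h1, h2⟩
    exact hv v h2 h1
  have h0 : ∀ B : 𝒱.Obj, {v | Ordinary T B v} ⊆ {v | MiddleOrdinary T B v} := fun B v h =>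
    ⟨h.1, h.2 _⟩
  unfold Reduces
  tfae_have 1 → 2 := fun h B _ _ => hP.mono _ _ (h0 B) (h B)
  tfae_have 1 → 3 := fun h B _ _ => hP.mono _ _ (h0 B) (h B)
  tfae_have 2 → 1 := fun h => key 1 (Or.inr rfl) fun B hB hBe => h B hB (by
    rw [Nat.odd_iff]; omega)
  tfae_have 3 → 1 := fun h => key 0 (Or.inl rfl) fun B hB hBe => h B hB (by
    rw [Nat.even_iff]; omega)
  tfae_finish

section density

/-- The number of the places in `S` of norm at most `x`. -/
noncomputable def count (nm : V → ℕ) (S : Set V) (x : ℕ) : ℕ := {v | v ∈ S ∧ nm v ≤ x}.ncard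

/-- The lower density of `S` is positive. -/
def PosDensity (nm : V → ℕ) (S : Set V) : Prop :=
  ∃ c : ℝ, 0 < c ∧ ∀ᶠ x in atTop, c * count nm Set.univ x ≤ count nm S x

/-- The density of `S` is one. -/
def DensityOne (nm : V → ℕ) (S : Set V) : Prop :=
  ∀ c : ℝ, c < 1 → ∀ᶠ x in atTop, c * count nm Set.univ x ≤ count nm S x

variable {nm : V → ℕ} (hnm : ∀ x, {v | nm v ≤ x}.Finite)

include hnm

lemma count_mono {S S' : Set V} (h : S ⊆ S') (x : ℕ) : count nm S x ≤ count nm S' x :=
  Set.ncard_le_ncard (fun _ hv => ⟨h hv.1, hv.2⟩) ((hnm x).subset fun _ hv => hv.2)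

lemma count_diff (S F : Set V) (hF : F.Finite) (x : ℕ) :
    count nm S x ≤ count nm (S \ F) x + F.ncard := by
  refine le_trans (Set.ncard_le_ncard (t := {v | v ∈ S \ F ∧ nm v ≤ x} ∪ F) ?_ ?_)
    (Set.ncard_union_le _ _)
  · rintro v ⟨h1, h2⟩
    by_cases h3 : v ∈ F
    · exact Or.inr h3
    · exact Or.inl ⟨⟨h1, h3⟩, h2⟩
  · exact ((hnm x).subset fun _ hv => hv.2).union hF

lemma count_tendsto [Infinite V] : Tendsto (fun x => count nm Set.univ x) atTop atTop := by
  rw [tendsto_atTop]
  intro m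
  obtain ⟨s, hs⟩ := Infinite.exists_subset_card_eq V m
  refine eventually_atTop.2 ⟨s.sup nm, fun x hx => ?_⟩
  rw [← hs, ← Set.ncard_coe_finset]
  refine Set.ncard_le_ncard (fun v hv => ⟨Set.mem_univ _, ?_⟩) ((hnm x).subset fun _ hv => hv.2)
  exact (Finset.le_sup (Finset.mem_coe.1 hv)).trans hx

lemma small [Infinite V] {ε : ℝ} (hε : 0 < ε) (m : ℕ) :
    ∀ᶠ x in atTop, (m : ℝ) ≤ ε * count nm Set.univ x := by
  have h1 : Tendsto (fun x => ε * (count nm (Set.univ : Set V) x : ℝ)) atTop atTop :=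
    (tendsto_natCast_atTop_atTop.comp (count_tendsto hnm)).const_mul_atTop hε
  exact h1.eventually_ge_atTop _

lemma large_pos [Infinite V] : IsLarge (PosDensity nm) where
  mono S S' h := by
    rintro ⟨c, hc, h1⟩
    refine ⟨c, hc, h1.mono fun x hx => hx.trans ?_⟩
    exact_mod_cast count_mono hnm h x
  diff S F hF := by
    rintro ⟨c, hc, h1⟩
    refine ⟨c / 2, half_pos hc, ?_⟩
    filter_upwards [h1, small hnm (half_pos hc) F.ncard] with x hx1 hx2
    have h3 : (count nm S x : ℝ) ≤ count nm (S \ F) x + F.ncard := by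
      exact_mod_cast count_diff hnm S F hF x
    linarith

lemma large_one [Infinite V] : IsLarge (DensityOne nm) where
  mono S S' h h1 c hc := by
    refine (h1 c hc).mono fun x hx => hx.trans ?_
    exact_mod_cast count_mono hnm h x
  diff S F hF h1 c hc := by
    have h2 : (c + 1) / 2 < 1 := by linarith
    have h3 : 0 < (1 - c) / 2 := by linarith
    filter_upwards [h1 _ h2, small hnm h3 F.ncard] with x hx1 hx2
    have h3 : (count nm S x : ℝ) ≤ count nm (S \ F) x + F.ncard := by
      exact_mod_cast count_diff hnm S F hF x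
    linarith

omit hnm in
lemma large_infinite : IsLarge (fun S : Set V => S.Infinite) where
  mono _ _ h h1 := h1.mono h
  diff _ _ hF h1 := h1.sdiff hF

end density

end Pool.Agent.Y712.Sl
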