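import Pool.Agent.Y712.AJ.Ss1

/-!
# Semisimplicity of the cohomology of varieties over number fields, and Tate classes

`NVar` are the smooth proper varieties over number fields in `AlgebraicClosure ℚ`, `Gal` is the
absolute Galois group of `ℚ`. `Data` is the raw data of `p`-adic cohomology, `IsCohomology` collects
its standard properties.
-/

open CategoryTheory AlgebraicGeometry

namespace Pool.Agent.Y712.Ss

/-- The absolute Galois group of `ℚ`. -/
abbrev Gal : Type := AlgebraicClosure ℚ ≃ₐ[ℚ] AlgebraicClosure ℚ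

/-- A smooth proper variety over a number field. -/
structure NVar where
  /-- the number field -/
  F : IntermediateField ℚ (AlgebraicClosure ℚ)
  /-- it has finite degree -/
  fin : FiniteDimensional ℚ F
  /-- the underlying scheme -/
  X : Scheme.{0}
  /-- the structure morphism -/
  str : X ⟶ Spec (.of F)
  /-- the dimension -/
  dim : ℕ
  /-- smoothness -/
  smooth : SmoothOfRelativeDimension dim str
  /-- properness -/
  proper : IsProper str

/-- `g` is in the absolute Galois group of the field over which `X` is defined. -/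
def NVar.Fixes (X : NVar) (g : Gal) : Prop := g ∈ X.F.fixingSubgroup

/-- `X` is a variety over `ℚ`. -/
def NVar.OverQ (X : NVar) : Prop := X.F = ⊥

/-- Raw data: `p`-adic cohomology with Galois action, pairings, the cyclotomic character. -/
structure Data (k : Type) [Field k] where
  /-- the projective ones among the smooth proper varieties -/
  Proj : NVar → Prop
  /-- the blow-ups of projective spaces over `ℚ` in one smooth centre -/
  BlowUp : NVar → Prop
  /-- the cohomology groups -/
  H : NVar → ℕ → Type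
  /-- they are abelian groups -/
  [grp : ∀ X i, AddCommGroup (H X i)]
  /-- they are vector spaces over `k`, the field of `p`-adic numbers -/
  [mod : ∀ X i, Module k (H X i)]
  /-- they have finite dimension -/
  [fin : ∀ X i, FiniteDimensional k (H X i)]
  /-- the action of the Galois group, used only for the elements of the Galois group of the field of
  definition -/
  act : ∀ X i, Gal → (H X i →ₗ[k] H X i)
  /-- the cup product pairing -/
  pair : ∀ X i j, H X i →ₗ[k] H X j →ₗ[k] k
  /-- the inverse of the cyclotomic character -/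
  eps : Gal → k

attribute [instance] Data.grp Data.mod Data.fin

section Defs

variable {k : Type} [Field k] (D : Data k) {X Y Z : NVar} {i j : ℕ}

/-- `g x` for a class `x` -/
def Data.ap (g : Gal) (x : D.H X i) : D.H X i := D.act X i g x

/-- `c x`, for a number `c` and a class `x` -/
def Data.scale (c : k) (x : D.H X i) : D.H X i := c • x

/-- the power `ε(g) ^ m` of the inverse of the cyclotomic character -/
def Data.epow (g : Gal) (m : ℕ) : k := D.eps g ^ m

/-- `x = 0` -/
def Data.IsZero (x : D.H X i) : Prop := x = 0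

/-- the value of the pairing -/
def Data.val (x : D.H X i) (y : D.H X j) : k := D.pair X i j x y

/-- `f` is a linear map. -/
def Data.Lin (f : D.H X i → D.H Y j) : Prop := IsLinearMap k f

/-- the subspaces of `H^i(X)` -/
def Data.Sub (X : NVar) (i : ℕ) : Type := Submodule k (D.H X i)

variable {D}

/-- the class `x` is in the subspace `W` -/
def Data.Sub.Has (W : D.Sub X i) (x : D.H X i) : Prop :=
  (show Submodule k (D.H X i) from W).carrier x

/-- The subspaces `W` and `K` are complementary. -/
def Data.Sub.Compl (W K : D.Sub X i) : Prop :=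
  IsCompl (show Submodule k (D.H X i) from W) (show Submodule k (D.H X i) from K)

/-- The subspace `W` is stable under the Galois group of the field of definition. -/
def Data.Sub.Stable (W : D.Sub X i) : Prop :=
  ∀ g, X.Fixes g → ∀ x, W.Has x → W.Has (D.ap g x)

variable (D)

/-- The Galois representation `H^i(X)` is semisimple: every stable subspace has a stable
complement. -/
def Semisimple (X : NVar) (i : ℕ) : Prop :=
  ∀ W : D.Sub X i, W.Stable → ∃ K : D.Sub X i, K.Stable ∧ W.Compl K

/-- For `X` over `ℚ`: the class `x` is a Tate class, `g x = ε(g) ^ m x` for all `g`. -/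
def Data.Tate (m : ℕ) (x : D.H X i) : Prop := ∀ g, D.ap g x = D.scale (D.epow g m) x

/-- The pairing is left nondegenerate on the space of the Tate classes in `H^n(B)`. -/
def Nondeg (B : NVar) (n m : ℕ) : Prop :=
  ∀ x : D.H B n, D.Tate m x → (∀ y : D.H B n, D.Tate m y → D.val x y = 0) → D.IsZero x

/-- The representations `H^i(X)` are semisimple, for all smooth projective varieties `X` over all
number fields and all `i`. -/
def AllSemisimple : Prop := ∀ X i, D.Proj X → Semisimple D X i

/-- For `m ∈ M` and the blow-ups `B` of projective spaces of dimension `2 m` the intersection form is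
nondegenerate on the space of the Tate classes in the middle cohomology. -/
def MiddleTate (M : Set ℕ) : Prop :=
  ∀ m ∈ M, ∀ B : NVar, D.BlowUp B → B.dim = 2 * m → Nondeg D B (2 * m) m

/-- The action of the Galois group is a group action, `ε` is a character. -/
structure IsAction : Prop where
  one : ∀ X i (x : D.H X i), D.ap 1 x = x
  mul : ∀ X i (x : D.H X i) g h, X.Fixes g → X.Fixes h → D.ap (g * h) x = D.ap g (D.ap h x)
  eps_one : D.eps 1 = 1
  eps_mul : ∀ g h, D.eps (g * h) = D.eps g * D.eps h

/-- Poincaré duality in degrees `i`, `j`. -/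
def Duality (X : NVar) (i j : ℕ) : Prop :=
  (∀ g, X.Fixes g → ∀ (x : D.H X i) (y : D.H X j),
    D.val (D.ap g x) (D.ap g y) = D.epow g X.dim * D.val x y) ∧
    ∀ x : D.H X i, (∀ y : D.H X j, D.val x y = 0) → D.IsZero x

/-- `μ` is multilinear. -/
def Data.Multilin {s : ℕ} (μ : (Fin s → D.H X i) → D.H Y j) : Prop :=
  ∃ m : MultilinearMap k (fun _ : Fin s => D.H X i) (D.H Y j), ∀ x, m x = μ x

/-- The family `b` is linearly independent. -/
def Data.Indep {t : Type} (b : t → D.H X i) : Prop := LinearIndependent k b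

/-- The Künneth formula for the `s`-fold power `Y` of `X`: `μ (x_1, …, x_s)` is the exterior product
of the classes `x_1, …, x_s` in `H^i(X)`; it is compatible with the Galois action, and the exterior
products of the elements of a linearly independent family are linearly independent. -/
def IsPower (s : ℕ) (μ : (Fin s → D.H X i) → D.H Y (s * i)) : Prop :=
  D.Multilin μ ∧ (∀ g x, D.ap g (μ x) = μ fun j => D.ap g (x j)) ∧
    ∀ (t : ℕ) (b : Fin t → D.H X i), D.Indep b → D.Indep fun f : Fin s → Fin t => μ fun j => b (f j)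

/-- `H^i(Z)` is contained in `H^n(B)`, with the Tate twist by `t`, for varieties over `ℚ`. -/
def Embeds (Z : NVar) (i : ℕ) (B : NVar) (n t : ℕ) : Prop :=
  ∃ f : D.H Z i → D.H B n, D.Lin f ∧ Function.Injective f ∧
    ∀ g x, D.ap g (f x) = D.scale (D.epow g t) (f (D.ap g x))

/-- `H^i(Y)` is the representation of `Gal` induced by the representation `H^i(X)` of the Galois
group of the number field `F` of definition of `X`: `f` is the inclusion of the summand `H^i(X)`, and
`q` the projection to this summand. -/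
def IsInduced (X Y : NVar) (i : ℕ) : Prop :=
  ∃ (f : D.H X i → D.H Y i) (q : D.H Y i → D.H X i), D.Lin f ∧ D.Lin q ∧
    (∀ x, q (f x) = x) ∧ (∀ g, X.Fixes g → ∀ x, f (D.ap g x) = D.ap g (f x)) ∧
    (∀ g, X.Fixes g → ∀ y, q (D.ap g y) = D.ap g (q y)) ∧
    ∀ g, ¬ X.Fixes g → ∀ x, D.IsZero (q (D.ap g (f x)))

/-- The one-dimensional subrepresentations of the cohomology over `ℚ` are, up to characters of finite
order, powers of the cyclotomic character: if `g a = χ(g) a` for all `g`, `a ≠ 0` in `H^i(X)`, then
`χ ^ n = ε ^ m` for some `n ≥ 1` and `m = n i / 2`. -/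
def HasTateLines (X : NVar) (i : ℕ) : Prop :=
  ∀ (a : D.H X i) (χ : Gal → k), ¬ D.IsZero a → (∀ g, D.ap g a = D.scale (χ g) a) →
    ∃ n m : ℕ, 0 < n ∧ n * i = 2 * m ∧ ∀ g, χ g ^ n = D.epow g m

/-- Powers exist. -/
def HasPowers : Prop :=
  ∀ X i s, D.Proj X → X.OverQ → ∃ Y, D.Proj Y ∧ Y.OverQ ∧
    ∃ μ : (Fin s → D.H X i) → D.H Y (s * i), IsPower D s μ

/-- The blow-ups of projective spaces of large dimension along `Z`. -/
def HasBlowUps : Prop :=
  ∀ Z i, D.Proj Z → Z.OverQ → ∃ t₀, ∀ t ≥ t₀, ∃ B, D.BlowUp B ∧ B.dim = i + 2 * t ∧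
    Embeds D Z i B (i + 2 * t) t

/-- The standard properties of the `p`-adic cohomology of varieties over number fields. -/
structure IsCohomology : Prop where
  act : IsAction D
  duality : ∀ X i j, D.Proj X → i + j = 2 * X.dim → Duality D X i j
  powers : HasPowers D
  blowUps : HasBlowUps D
  proj : ∀ B, D.BlowUp B → D.Proj B ∧ B.OverQ
  lines : ∀ X i, D.Proj X → X.OverQ → HasTateLines D X i
  induced : ∀ X i, D.Proj X → ∃ Y, D.Proj Y ∧ Y.OverQ ∧ IsInduced D X Y i

end Defs

variable {k : Type} [Field k] {D : Data k} {X Y Z : NVar} {i j : ℕ}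

theorem fixes_of_overQ (hX : X.OverQ) (g : Gal) : X.Fixes g := by
  unfold NVar.Fixes
  rw [show X.F = ⊥ from hX, IntermediateField.fixingSubgroup_bot]
  trivial

section action

variable (hA : IsAction D)
include hA

theorem eps_ne_zero (g : Gal) : D.eps g ≠ 0 := by
  intro h
  have h1 := hA.eps_mul g g⁻¹
  rw [mul_inv_cancel, hA.eps_one, h, zero_mul] at h1
  exact one_ne_zero h1

theorem ap_inv {g : Gal} (hg : X.Fixes g) (x : D.H X i) : D.ap g (D.ap g⁻¹ x) = x := by
  rw [← hA.mul X i x g g⁻¹ hg (X.F.fixingSubgroup.inv_mem hg), mul_inv_cancel, hA.one]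

theorem ap_inv' {g : Gal} (hg : X.Fixes g) (x : D.H X i) : D.ap g⁻¹ (D.ap g x) = x := by
  rw [← hA.mul X i x g⁻¹ g (X.F.fixingSubgroup.inv_mem hg) hg, inv_mul_cancel, hA.one]

end action

/-! ### From Tate classes to stable subspaces -/

section lines

variable (h : IsCohomology D) {M : Set ℕ}

include h

/-- If the intersection forms on Tate classes are nondegenerate, then every Tate class in `H^i(Z)`,
`Z` over `ℚ`, is detected by an equivariant functional. -/
theorem exists_functional (hM : M.Infinite) (hT : MiddleTate D M) {Z : NVar} (hZ : D.Proj Z)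
    (hZQ : Z.OverQ) {i m : ℕ} (him : i = 2 * m) {τ : D.H Z i} (hτ : τ ≠ 0)
    (hτT : ∀ g, D.act Z i g τ = D.eps g ^ m • τ) :
    ∃ f : D.H Z i →ₗ[k] k, f τ ≠ 0 ∧ ∀ g x, f (D.act Z i g x) = D.eps g ^ m * f x := by
  obtain ⟨t₀, ht⟩ := h.blowUps Z i hZ hZQ
  obtain ⟨M', hM', hlt⟩ := hM.exists_gt (m + t₀)
  obtain ⟨B, hB, hBd, j, hjl, hj, hjF⟩ := ht (M' - m) (by omega)
  obtain ⟨hBP, hBQ⟩ := h.proj B hB
  have hND : Nondeg D B (i + 2 * (M' - m)) M' := by
    have h1 := hT M' hM' B hB (by omega)
    have h2 : i + 2 * (M' - m) = 2 * M' := by omega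
    rw [h2]
    exact h1
  have hx : D.Tate M' (j τ) := by
    intro g
    rw [hjF g τ]
    unfold Data.scale Data.epow Data.ap
    rw [hτT g, hjl.map_smul, smul_smul, ← pow_add]
    congr 2
    omega
  have h0 : ¬ D.IsZero (j τ) := fun h0 => hτ (hj (by rw [hjl.map_zero]; exact h0))
  obtain ⟨y, hy, hne⟩ : ∃ y : D.H B (i + 2 * (M' - m)), D.Tate M' y ∧ D.val (j τ) y ≠ 0 := by
    by_contra hcon
    push Not at hcon
    exact h0 (hND _ hx fun y hy => hcon y hy)
  let f : D.H Z i →ₗ[k] k :=
    { toFun := fun x => D.val (j x) y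
      map_add' := fun x x' => by
        unfold Data.val
        rw [hjl.map_add, map_add, LinearMap.add_apply]
      map_smul' := fun c x => by
        unfold Data.val
        rw [hjl.map_smul, map_smul, LinearMap.smul_apply, RingHom.id_apply] }
  refine ⟨f, hne, fun g x => ?_⟩
  change D.val (j (D.ap g x)) y = D.eps g ^ m * D.val (j x) y
  have e0 := eps_ne_zero h.act g
  have hdual := (h.duality B _ _ hBP (by omega : (i + 2 * (M' - m)) + (i + 2 * (M' - m)) =
    2 * B.dim)).1 g (fixes_of_overQ hBQ g) (j x) y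
  rw [hjF g x, hy g, hBd] at hdual
  unfold Data.scale Data.epow Data.val at hdual
  rw [map_smul, smul_eq_mul, map_smul, LinearMap.smul_apply, smul_eq_mul] at hdual
  unfold Data.val
  have e1 : D.eps g ^ (i + 2 * (M' - m)) =
      D.eps g ^ M' * D.eps g ^ (M' - m) * D.eps g ^ m := by
    rw [← pow_add, ← pow_add]
    congr 1
    omega
  rw [e1, ← mul_assoc, mul_assoc (D.eps g ^ M' * D.eps g ^ (M' - m))] at hdual
  exact mul_left_cancel₀ (mul_ne_zero (pow_ne_zero _ e0) (pow_ne_zero _ e0)) hdual

/-- Every stable subspace of the cohomology of a variety over `ℚ` has a stable complement. -/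
theorem semisimple_overQ (hM : M.Infinite) (hT : MiddleTate D M) {X : NVar} (hX : D.Proj X)
    (hXQ : X.OverQ) (w : ℕ) : Semisimple D X w := by
  intro S hS
  let S' : Submodule k (D.H X w) := S
  have hfix := fixes_of_overQ hXQ
  have hst : ∀ g, ∀ x ∈ S', D.act X w g x ∈ S' := fun g x hx => hS g (hfix g) x hx
  obtain ⟨s, hs⟩ : ∃ s, Module.finrank k S' = s := ⟨_, rfl⟩
  rcases s with _ | n
  · have h1 : S' = ⊥ := Submodule.finrank_eq_zero.mp hs
    refine ⟨(⊤ : Submodule k (D.H X w)), fun g _ x _ => trivial, ?_⟩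
    change IsCompl S' ⊤
    rw [h1]
    exact isCompl_bot_top
  · let b : Module.Basis (Fin (n + 1)) k S' := Module.finBasisOfFinrankEq k S' hs
    obtain ⟨Y₁, hY₁, hY₁Q, μ₁, ⟨m₁, hm₁⟩, hμ₁, hind₁⟩ := h.powers X w (n + 1) hX hXQ
    let A := MultilinearMap.alternatization m₁
    have hA : ∀ g x, D.act Y₁ _ g (A x) = A fun i => D.act X w g (x i) := by
      intro g x
      simp only [A, MultilinearMap.alternatization_apply, map_sum]
      refine Finset.sum_congr rfl fun σ _ => ?_
      rw [MultilinearMap.domDomCongr_apply, MultilinearMap.domDomCongr_apply, hm₁, hm₁,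
        Units.smul_def, Units.smul_def, map_zsmul]
      congr 1
      exact hμ₁ g _
    let a : D.H Y₁ ((n + 1) * w) := A fun i => (b i : D.H X w)
    have ha : a ≠ 0 := by
      have h1 : LinearIndependent k fun i => (b i : D.H X w) := by
        have h2 := b.linearIndependent.map' S'.subtype (Submodule.ker_subtype S')
        exact h2
      have h2 := hind₁ (n + 1) (fun i => (b i : D.H X w)) h1
      intro h0
      have h3 := Fintype.linearIndependent_iff.mp h2
        (fun f => ∑ σ : Equiv.Perm (Fin (n + 1)),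
          if f = σ then ((Equiv.Perm.sign σ : ℤ) : k) else 0) ?_ (id : Fin (n + 1) → Fin (n + 1))
      · rw [Finset.sum_eq_single 1] at h3
        · simp at h3
        · intro σ _ hσ
          rw [if_neg]
          intro h4
          exact hσ (Equiv.ext fun x => (congrFun h4 x).symm)
        · intro h4
          exact absurd (Finset.mem_univ _) h4
      · simp only [Finset.sum_smul, ite_smul, zero_smul]
        rw [Finset.sum_comm]
        simp only [Finset.sum_ite_eq', Finset.mem_univ, if_true]
        rw [← h0]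
        simp only [a, A, MultilinearMap.alternatization_apply]
        refine Finset.sum_congr rfl fun σ _ => ?_
        rw [MultilinearMap.domDomCongr_apply, hm₁, Units.smul_def, ← Int.cast_smul_eq_zsmul k]
    -- the character
    have hdet : ∀ g, ∃ c : k, D.act Y₁ _ g a = c • a := by
      intro g
      obtain ⟨c, hc⟩ := alt_det b A (D.act X w g) (hst g)
      exact ⟨c, (hA g _).trans hc⟩
    choose χ hχ using hdet
    obtain ⟨N, m, hN, hNm, hχN⟩ := h.lines Y₁ _ hY₁ hY₁Q a χ ha hχ
    obtain ⟨N', rfl⟩ := Nat.exists_eq_succ_of_ne_zero hN.ne'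
    obtain ⟨Y₂, hY₂, hY₂Q, μ₂, ⟨m₂, hm₂⟩, hμ₂, hind₂⟩ := h.powers Y₁ _ (N' + 1) hY₁ hY₁Q
    have hχ0 : ∀ g, χ g ≠ 0 := by
      intro g h0
      have h1 := hχ g
      rw [h0, zero_smul] at h1
      have h2 := ap_inv' h.act (fixes_of_overQ hY₁Q g) a
      unfold Data.ap at h2
      rw [h1, map_zero] at h2
      exact ha h2.symm
    let τ : D.H Y₂ ((N' + 1) * ((n + 1) * w)) := m₂ fun _ => a
    have hτ : τ ≠ 0 := by
      have h1 : LinearIndependent k (fun _ : Fin 1 => a) := by
        rw [Fintype.linearIndependent_iff]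
        intro c hc i
        rw [Fin.sum_univ_one] at hc
        have h2 := (smul_eq_zero.mp hc).resolve_right ha
        rwa [Subsingleton.elim i 0]
      have h2 := hind₂ 1 (fun _ => a) h1
      have h3 := h2.ne_zero (fun _ => 0)
      change μ₂ (fun _ => a) ≠ 0 at h3
      rwa [← hm₂] at h3
    have hm₂F : ∀ g x, D.act Y₂ _ g (m₂ x) = m₂ fun j => D.act Y₁ _ g (x j) := by
      intro g x
      rw [hm₂, hm₂]
      exact hμ₂ g x
    have hτT : ∀ g, D.act Y₂ _ g τ = D.eps g ^ m • τ := by
      intro g
      simp only [τ]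
      rw [hm₂F]
      have h1 := m₂.map_smul_univ (fun _ => χ g) (fun _ => a)
      simp only [Finset.prod_const, Finset.card_univ, Fintype.card_fin] at h1
      rw [show (fun _ : Fin (N' + 1) => D.act Y₁ _ g a) = fun _ => χ g • a from
        funext fun _ => hχ g, h1]
      congr 1
      exact hχN g
    obtain ⟨f, hf, hfF⟩ := exists_functional h hM hT hY₂ hY₂Q hNm hτ hτT
    let φ : D.H Y₁ ((n + 1) * w) →ₗ[k] k := f.comp (m₂.toLinearMap (fun _ => a) 0)
    have hφ : ∀ x, φ x = f (m₂ (Function.update (fun _ => a) 0 x)) := fun x => rfl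
    have hφF : ∀ g x, φ (D.act Y₁ _ g x) = χ g * φ x := by
      intro g x
      have h1 := hfF g (m₂ (Function.update (fun _ => a) 0 x))
      rw [hm₂F] at h1
      have h2 : (fun j => D.act Y₁ _ g (Function.update (fun _ => a) 0 x j)) =
          fun j : Fin (N' + 1) => (if j = 0 then (1 : k) else χ g) •
            Function.update (fun _ => a) 0 (D.act Y₁ _ g x) j := by
        funext j
        by_cases hj : j = 0
        · subst hj
          simp
        · rw [Function.update_of_ne hj, Function.update_of_ne hj, if_neg hj]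
          exact hχ g
      rw [h2, m₂.map_smul_univ, map_smul, smul_eq_mul] at h1
      have h3 : (∏ j : Fin (N' + 1), if j = 0 then (1 : k) else χ g) = χ g ^ N' := by
        rw [Fin.prod_univ_succ]
        simp
      rw [h3, ← hφ, ← hφ] at h1
      have h4 : D.eps g ^ m = χ g ^ N' * χ g := by
        rw [← pow_succ]
        exact (hχN g).symm
      rw [h4, mul_assoc] at h1
      exact mul_left_cancel₀ (pow_ne_zero _ (hχ0 g)) h1
    let ψ : (D.H X w) [⋀^Fin (n + 1)]→ₗ[k] k := φ.compAlternatingMap A
    obtain ⟨K, hK1, hK2⟩ := split (Set.univ : Set Gal) (fun g => D.act X w g) b ψ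
      (fun g _ s hs => ⟨D.act X w g⁻¹ s, hst g⁻¹ s hs, ap_inv h.act (hfix g) s⟩)
      (fun g _ => ⟨χ g, fun x => by
        simp only [ψ, LinearMap.compAlternatingMap_apply]
        rw [← hA, hφF]⟩)
      (by
        change φ a ≠ 0
        rw [hφ, Function.update_eq_self]
        exact hf)
    exact ⟨K, fun g _ x hx => hK2 g (Set.mem_univ g) x hx, hK1⟩

/-- Descent from `ℚ` to number fields. -/
theorem semisimple_of_overQ
    (hs : ∀ X i, D.Proj X → X.OverQ → Semisimple D X i) : AllSemisimple D := by
  intro X i hX S hS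
  obtain ⟨Y, hY, hYQ, f, q, hfl, hql, hqf, hfF, hqF, hq0⟩ := h.induced X i hX
  let S' : Submodule k (D.H X i) := S
  let T : Submodule k (D.H Y i) :=
    Submodule.span k {y | ∃ (g : Gal) (x : D.H X i), x ∈ S' ∧ y = D.act Y i g (f x)}
  have hfixY := fixes_of_overQ hYQ
  have hTst : ∀ g, ∀ y ∈ T, D.act Y i g y ∈ T := by
    intro g y hy
    induction hy using Submodule.span_induction with
    | mem y hy =>
      obtain ⟨g', x, hx, rfl⟩ := hy
      refine Submodule.subset_span ⟨g * g', x, hx, ?_⟩
      exact (h.act.mul Y i (f x) g g' (hfixY g) (hfixY g')).symm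
    | zero => rw [map_zero]; exact T.zero_mem
    | add y y' _ _ h1 h2 => rw [map_add]; exact T.add_mem h1 h2
    | smul c y _ h1 => rw [map_smul]; exact T.smul_mem c h1
  have hqT : ∀ y ∈ T, q y ∈ S' := by
    intro y hy
    induction hy using Submodule.span_induction with
    | mem y hy =>
      obtain ⟨g, x, hx, rfl⟩ := hy
      by_cases hg : X.Fixes g
      · have h1 := hqF g hg (f x)
        rw [hqf] at h1
        exact (h1 ▸ hS g hg x hx : S'.carrier (q (D.ap g (f x))))
      · have h1 : q (D.act Y i g (f x)) = 0 := hq0 g hg x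
        rw [h1]
        exact S'.zero_mem
    | zero => rw [hql.map_zero]; exact S'.zero_mem
    | add y y' _ _ h1 h2 => rw [hql.map_add]; exact S'.add_mem h1 h2
    | smul c y _ h1 => rw [hql.map_smul]; exact S'.smul_mem c h1
  obtain ⟨K, hK, hTK⟩ := hs Y i hY hYQ T fun g _ y hy => hTst g y hy
  let K' : Submodule k (D.H Y i) := K
  have hTK' : IsCompl T K' := hTK
  -- the equivariant projection to `T`
  let P : D.H Y i →ₗ[k] T := Submodule.projectionOnto T K' hTK'
  have hkerP : LinearMap.ker P = K' := Submodule.ker_projectionOnto hTK'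
  have hPF : ∀ g y, (P (D.act Y i g y) : D.H Y i) = D.act Y i g (P y) := by
    intro g y
    have h1 : y - P y ∈ K' := by
      rw [← hkerP, LinearMap.mem_ker, map_sub,
        show P (P y : D.H Y i) = P y from Submodule.projectionOnto_apply_left hTK' (P y)]
      exact sub_self _
    have h2 : D.act Y i g (y - P y) ∈ K' := hK g (hfixY g) _ h1
    have h3 : P (D.act Y i g (y - P y)) = 0 := by
      rwa [← LinearMap.mem_ker, hkerP]
    have h4 : P (D.act Y i g (P y : D.H Y i)) = ⟨D.act Y i g (P y), hTst g _ (P y).2⟩ :=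
      Submodule.projectionOnto_apply_left hTK' ⟨D.act Y i g (P y), hTst g _ (P y).2⟩
    rw [map_sub, map_sub, sub_eq_zero, h4] at h3
    rw [h3]
  let R : D.H X i →ₗ[k] S' :=
    { toFun := fun x => ⟨q (P (f x)), hqT _ (P (f x)).2⟩
      map_add' := fun x y => by
        apply Subtype.ext
        simp [hfl.map_add, hql.map_add]
      map_smul' := fun c x => by
        apply Subtype.ext
        simp [hfl.map_smul, hql.map_smul] }
  have hR : ∀ x : S', R x = x := by
    intro x
    apply Subtype.ext
    have h1 : f x ∈ T := Submodule.subset_span ⟨1, x, x.2, (h.act.one Y i _).symm⟩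
    have h2 : P (f x) = ⟨f x, h1⟩ := Submodule.projectionOnto_apply_left hTK' ⟨f x, h1⟩
    change q (P (f x)) = x
    rw [h2]
    exact hqf x
  refine ⟨LinearMap.ker R, ?_, LinearMap.isCompl_of_proj hR⟩
  intro g hg x hx
  have h0 : R x = 0 := hx
  have h1 : q (P (f x)) = 0 := congrArg Subtype.val h0
  change R (D.ap g x) = 0
  apply Subtype.ext
  change q (P (f (D.ap g x))) = 0
  rw [hfF g hg x]
  have h2 := hPF g (f x)
  unfold Data.ap
  rw [h2]
  have h3 := hqF g hg (P (f x) : D.H Y i)
  unfold Data.ap at h3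
  rw [h3, h1, map_zero]

/-- Semisimplicity gives nondegenerate forms. -/
theorem nondeg_of_semisimple {B : NVar} (hB : D.Proj B) (hBQ : B.OverQ) {m : ℕ}
    (hd : B.dim = 2 * m) (hs : Semisimple D B (2 * m)) : Nondeg D B (2 * m) m := by
  intro x hx hxy
  obtain ⟨hF, hnd⟩ := h.duality B (2 * m) (2 * m) hB (by omega)
  by_contra hx0
  obtain ⟨z, hz⟩ : ∃ z : D.H B (2 * m), D.val x z ≠ 0 := by
    by_contra hcon
    push Not at hcon
    exact hx0 (hnd x hcon)
  let L : D.H B (2 * m) →ₗ[k] k := D.pair B (2 * m) (2 * m) x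
  have hLF : ∀ g y, L (D.act B _ g y) = D.eps g ^ m * L y := by
    intro g y
    have e0 := eps_ne_zero h.act g
    have h1 := hF g (fixes_of_overQ hBQ g) x y
    rw [hx g, hd] at h1
    unfold Data.scale Data.epow Data.val Data.ap at h1
    have e1 : D.eps g ^ (2 * m) = D.eps g ^ m * D.eps g ^ m := by rw [two_mul, pow_add]
    rw [map_smul, LinearMap.smul_apply, smul_eq_mul, e1, mul_assoc] at h1
    exact mul_left_cancel₀ (pow_ne_zero _ e0) h1
  have hst : (show D.Sub B (2 * m) from LinearMap.ker L).Stable := by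
    intro g _ y hy
    have h1 : L y = 0 := hy
    change L (D.act B _ g y) = 0
    rw [hLF, h1, mul_zero]
  obtain ⟨K, hK, hc⟩ := hs _ hst
  let K' : Submodule k (D.H B (2 * m)) := K
  have hc' : IsCompl (LinearMap.ker L) K' := hc
  -- decompose `z`
  obtain ⟨u, hu, y, hy, huy⟩ := Submodule.mem_sup.mp
    (hc'.sup_eq_top ▸ Submodule.mem_top : z ∈ LinearMap.ker L ⊔ K')
  have hLy : L y ≠ 0 := by
    have h1 : L z = L y := by
      rw [← huy, map_add, show L u = 0 from hu, zero_add]
    rw [← h1]
    exact hz
  have hyT : D.Tate m y := by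
    intro g
    have h1 : D.act B _ g y - D.eps g ^ m • y ∈ K' :=
      K'.sub_mem (hK g (fixes_of_overQ hBQ g) y hy) (K'.smul_mem _ hy)
    have h2 : D.act B _ g y - D.eps g ^ m • y ∈ LinearMap.ker L := by
      rw [LinearMap.mem_ker, map_sub, hLF, map_smul, smul_eq_mul, sub_self]
    have h3 := Submodule.disjoint_def.mp hc'.disjoint _ h2 h1
    exact sub_eq_zero.mp h3
  exact hLy (hxy y hyT)

/-- The theorem. -/
theorem main (hM : M.Infinite) : AllSemisimple D ↔ MiddleTate D M := by
  constructor
  · intro hs m _ B hB hd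
    obtain ⟨hP, hQ⟩ := h.proj B hB
    exact nondeg_of_semisimple h hP hQ hd (hs B _ hP)
  · intro hT
    exact semisimple_of_overQ h fun X i hX hXQ => semisimple_overQ h hM hT hX hXQ i

end lines

end Pool.Agent.Y712.Ss
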