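import Mathlib

/-!
# Splitting a stable subspace from an invariant alternating form
-/

open Module

namespace Pool.Agent.Y712.Ss

variable {k V : Type} [Field k] [AddCommGroup V] [Module k V]

section form

variable {n : ℕ} {S : Submodule k V} (b : Basis (Fin (n + 1)) k S)
  (ψ : V [⋀^Fin (n + 1)]→ₗ[k] k)

/-- the coordinates of the projection -/
noncomputable def coord (j : Fin (n + 1)) : V →ₗ[k] k :=
  ψ.toMultilinearMap.toLinearMap (fun i => (b i : V)) j

theorem coord_apply (j : Fin (n + 1)) (x : V) :
    coord b ψ j x = ψ (Function.update (fun i => (b i : V)) j x) := rfl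

/-- the projection -/
noncomputable def proj : V →ₗ[k] S :=
  ∑ j, (ψ fun i => (b i : V))⁻¹ • (coord b ψ j).smulRight (b j)

theorem proj_apply (x : V) :
    proj b ψ x = ∑ j, ((ψ fun i => (b i : V))⁻¹ * coord b ψ j x) • b j := by
  simp [proj, LinearMap.sum_apply, smul_smul]

theorem coord_basis (j l : Fin (n + 1)) :
    coord b ψ j (b l) = if j = l then ψ (fun i => (b i : V)) else 0 := by
  rw [coord_apply]
  split_ifs with h
  · subst h
    rw [Function.update_eq_self]
  · exact ψ.map_update_self _ h

theorem proj_self (hψ : (ψ fun i => (b i : V)) ≠ 0) (x : S) : proj b ψ x = x := by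
  have h : (proj b ψ).comp S.subtype = LinearMap.id := by
    refine b.ext fun l => ?_
    rw [LinearMap.comp_apply, Submodule.subtype_apply, proj_apply, LinearMap.id_apply]
    rw [Finset.sum_eq_single l]
    · rw [coord_basis, if_pos rfl, inv_mul_cancel₀ hψ, one_smul]
    · intro j _ hj
      rw [coord_basis, if_neg hj, mul_zero, zero_smul]
    · intro h
      exact absurd (Finset.mem_univ l) h
  exact LinearMap.congr_fun h x

theorem coord_eq_zero (hψ : (ψ fun i => (b i : V)) ≠ 0) {x : V} (hx : proj b ψ x = 0)
    (j : Fin (n + 1)) : coord b ψ j x = 0 := by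
  rw [proj_apply] at hx
  have h1 := (Fintype.linearIndependent_iff.mp b.linearIndependent) _ hx j
  exact (mul_eq_zero.mp h1).resolve_left (inv_ne_zero hψ)

/-- The form vanishes on `x, s_1, …, s_n` for all `s_i ∈ S`. -/
def Kills (S : Submodule k V) (ψ : V [⋀^Fin (n + 1)]→ₗ[k] k) (x : V) : Prop :=
  ∀ s : Fin n → S, ψ (Fin.cons x fun i => (s i : V)) = 0

theorem kills_of_proj (hψ : (ψ fun i => (b i : V)) ≠ 0) {x : V} (hx : proj b ψ x = 0) :
    Kills S ψ x := by
  intro s
  have key : (ψ.curryLeft x).compLinearMap S.subtype = 0 := by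
    refine b.ext_alternating fun v hv => ?_
    obtain ⟨l, hl⟩ : ∃ l : Fin (n + 1), l ∉ Set.range v := by
      by_contra hcon
      push Not at hcon
      have h1 : Function.Surjective v := fun l => hcon l
      have h2 := Fintype.card_le_of_surjective v h1
      rw [Fintype.card_fin, Fintype.card_fin] at h2
      omega
    have hinj : Function.Injective (Fin.cons l v : Fin (n + 1) → Fin (n + 1)) := by
      rw [Fin.cons_injective_iff]
      exact ⟨hl, hv⟩
    let σ : Equiv.Perm (Fin (n + 1)) :=
      Equiv.ofBijective _ (Finite.injective_iff_bijective.mp hinj)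
    have h3 := ψ.map_perm (Function.update (fun i => (b i : V)) l x) σ
    have h4 : Function.update (fun i => (b i : V)) l x ∘ σ =
        (Fin.cons x fun i => (b (v i) : V)) := by
      funext i
      refine Fin.cases ?_ (fun t => ?_) i
      · simp [σ]
      · have hne : v t ≠ l := fun h => hl ⟨t, h⟩
        simp [σ, Function.update_of_ne hne]
    rw [h4] at h3
    have h5 : ψ (Function.update (fun i => (b i : V)) l x) = 0 := coord_eq_zero b ψ hψ hx l
    rw [h5, smul_zero] at h3
    rw [AlternatingMap.zero_apply]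
    exact h3
  have h6 := congrArg (fun F => F s) key
  exact h6

theorem proj_of_kills {x : V} (hx : Kills S ψ x) : proj b ψ x = 0 := by
  rw [proj_apply]
  refine Finset.sum_eq_zero fun j _ => ?_
  have h1 := ψ.map_perm (Function.update (fun i => (b i : V)) j x) (Equiv.swap 0 j)
  let s : Fin n → S := fun t => b (Equiv.swap 0 j t.succ)
  have h2 : Function.update (fun i => (b i : V)) j x ∘ Equiv.swap 0 j =
      Fin.cons x fun i => (s i : V) := by
    funext i
    refine Fin.cases ?_ (fun t => ?_) i
    · simp
    · have hne : Equiv.swap 0 j t.succ ≠ j := by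
        intro h
        have h3 : t.succ = 0 := by
          have h4 := congrArg (Equiv.swap 0 j) h
          rwa [Equiv.swap_apply_self, Equiv.swap_apply_right] at h4
        exact Fin.succ_ne_zero t h3
      simp [s, Function.update_of_ne hne]
  rw [h2, hx s] at h1
  have h3 : ψ (Function.update (fun i => (b i : V)) j x) = 0 :=
    (smul_eq_zero_iff_eq _).mp h1.symm
  rw [coord_apply, h3, mul_zero, zero_smul]

end form

/-- A stable subspace `S` with an alternating form on the whole space, of degree the dimension of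
`S`, multiplied by a nonzero factor by each `ρ g`, and nonzero on `S`, has a stable complement. -/
theorem split {Γ : Type} (G : Set Γ) (ρ : Γ → V →ₗ[k] V) {n : ℕ} {S : Submodule k V}
    (b : Basis (Fin (n + 1)) k S) (ψ : V [⋀^Fin (n + 1)]→ₗ[k] k)
    (hS : ∀ g ∈ G, ∀ s ∈ S, ∃ t ∈ S, ρ g t = s)
    (hψ : ∀ g ∈ G, ∃ c : k, ∀ x, ψ (fun i => ρ g (x i)) = c * ψ x)
    (hb : (ψ fun i => (b i : V)) ≠ 0) :
    ∃ K : Submodule k V, IsCompl S K ∧ ∀ g ∈ G, ∀ x ∈ K, ρ g x ∈ K := by
  refine ⟨LinearMap.ker (proj b ψ), LinearMap.isCompl_of_proj (proj_self b ψ hb), ?_⟩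
  intro g hg x hx
  rw [LinearMap.mem_ker] at hx ⊢
  have h1 := kills_of_proj b ψ hb hx
  refine proj_of_kills b ψ fun s => ?_
  choose! t ht hts using hS g hg
  obtain ⟨c, hc⟩ := hψ g hg
  have h2 : (Fin.cons (ρ g x) fun i => (s i : V)) =
      fun i => ρ g ((Fin.cons x fun i => t (s i) : Fin (n + 1) → V) i) := by
    funext i
    refine Fin.cases ?_ (fun j => ?_) i
    · simp
    · simp [hts (s j) (s j).2]
  rw [h2, hc]
  have h3 := h1 fun i => ⟨t (s i), ht _ (s i).2⟩
  simp only at h3
  rw [h3, mul_zero]

/-- An alternating map of degree the dimension of `S` on a basis of `S`: the effect of an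
endomorphism of `S`. -/
theorem alt_det {W : Type} [AddCommGroup W] [Module k W] [FiniteDimensional k W] {n : ℕ}
    {S : Submodule k V} (b : Basis (Fin n) k S) (A : V [⋀^Fin n]→ₗ[k] W) (L : V →ₗ[k] V)
    (hL : ∀ s ∈ S, L s ∈ S) :
    ∃ c : k, A (fun i => L (b i)) = c • A fun i => (b i : V) := by
  let L' : S →ₗ[k] S := L.restrict hL
  refine ⟨b.det fun i => L' (b i), ?_⟩
  have key : ∀ f : Module.Dual k W, f (A (fun i => L (b i))) =
      f ((b.det fun i => L' (b i)) • A fun i => (b i : V)) := by
    intro f
    let ω : S [⋀^Fin n]→ₗ[k] k := f.compAlternatingMap (A.compLinearMap S.subtype)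
    have h1 := ω.eq_smul_basis_det b
    have h2 := congrArg (fun F => F fun i => L' (b i)) h1
    simp only [ω, LinearMap.compAlternatingMap_apply, AlternatingMap.compLinearMap_apply,
      AlternatingMap.smul_apply, Submodule.subtype_apply, smul_eq_mul, L',
      LinearMap.coe_restrict_apply] at h2
    rw [h2, map_smul, smul_eq_mul, mul_comm]
  rw [← sub_eq_zero]
  refine (Module.forall_dual_apply_eq_zero_iff k _).mp fun f => ?_
  rw [map_sub, key f, sub_self]

end Pool.Agent.Y712.Ss
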